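import Pool.Agent.H.MP_aeb38e_lc.TW.Inst

/-!
The list of operations of a word, with labels.
-/

namespace Pool.Agent.H.JS

open Finset

namespace TWOps

theorem wordOps_succ (N : ℕ) (rep len : ℕ → ℕ) :
    wordOps (N + 1) rep len = wordOps N rep len ++
      (List.range (2 * rep N)).map fun r => (r % 2, len N) := by
  simp [wordOps, List.range_succ, List.flatMap_append]

end TWOps

theorem length_wordOps (N : ℕ) (rep len : ℕ → ℕ) :
    (wordOps N rep len).length = ∑ x ∈ range N, 2 * rep x := by
  induction N with
  | zero => simp [wordOps]
  | succ N ih =>
    rw [TWOps.wordOps_succ, List.length_append, ih, Finset.sum_range_succ]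
    simp

/-- Each operation of a word has a label (its letter); the machines alternate. -/
theorem wordOps_spec (N : ℕ) (rep len : ℕ → ℕ) : ∃ lab : ℕ → ℕ,
    (∀ i < (wordOps N rep len).length,
      (wordOps N rep len)[i]? = some (i % 2, len (lab i)) ∧ lab i < N) ∧
    (∀ i i', i ≤ i' → i' < (wordOps N rep len).length → lab i ≤ lab i') ∧
    ∀ x < N, ((range (wordOps N rep len).length).filter fun i => lab i = x).card = 2 * rep x := by
  induction N with
  | zero =>
    refine ⟨fun _ => 0, fun i hi => ?_, fun i i' _ hi' => ?_, fun x hx => ?_⟩
    · simp [wordOps] at hi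
    · simp [wordOps] at hi'
    · exact absurd hx (Nat.not_lt_zero x)
  | succ N ih =>
    obtain ⟨lab, h1, h2, h3⟩ := ih
    obtain ⟨L, hL⟩ : ∃ L, L = (wordOps N rep len).length := ⟨_, rfl⟩
    have hL2 : L % 2 = 0 := by
      rw [hL, length_wordOps, ← Finset.mul_sum]
      exact Nat.mul_mod_right _ _
    rw [← hL] at h1 h2 h3
    have hlen : (wordOps (N + 1) rep len).length = L + 2 * rep N := by
      rw [TWOps.wordOps_succ, List.length_append, ← hL]
      simp
    rw [hlen]
    refine ⟨fun i => if i < L then lab i else N, fun i hi => ?_, fun i i' hii hi' => ?_,
      fun x hx => ?_⟩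
    · rw [TWOps.wordOps_succ]
      by_cases h : i < L
      · rw [List.getElem?_append_left (by rw [← hL]; exact h)]
        simp only [if_pos h]
        exact ⟨(h1 i h).1, (h1 i h).2.trans (Nat.lt_succ_self N)⟩
      · rw [List.getElem?_append_right (by rw [← hL]; omega)]
        simp only [if_neg h]
        refine ⟨?_, Nat.lt_succ_self N⟩
        rw [← hL, List.getElem?_map, List.getElem?_range (by omega)]
        simp only [Option.map_some]
        have : (i - L) % 2 = i % 2 := by omega
        rw [this]
    · by_cases h : i < L
      · by_cases h' : i' < L
        · simp only [if_pos h, if_pos h']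
          exact h2 i i' hii h'
        · simp only [if_pos h, if_neg h']
          exact (h1 i h).2.le
      · have h' : ¬ i' < L := fun h' => h (hii.trans_lt h')
        simp only [if_neg h, if_neg h']
        exact le_rfl
    · rcases Nat.lt_succ_iff_lt_or_eq.1 hx with hx | hx
      · rw [← h3 x hx]
        congr 1
        ext i
        simp only [Finset.mem_filter, Finset.mem_range]
        constructor
        · rintro ⟨hi, hl⟩
          by_cases h : i < L
          · rw [if_pos h] at hl
            exact ⟨h, hl⟩
          · rw [if_neg h] at hl
            omega
        · rintro ⟨hi, hl⟩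
          rw [if_pos hi]
          exact ⟨by omega, hl⟩
      · subst hx
        have : ((range (L + 2 * rep x)).filter fun i => (if i < L then lab i else x) = x) =
            Finset.Ico L (L + 2 * rep x) := by
          ext i
          simp only [Finset.mem_filter, Finset.mem_range, Finset.mem_Ico]
          constructor
          · rintro ⟨hi, hl⟩
            by_cases h : i < L
            · rw [if_pos h] at hl
              have := (h1 i h).2
              omega
            · exact ⟨by omega, hi⟩
          · rintro ⟨hi, hl⟩
            rw [if_neg (by omega)]
            exact ⟨hl, rfl⟩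
        rw [this, Nat.card_Ico]
        omega

end Pool.Agent.H.JS
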