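import Pool.Agent.H.MP_aeb38e_lc.TW.Basic
import Pool.Agent.H.MP_aeb38e_lc.TW.Ops
import Pool.Agent.H.MP_aeb38e_lc.PInstB

/-!
The size of the instance with two machines; it belongs to the class of the theorem.
-/

namespace Pool.Agent.H.JS

open Turing Pool.Agent.H.MP_5be563_lc.PT

namespace TWSizeT

/-- the size of a word -/
theorem sz_word_le {N : ℕ} {rep len : ℕ → ℕ} {B : ℕ} (hB : ∀ x, len x ≤ B) :
    sz (wordOps N rep len) ≤ (∑ x ∈ Finset.range N, 2 * rep x) * (2 * B + 6) + 1 := by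
  have h := sz_le_of_forall (wordOps N rep len) (2 * B + 5) (by
    intro a ha
    unfold wordOps at ha
    obtain ⟨x, -, ha⟩ := List.mem_flatMap.1 ha
    obtain ⟨r, -, rfl⟩ := List.mem_map.1 ha
    rw [sz_pair, sz_nat, sz_nat]
    have h1 := hB x
    have h2 : r % 2 < 2 := Nat.mod_lt _ (by norm_num)
    omega)
  rw [length_wordOps] at h
  exact h

theorem lenx_bd {φ : CNF} {k L w κ : ℕ} {cl : List ((ℕ × ℕ) × ℕ)} (hk : 0 < k) (hκ : 1 < κ)
    (x : ℕ) : lenx φ k L w cl (fun i => κ ^ i) x ≤ κ ^ nty k := by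
  unfold lenx
  exact Nat.pow_le_pow_right (by omega) (rankx_lt hk).le

/-- the size of a job -/
theorem sz_job_le {φ : CNF} {k d L R w κ : ℕ} (hk : 0 < k) (hκ : 1 < κ) (j : ℕ) :
    sz (wordOps (R * L * uS k (cols φ k)) (repx φ k d L w (cols φ k) (fun i => κ ^ i) j)
      (lenx φ k L w (cols φ k) (fun i => κ ^ i))) ≤
    (∑ x ∈ Finset.range (R * L * uS k (cols φ k)), mulx φ k d L (cols φ k) j x) *
      (16 * κ ^ (2 * nty k)) + 1 := by
  have h1 := sz_word_le (N := R * L * uS k (cols φ k))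
    (rep := repx φ k d L w (cols φ k) (fun i => κ ^ i) j)
    (len := lenx φ k L w (cols φ k) (fun i => κ ^ i)) (lenx_bd hk hκ)
  have hpos : 1 ≤ κ ^ nty k := Nat.one_le_pow _ _ (by omega)
  have h2 : ∑ x ∈ Finset.range (R * L * uS k (cols φ k)),
      2 * repx φ k d L w (cols φ k) (fun i => κ ^ i) j x ≤
      (∑ x ∈ Finset.range (R * L * uS k (cols φ k)), mulx φ k d L (cols φ k) j x) *
        (2 * κ ^ nty k) := by
    rw [Finset.sum_mul]
    refine Finset.sum_le_sum fun x _ => ?_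
    unfold repx
    have h3 : κ ^ (nty k - rankx φ k L w (cols φ k) x) ≤ κ ^ nty k :=
      Nat.pow_le_pow_right (by omega) (Nat.sub_le _ _)
    calc 2 * (mulx φ k d L (cols φ k) j x * κ ^ (nty k - rankx φ k L w (cols φ k) x))
        ≤ 2 * (mulx φ k d L (cols φ k) j x * κ ^ nty k) :=
          Nat.mul_le_mul_left _ (Nat.mul_le_mul_left _ h3)
      _ = mulx φ k d L (cols φ k) j x * (2 * κ ^ nty k) := by ring
  have h4 : 2 * κ ^ nty k + 6 ≤ 8 * κ ^ nty k := by omega
  refine h1.trans (Nat.add_le_add_right ((Nat.mul_le_mul h2 h4).trans (le_of_eq ?_)) 1)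
  rw [two_mul (nty k), pow_add]
  ring

/-- an operation of the instance -/
theorem op_instT {φ : CNF} {k d L R w κ j i m p : ℕ}
    (h : IsOp (instT φ k d L R w (fun i => κ ^ i)) j i m p) :
    m = i % 2 ∧ ∃ x, p = lenx φ k L w (cols φ k) (fun i => κ ^ i) x := by
  obtain ⟨job, h1, h2⟩ := h
  unfold instT at h1
  rw [List.getElem?_map, Option.map_eq_some_iff] at h1
  obtain ⟨a, -, rfl⟩ := h1
  obtain ⟨lab, hl, -, -⟩ := wordOps_spec (R * L * uS k (cols φ k))
    (repx φ k d L w (cols φ k) (fun i => κ ^ i) a) (lenx φ k L w (cols φ k) (fun i => κ ^ i))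
  have h4 : i < (wordOps (R * L * uS k (cols φ k))
      (repx φ k d L w (cols φ k) (fun i => κ ^ i) a)
      (lenx φ k L w (cols φ k) (fun i => κ ^ i))).length := by
    by_contra hc
    rw [List.getElem?_eq_none (by omega)] at h2
    cases h2
  have h5 := (hl i h4).1
  rw [h2] at h5
  have h6 := Option.some.inj h5
  exact ⟨congrArg Prod.fst h6, lab i, congrArg Prod.snd h6⟩

end TWSizeT

theorem sz_instT_le {φ : CNF} {k d L R w κ : ℕ} (hk : 0 < k) (hκ : 1 < κ) :
    sz (instT φ k d L R w (fun i => κ ^ i)) ≤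
      1000 * (k + 1) ^ 2 * κ ^ (2 * nty k) * (R * L + 1) := by
  have h0 : sz (instT φ k d L R w (fun i => κ ^ i)) =
      6 + sz ((List.range (2 * k + 1)).map fun j => wordOps (R * L * uS k (cols φ k))
        (repx φ k d L w (cols φ k) (fun i => κ ^ i) j)
        (lenx φ k L w (cols φ k) (fun i => κ ^ i))) := by
    unfold instT
    rw [sz_pair, sz_nat]
    omega
  rw [h0, sz_list, List.map_map, List.length_map, List.length_range]
  have h1 := TWBasicB.sum_list_range (sz ∘ fun j => wordOps (R * L * uS k (cols φ k))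
        (repx φ k d L w (cols φ k) (fun i => κ ^ i) j)
        (lenx φ k L w (cols φ k) (fun i => κ ^ i))) (2 * k + 1)
  rw [h1]
  have h2 : ∑ j ∈ Finset.range (2 * k + 1), (sz ∘ fun j => wordOps (R * L * uS k (cols φ k))
        (repx φ k d L w (cols φ k) (fun i => κ ^ i) j)
        (lenx φ k L w (cols φ k) (fun i => κ ^ i))) j ≤
      ∑ j ∈ Finset.range (2 * k + 1), ((∑ x ∈ Finset.range (R * L * uS k (cols φ k)),
        mulx φ k d L (cols φ k) j x) * (16 * κ ^ (2 * nty k)) + 1) :=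
    Finset.sum_le_sum fun j _ => TWSizeT.sz_job_le hk hκ j
  have h3 := sumMul_le (φ := φ) (d := d) (L := L) (R := R) hk
  rw [Finset.sum_add_distrib, ← Finset.sum_mul, ← sumMul_eq, Finset.sum_const, Finset.card_range,
    smul_eq_mul, mul_one] at h2
  have h4 := Nat.mul_le_mul_right (16 * κ ^ (2 * nty k)) h3
  have hpos : 1 ≤ κ ^ (2 * nty k) := Nat.one_le_pow _ _ (by omega)
  generalize κ ^ (2 * nty k) = A at h2 h4 hpos ⊢
  generalize R * L = n at h2 h4 ⊢
  have h5 : 12 * k * n * (16 * A) ≤ 1000 * (k + 1) ^ 2 * A * n := by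
    calc 12 * k * n * (16 * A) = (192 * k) * (A * n) := by ring
      _ ≤ (1000 * (k + 1) ^ 2) * (A * n) := Nat.mul_le_mul_right _ (by nlinarith)
      _ = 1000 * (k + 1) ^ 2 * A * n := by ring
  have h6 : 4 * k + 9 ≤ 1000 * (k + 1) ^ 2 * A := by
    calc 4 * k + 9 ≤ 1000 * (k + 1) ^ 2 * 1 := by nlinarith
      _ ≤ 1000 * (k + 1) ^ 2 * A := Nat.mul_le_mul_left _ hpos
  calc _ ≤ 6 + (12 * k * n * (16 * A) + (2 * k + 1) + (2 * k + 1) + 1) := by omega
    _ = 12 * k * n * (16 * A) + (4 * k + 9) := by ring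
    _ ≤ 1000 * (k + 1) ^ 2 * A * n + 1000 * (k + 1) ^ 2 * A := Nat.add_le_add h5 h6
    _ = 1000 * (k + 1) ^ 2 * A * (n + 1) := by ring

/-- the instance belongs to the class of the theorem -/
theorem two_instT {φ : CNF} {k d L R w κ m : ℕ} (hk : 0 < k) (hκ : 1 < κ) (hm : 2 * k + 1 ≤ m) :
    Two m (κ ^ nty k) (instT φ k d L R w (fun i => κ ^ i)) := by
  refine ⟨rfl, ?_, ?_, ?_⟩
  · show ((List.range (2 * k + 1)).map _).length ≤ m
    rw [List.length_map, List.length_range]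
    exact hm
  · intro j i mm p h
    obtain ⟨h1, x, h2⟩ := TWSizeT.op_instT h
    refine ⟨?_, ?_, ?_⟩
    · rw [h1]
      exact Nat.mod_lt _ (by norm_num)
    · rw [h2]
      unfold lenx
      exact Nat.one_le_pow _ _ (by omega)
    · rw [h2]
      exact TWSizeT.lenx_bd hk hκ x
  · intro j i mm p p' h h'
    have h1 := (TWSizeT.op_instT h).1
    have h2 := (TWSizeT.op_instT h').1
    omega

end Pool.Agent.H.JS
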