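import Pool.Agent.H.MP_aeb38e_lc.TW.PolyT
import Pool.Agent.H.MP_aeb38e_lc.TW.SizeT
import Pool.Agent.H.MP_aeb38e_lc.Core2

/-!
The functions computed by the algorithm, and the size of their values.
-/

namespace Pool.Agent.H.JS

open Turing Pool.Agent.H.MP_5be563_lc.PT

/-- The instance for the word `w`. -/
def theInstT (κ k E M0 B : ℕ) (φ : CNF) (w : ℕ) : Shop :=
  instT (rep2 M0 φ) k (lev2 k M0 B φ.1) (2 * lenB B (rep2 M0 φ).2.length k)
    (blocks (lev2 k M0 B φ.1) E) w (fun i => κ ^ i)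

/-- Its target makespan. -/
def theTargetT (κ k E M0 B : ℕ) (φ : CNF) : ℕ :=
  targetT (rep2 M0 φ) k (lev2 k M0 B φ.1) (2 * lenB B (rep2 M0 φ).2.length k)
    (blocks (lev2 k M0 B φ.1) E) (fun i => κ ^ i)

/-- The powers `κ ^ 0, ..., κ ^ nty k`. -/
def pows (κ k : ℕ) : List ℕ := (List.range (nty k + 1)).map fun i => κ ^ i

/-- The parameters `pw`, `k`, `E`, `M0`, `B`, `e`. -/
abbrev ParT := List ℕ × ℕ × ℕ × ℕ × ℕ × ℕ

/-- The instance, with the power `16 ^ (2 d)` replaced by its truncation. -/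
def AlgT_inst (p : ParT) (φ : CNF) (W w : ℕ) : Shop :=
  instT (rep2 p.2.2.2.1 φ) p.2.1 (lev2 p.2.1 p.2.2.2.1 p.2.2.2.2.1 φ.1)
    (2 * lenB p.2.2.2.2.1 (rep2 p.2.2.2.1 φ).2.length p.2.1)
    (capPow (lev2 p.2.1 p.2.2.2.1 p.2.2.2.2.1 φ.1) W * p.2.2.1) w (fun i => p.1.getD i 0)

/-- The target makespan, with the power `16 ^ (2 d)` replaced by its truncation. -/
def AlgT_target (p : ParT) (φ : CNF) (W : ℕ) : ℕ :=
  p.1.getD (nty p.2.1) 0 *
    (sumMul (rep2 p.2.2.2.1 φ) p.2.1 (lev2 p.2.1 p.2.2.2.1 p.2.2.2.2.1 φ.1)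
      (2 * lenB p.2.2.2.2.1 (rep2 p.2.2.2.1 φ).2.length p.2.1)
      (capPow (lev2 p.2.1 p.2.2.2.1 p.2.2.2.2.1 φ.1) W * p.2.2.1) +
    60 * p.2.1 * (capPow (lev2 p.2.1 p.2.2.2.1 p.2.2.2.2.1 φ.1) W *
      (2 * lenB p.2.2.2.2.1 (rep2 p.2.2.2.1 φ).2.length p.2.1)))

theorem AlgT_getD {κ k i : ℕ} (h : i ≤ nty k) : (pows κ k).getD i 0 = κ ^ i := by
  unfold pows
  have h1 : i < nty k + 1 := by omega
  simp [List.getD_eq_getElem?_getD, h1]

theorem AlgT_inst_eq {κ k E M0 B e : ℕ} {φ : CNF} {W w : ℕ} (hk : 0 < k)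
    (h : 16 ^ (2 * lev2 k M0 B φ.1) ≤ W) :
    AlgT_inst (pows κ k, k, E, M0, B, e) φ W w = theInstT κ k E M0 B φ w := by
  unfold AlgT_inst theInstT blocks
  rw [capPow_eq h]
  exact instT_congr hk (fun i hi => AlgT_getD hi)

theorem AlgT_target_eq {κ k E M0 B e : ℕ} {φ : CNF} {W : ℕ}
    (h : 16 ^ (2 * lev2 k M0 B φ.1) ≤ W) :
    AlgT_target (pows κ k, k, E, M0, B, e) φ W = theTargetT κ k E M0 B φ := by
  unfold AlgT_target theTargetT targetT blocks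
  rw [capPow_eq h]
  simp only
  rw [AlgT_getD le_rfl]

theorem AlgT_poly_inst :
    Poly (fun x : ParT × CNF × ℕ × ℕ => AlgT_inst x.1 x.2.1 x.2.2.1 x.2.2.2) := by
  unfold AlgT_inst
  have h1 : Poly (fun x : ParT × CNF × ℕ × ℕ => rep2 x.1.2.2.2.1 x.2.1) := by fun_prop
  have h2 : Poly (fun x : ParT × CNF × ℕ × ℕ =>
      lev2 x.1.2.1 x.1.2.2.2.1 x.1.2.2.2.2.1 x.2.1.1) := by fun_prop
  have h3 : Poly (fun x : ParT × CNF × ℕ × ℕ =>
      2 * lenB x.1.2.2.2.2.1 (rep2 x.1.2.2.2.1 x.2.1).2.length x.1.2.1) := by fun_prop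
  have h4 : Poly (fun x : ParT × CNF × ℕ × ℕ =>
      capPow (lev2 x.1.2.1 x.1.2.2.2.1 x.1.2.2.2.2.1 x.2.1.1) x.2.2.1 * x.1.2.2.1) := by
    fun_prop
  have h5 : Poly (fun x : ParT × CNF × ℕ × ℕ => x.1.2.1) := by fun_prop
  have h6 : Poly (fun x : ParT × CNF × ℕ × ℕ => x.2.2.2) := by fun_prop
  have h7 : Poly (fun x : ParT × CNF × ℕ × ℕ => x.1.1) := by fun_prop
  exact Poly.instT h1 h5 h2 h3 h4 h6 h7

theorem AlgT_poly_target :
    Poly (fun x : ParT × CNF × ℕ => AlgT_target x.1 x.2.1 x.2.2) := by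
  unfold AlgT_target
  have h1 : Poly (fun x : ParT × CNF × ℕ => rep2 x.1.2.2.2.1 x.2.1) := by fun_prop
  have h2 : Poly (fun x : ParT × CNF × ℕ =>
      lev2 x.1.2.1 x.1.2.2.2.1 x.1.2.2.2.2.1 x.2.1.1) := by fun_prop
  have h3 : Poly (fun x : ParT × CNF × ℕ =>
      2 * lenB x.1.2.2.2.2.1 (rep2 x.1.2.2.2.1 x.2.1).2.length x.1.2.1) := by fun_prop
  have h8 : Poly (fun x : ParT × CNF × ℕ =>
      capPow (lev2 x.1.2.1 x.1.2.2.2.1 x.1.2.2.2.2.1 x.2.1.1) x.2.2) := by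
    fun_prop
  have h4 : Poly (fun x : ParT × CNF × ℕ =>
      capPow (lev2 x.1.2.1 x.1.2.2.2.1 x.1.2.2.2.2.1 x.2.1.1) x.2.2 * x.1.2.2.1) := by
    fun_prop
  have h5 : Poly (fun x : ParT × CNF × ℕ => x.1.2.1) := by fun_prop
  have h7 : Poly (fun x : ParT × CNF × ℕ => x.1.1) := by fun_prop
  exact Poly.targetT h1 h5 h2 h3 h4 h8 h7

/-- The functions computed by the algorithm. -/
theorem algT {inp : Shop × ℕ × ℕ → List Bool} (hinp : Poly inp)
    {acc : List Bool × Shop × ℕ × ℕ → Bool} (hacc : Poly acc) :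
    ∃ (f : ParT × CNF × ℕ × ℕ → List Bool)
      (g : ParT × CNF × ℕ × ℕ × List Bool → Bool),
      Poly f ∧ Poly g ∧ ∀ (κ k E M0 B e : ℕ) (φ : CNF) (W w : ℕ), 0 < k →
        16 ^ (2 * lev2 k M0 B φ.1) ≤ W →
        f ((pows κ k, k, E, M0, B, e), φ, W, w) =
          inp (theInstT κ k E M0 B φ w, e, theTargetT κ k E M0 B φ) ∧
        ∀ y, g ((pows κ k, k, E, M0, B, e), φ, W, w, y) =
          (φ.2.isEmpty || acc (y, theInstT κ k E M0 B φ w, e, theTargetT κ k E M0 B φ)) := by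
  have hf1 : Poly (fun x : ParT × CNF × ℕ × ℕ =>
      (AlgT_inst x.1 x.2.1 x.2.2.1 x.2.2.2, x.1.2.2.2.2.2, AlgT_target x.1 x.2.1 x.2.2.1)) := by
    refine Poly.pair AlgT_poly_inst (Poly.pair (by fun_prop) ?_)
    exact Poly.comp (g := fun x : ParT × CNF × ℕ × ℕ => (x.1, x.2.1, x.2.2.1))
      AlgT_poly_target (by fun_prop)
  have hg1 : Poly (fun x : ParT × CNF × ℕ × ℕ × List Bool =>
      (x.2.2.2.2, AlgT_inst x.1 x.2.1 x.2.2.1 x.2.2.2.1, x.1.2.2.2.2.2,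
        AlgT_target x.1 x.2.1 x.2.2.1)) := by
    refine Poly.pair (by fun_prop) ?_
    exact Poly.comp (g := fun x : ParT × CNF × ℕ × ℕ × List Bool =>
      (x.1, x.2.1, x.2.2.1, x.2.2.2.1)) hf1 (by fun_prop)
  refine ⟨fun x => inp (AlgT_inst x.1 x.2.1 x.2.2.1 x.2.2.2, x.1.2.2.2.2.2,
      AlgT_target x.1 x.2.1 x.2.2.1),
    fun x => x.2.1.2.isEmpty || acc (x.2.2.2.2, AlgT_inst x.1 x.2.1 x.2.2.1 x.2.2.2.1,
      x.1.2.2.2.2.2, AlgT_target x.1 x.2.1 x.2.2.1), Poly.comp hinp hf1, ?_, ?_⟩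
  · exact Poly.or (by fun_prop) (Poly.comp hacc hg1)
  · intro κ k E M0 B e φ W w hk h
    refine ⟨?_, fun y => ?_⟩
    · show inp (AlgT_inst (pows κ k, k, E, M0, B, e) φ W w, e,
        AlgT_target (pows κ k, k, E, M0, B, e) φ W) = _
      rw [AlgT_inst_eq hk h, AlgT_target_eq h]
    · show (φ.2.isEmpty || acc (y, AlgT_inst (pows κ k, k, E, M0, B, e) φ W w, e,
        AlgT_target (pows κ k, k, E, M0, B, e) φ W)) = _
      rw [AlgT_inst_eq hk h, AlgT_target_eq h]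

theorem sz_theInstT_le {κ k E M0 B e : ℕ} {φ : CNF} {w C : ℕ} (hk : 0 < k) (hκ : 1 < κ)
    (hL : lenB B (rep2 M0 φ).2.length k ≤ C * (φ.1 + 1)) :
    sz (theInstT κ k E M0 B φ w) + sz e + sz (theTargetT κ k E M0 B φ) + 2 ≤
      (3000 * (k + 1) ^ 2 * κ ^ (2 * nty k) * ((E + 1) * C + 1) + 2 * e + 10) *
        (16 ^ (2 * lev2 k M0 B φ.1) * (φ.1 + 1)) := by
  set X := 16 ^ (2 * lev2 k M0 B φ.1) * (φ.1 + 1) with hX
  have hX1 : 1 ≤ X := by
    have : 0 < X := by positivity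
    exact this
  set L := lenB B (rep2 M0 φ).2.length k with hLd
  set P := κ ^ nty k with hP
  have hP1 : 1 ≤ P := Nat.one_le_pow _ _ (by omega)
  have hP2 : κ ^ (2 * nty k) = P * P := by rw [hP, ← pow_add, two_mul]
  have h16 : 16 ^ (2 * lev2 k M0 B φ.1) * L ≤ C * X := by
    calc 16 ^ (2 * lev2 k M0 B φ.1) * L ≤ 16 ^ (2 * lev2 k M0 B φ.1) * (C * (φ.1 + 1)) :=
          Nat.mul_le_mul_left _ hL
      _ = C * X := by rw [hX]; ring
  have hRL : blocks (lev2 k M0 B φ.1) E * (2 * L) ≤ 2 * (E * (C * X)) := by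
    unfold blocks
    calc 16 ^ (2 * lev2 k M0 B φ.1) * E * (2 * L) =
        2 * (E * (16 ^ (2 * lev2 k M0 B φ.1) * L)) := by ring
      _ ≤ 2 * (E * (C * X)) := Nat.mul_le_mul_left _ (Nat.mul_le_mul_left _ h16)
  have h1 : sz (theInstT κ k E M0 B φ w) ≤
      1000 * (k + 1) ^ 2 * (P * P) * (2 * (E * (C * X)) + 1) := by
    have h0 : sz (theInstT κ k E M0 B φ w) ≤ 1000 * (k + 1) ^ 2 * κ ^ (2 * nty k) *
      (blocks (lev2 k M0 B φ.1) E * (2 * L) + 1) := sz_instT_le hk hκ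
    rw [hP2] at h0
    exact h0.trans (Nat.mul_le_mul_left _ (Nat.add_le_add_right hRL 1))
  have h2 : theTargetT κ k E M0 B φ ≤ P * (12 * k * (2 * (E * (C * X))) + 60 * k * (2 * (C * X))) := by
    have h0 : theTargetT κ k E M0 B φ = P * (sumMul (rep2 M0 φ) k (lev2 k M0 B φ.1) (2 * L)
      (blocks (lev2 k M0 B φ.1) E) + 60 * k * (16 ^ (2 * lev2 k M0 B φ.1) * (2 * L))) := rfl
    rw [h0]
    refine Nat.mul_le_mul_left _ (Nat.add_le_add ?_ (Nat.mul_le_mul_left _ ?_))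
    · exact (sumMul_le hk).trans (Nat.mul_le_mul_left _ hRL)
    · calc 16 ^ (2 * lev2 k M0 B φ.1) * (2 * L) = 2 * (16 ^ (2 * lev2 k M0 B φ.1) * L) := by ring
        _ ≤ _ := Nat.mul_le_mul_left _ h16
  have h3 : P * k ≤ (k + 1) ^ 2 * (P * P) := by
    have a1 : P ≤ P * P := Nat.le_mul_of_pos_left _ hP1
    have a2 : k ≤ (k + 1) ^ 2 := by nlinarith
    calc P * k = k * P := mul_comm _ _
      _ ≤ _ := Nat.mul_le_mul a2 a1
  set A := (k + 1) ^ 2 * (P * P) with hA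
  have h4 : 2 * theTargetT κ k E M0 B φ ≤ A * (240 * ((E + 1) * (C * X))) := by
    calc 2 * theTargetT κ k E M0 B φ ≤
        2 * (P * (12 * k * (2 * (E * (C * X))) + 60 * k * (2 * (C * X)))) :=
          Nat.mul_le_mul_left _ h2
      _ = (P * k) * (48 * (E * (C * X)) + 240 * (C * X)) := by ring
      _ ≤ A * (48 * (E * (C * X)) + 240 * (C * X)) := Nat.mul_le_mul_right _ h3
      _ ≤ A * (240 * ((E + 1) * (C * X))) := by
          apply Nat.mul_le_mul_left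
          have : (E + 1) * (C * X) = E * (C * X) + C * X := by ring
          rw [this]
          omega
  have h5 : sz (theInstT κ k E M0 B φ w) ≤ A * (2000 * (E * (C * X)) + 1000 * X) := by
    refine h1.trans ?_
    calc 1000 * (k + 1) ^ 2 * (P * P) * (2 * (E * (C * X)) + 1) =
        A * (2000 * (E * (C * X)) + 1000) := by rw [hA]; ring
      _ ≤ _ := by
          apply Nat.mul_le_mul_left
          omega
  have h6 : sz (theInstT κ k E M0 B φ w) + 2 * theTargetT κ k E M0 B φ ≤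
      A * (3000 * ((E + 1) * C + 1) * X) := by
    refine (Nat.add_le_add h5 h4).trans ?_
    rw [← Nat.mul_add]
    apply Nat.mul_le_mul_left
    have e1 : 3000 * ((E + 1) * C + 1) * X = 3000 * (E * (C * X)) + 3000 * (C * X) + 3000 * X := by
      ring
    have e2 : (E + 1) * (C * X) = E * (C * X) + C * X := by ring
    rw [e1, e2]
    omega
  rw [sz_nat, sz_nat]
  have h8 : (3000 * (k + 1) ^ 2 * κ ^ (2 * nty k) * ((E + 1) * C + 1) + 2 * e + 10) * X =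
      A * (3000 * ((E + 1) * C + 1) * X) + 2 * e * X + 10 * X := by
    rw [hP2, hA]
    ring
  rw [h8]
  have h10 : 2 * e ≤ 2 * e * X := Nat.le_mul_of_pos_right _ hX1
  omega

end Pool.Agent.H.JS
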