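import Pool.Agent.H.MP_aeb38e_lc.TW.BasicA
import Pool.Agent.H.MP_aeb38e_lc.StaticC

/-!
Sums of multiplicities.
-/

namespace Pool.Agent.H.JS

open Finset

namespace TWBasicB

theorem sum_list_range (f : ℕ → ℕ) (n : ℕ) :
    ((List.range n).map f).sum = ∑ i ∈ range n, f i := by
  induction n with
  | zero => simp
  | succ n ih => rw [List.range_succ, List.map_append, List.sum_append, ih, Finset.sum_range_succ]; simp

theorem length_flatMap_range {α : Type} (f : ℕ → List α) (n : ℕ) :
    ((List.range n).flatMap f).length = ∑ i ∈ range n, (f i).length := by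
  rw [List.length_flatMap]
  exact sum_list_range (fun i => (f i).length) n

theorem sum_units (f : ℕ → ℕ → ℕ) {S : ℕ} (hS : 0 < S) (N : ℕ) :
    ∑ x ∈ range (N * S), f (x / S) (x % S) = ∑ P ∈ range N, ∑ s ∈ range S, f P s := by
  induction N with
  | zero => simp
  | succ N ih =>
    rw [Nat.succ_mul, Finset.sum_range_add, ih, Finset.sum_range_succ]
    congr 1
    refine Finset.sum_congr rfl fun s hs => ?_
    have hs' : s < S := Finset.mem_range.1 hs
    have e1 : (N * S + s) / S = N := by
      rw [mul_comm, Nat.mul_add_div hS, Nat.div_eq_of_lt hs', add_zero]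
    have e2 : (N * S + s) % S = s := by
      rw [Nat.mul_add_mod', Nat.mod_eq_of_lt hs']
    rw [e1, e2]

theorem tests_nodup (φ : CNF) (k : ℕ) : (tests φ k).Nodup := by
  unfold tests
  refine List.Nodup.filter _ ?_
  exact (List.nodup_range (n := 3)).product (List.nodup_range (n := 3 * φ.2.length))

theorem cols_nodup (φ : CNF) (k : ℕ) : (cols φ k).Nodup := by
  have h : ((cols φ k).map Prod.fst).Nodup := by
    unfold cols
    rw [colour_fst]
    exact tests_nodup φ k
  exact List.Nodup.of_map _ h

/-- two letters of the same colour with a common job are equal -/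
theorem letter_unique {φ : CNF} {k s s' j c : ℕ} (h1 : s < (cols φ k).length)
    (h1' : s' < (cols φ k).length)
    (hc : ((cols φ k).getD s ((0, 0), 0)).2 = c) (hc' : ((cols φ k).getD s' ((0, 0), 0)).2 = c)
    (hj : jobA φ k ((cols φ k).getD s ((0, 0), 0)).1 = j ∨
      jobB φ k ((cols φ k).getD s ((0, 0), 0)).1 = j)
    (hj' : jobA φ k ((cols φ k).getD s' ((0, 0), 0)).1 = j ∨
      jobB φ k ((cols φ k).getD s' ((0, 0), 0)).1 = j) : s = s' := by
  rw [List.getD_eq_getElem _ _ h1] at hc hj
  rw [List.getD_eq_getElem _ _ h1'] at hc' hj'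
  have h := colour_proper (meet φ k) meet_symm (tests φ k) _ _
    (List.getElem_mem h1) (List.getElem_mem h1') (meet_of_job hj hj') (hc.trans hc'.symm)
  exact (cols_nodup φ k).getElem_inj_iff.1 h

theorem sum_split {φ : CNF} {k d L P j : ℕ} :
    ∑ s ∈ range (uS k (cols φ k)), mul φ k d L (cols φ k) j P s =
      ∑ s ∈ range (2 * k), mul φ k d L (cols φ k) j P s +
      ∑ r ∈ range (cols φ k).length, mul φ k d L (cols φ k) j P (2 * k + r) := by
  unfold uS
  rw [Finset.sum_range_add]

end TWBasicB

/-- the sum of the multiplicities, as a sum -/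
theorem sumMul_eq {φ : CNF} {k d L R : ℕ} : sumMul φ k d L R =
    ∑ j ∈ range (2 * k + 1), ∑ x ∈ range (R * L * uS k (cols φ k)), mulx φ k d L (cols φ k) j x := by
  unfold sumMul
  rw [TWBasicB.length_flatMap_range]
  refine Finset.sum_congr rfl fun j _ => ?_
  rw [TWBasicB.length_flatMap_range]
  refine Finset.sum_congr rfl fun x _ => ?_
  rw [List.length_range]

/-- the clock has multiplicity at most `6 k` in each unit -/
theorem sum_mul_clock {φ : CNF} {k d L P : ℕ} (hk : 0 < k) :
    ∑ s ∈ range (uS k (cols φ k)), mul φ k d L (cols φ k) (2 * k) P s ≤ 6 * k := by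
  classical
  rw [TWBasicB.sum_split]
  have h1 : ∑ s ∈ range (2 * k), mul φ k d L (cols φ k) (2 * k) P s ≤ 2 * k := by
    calc ∑ s ∈ range (2 * k), mul φ k d L (cols φ k) (2 * k) P s
        ≤ ∑ s ∈ range (2 * k), 1 := by
          refine Finset.sum_le_sum fun s hs => ?_
          unfold mul
          rw [if_pos (Finset.mem_range.1 hs)]
          split_ifs <;> omega
      _ = 2 * k := by simp
  let G : Finset ℕ := (range (cols φ k).length).filter
    fun r => ((cols φ k).getD r ((0, 0), 0)).2 = P % L / 3 / 65536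
  have h2 : ∑ r ∈ range (cols φ k).length, mul φ k d L (cols φ k) (2 * k) P (2 * k + r) ≤
      ∑ r ∈ range (cols φ k).length,
        (if ((cols φ k).getD r ((0, 0), 0)).2 = P % L / 3 / 65536 then 2 else 0) := by
    refine Finset.sum_le_sum fun r _ => ?_
    unfold mul
    rw [if_neg (by omega)]
    have e : tst k (cols φ k) (2 * k + r) = (cols φ k).getD r ((0, 0), 0) := by
      unfold tst
      rw [Nat.add_sub_cancel_left]
    rw [e]
    by_cases hc : ((cols φ k).getD r ((0, 0), 0)).2 = P % L / 3 / 65536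
    · rw [if_pos hc]
      split_ifs <;> omega
    · rw [if_neg hc, if_neg]
      rw [Bool.and_eq_true, decide_eq_true_eq, decide_eq_true_eq]
      exact fun h => hc h.2
  have h3 : ∑ r ∈ range (cols φ k).length,
        (if ((cols φ k).getD r ((0, 0), 0)).2 = P % L / 3 / 65536 then 2 else 0) = 2 * G.card := by
    rw [← Finset.sum_filter, Finset.sum_const, smul_eq_mul, mul_comm]
  have h4 : G.card ≤ (range (2 * k)).card := by
    refine Finset.card_le_card_of_injOn
      (fun r => jobA φ k ((cols φ k).getD r ((0, 0), 0)).1) ?_ ?_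
    · intro r hr
      exact Finset.mem_coe.2 (Finset.mem_range.2 (job_lt hk _).1)
    · intro r hr r' hr' he
      have hr2 := Finset.mem_filter.1 (Finset.mem_coe.1 hr)
      have hr2' := Finset.mem_filter.1 (Finset.mem_coe.1 hr')
      exact TWBasicB.letter_unique (Finset.mem_range.1 hr2.1) (Finset.mem_range.1 hr2'.1)
        hr2.2 hr2'.2 (Or.inl rfl) (Or.inl he.symm)
  rw [Finset.card_range] at h4
  omega

/-- another job has multiplicity at most `3` in each unit -/
theorem sum_mul_job {φ : CNF} {k d L P j : ℕ} (hk : 0 < k) (hj : j < 2 * k) :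
    ∑ s ∈ range (uS k (cols φ k)), mul φ k d L (cols φ k) j P s ≤ 3 := by
  classical
  rw [TWBasicB.sum_split]
  have h1 : ∑ s ∈ range (2 * k), mul φ k d L (cols φ k) j P s ≤ 1 := by
    calc ∑ s ∈ range (2 * k), mul φ k d L (cols φ k) j P s
        = ∑ s ∈ range (2 * k), (if s = j then 1 else 0) := by
          refine Finset.sum_congr rfl fun s hs => ?_
          unfold mul
          rw [if_pos (Finset.mem_range.1 hs)]
          by_cases h : s = j
          · subst h
            simp
          · rw [if_neg h, if_neg]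
            simp only [Bool.or_eq_true, decide_eq_true_eq, not_or]
            exact ⟨fun h' => h h'.symm, by omega⟩
      _ ≤ 1 := by
          rw [Finset.sum_ite_eq' (range (2 * k)) j (fun _ => 1)]
          split_ifs <;> omega
  let G : Finset ℕ := (range (cols φ k).length).filter
    fun r => ((cols φ k).getD r ((0, 0), 0)).2 = P % L / 3 / 65536 ∧
      (jobA φ k ((cols φ k).getD r ((0, 0), 0)).1 = j ∨
        jobB φ k ((cols φ k).getD r ((0, 0), 0)).1 = j)
  have h2 : ∑ r ∈ range (cols φ k).length, mul φ k d L (cols φ k) j P (2 * k + r) ≤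
      ∑ r ∈ range (cols φ k).length,
        (if ((cols φ k).getD r ((0, 0), 0)).2 = P % L / 3 / 65536 ∧
          (jobA φ k ((cols φ k).getD r ((0, 0), 0)).1 = j ∨
            jobB φ k ((cols φ k).getD r ((0, 0), 0)).1 = j) then 2 else 0) := by
    refine Finset.sum_le_sum fun r _ => ?_
    have e : tst k (cols φ k) (2 * k + r) = (cols φ k).getD r ((0, 0), 0) := by
      unfold tst
      rw [Nat.add_sub_cancel_left]
    by_cases hc : ((cols φ k).getD r ((0, 0), 0)).2 = P % L / 3 / 65536 ∧
        (jobA φ k ((cols φ k).getD r ((0, 0), 0)).1 = j ∨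
          jobB φ k ((cols φ k).getD r ((0, 0), 0)).1 = j)
    · rw [if_pos hc]
      exact mul_le
    · rw [if_neg hc]
      by_contra hcon
      have hpos : 0 < mul φ k d L (cols φ k) j P (2 * k + r) := by omega
      obtain ⟨_, g2, g3⟩ := mul_test_pos (by omega) hpos
      rw [e] at g2 g3
      refine hc ⟨g2, ?_⟩
      rcases g3 with g3 | ⟨g3 | g3, _⟩
      · omega
      · exact Or.inl g3.symm
      · exact Or.inr g3.symm
  have h3 : ∑ r ∈ range (cols φ k).length,
        (if ((cols φ k).getD r ((0, 0), 0)).2 = P % L / 3 / 65536 ∧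
          (jobA φ k ((cols φ k).getD r ((0, 0), 0)).1 = j ∨
            jobB φ k ((cols φ k).getD r ((0, 0), 0)).1 = j) then 2 else 0) = 2 * G.card := by
    rw [← Finset.sum_filter, Finset.sum_const, smul_eq_mul, mul_comm]
  have h4 : G.card ≤ 1 := by
    rw [Finset.card_le_one]
    intro r hr r' hr'
    have hr2 := Finset.mem_filter.1 hr
    have hr2' := Finset.mem_filter.1 hr'
    exact TWBasicB.letter_unique (Finset.mem_range.1 hr2.1) (Finset.mem_range.1 hr2'.1)
      hr2.2.1 hr2'.2.1 hr2.2.2 hr2'.2.2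
  omega

theorem sumMul_le {φ : CNF} {k d L R : ℕ} (hk : 0 < k) :
    sumMul φ k d L R ≤ 12 * k * (R * L) := by
  have hS : 0 < uS k (cols φ k) := by unfold uS; omega
  rw [sumMul_eq]
  have h1 : ∀ j, ∑ x ∈ range (R * L * uS k (cols φ k)), mulx φ k d L (cols φ k) j x =
      ∑ P ∈ range (R * L), ∑ s ∈ range (uS k (cols φ k)), mul φ k d L (cols φ k) j P s :=
    fun j => TWBasicB.sum_units (fun P s => mul φ k d L (cols φ k) j P s) hS (R * L)
  simp only [h1]
  rw [Finset.sum_range_succ]
  have h2 : ∑ j ∈ range (2 * k), ∑ P ∈ range (R * L), ∑ s ∈ range (uS k (cols φ k)),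
      mul φ k d L (cols φ k) j P s ≤ ∑ j ∈ range (2 * k), ∑ P ∈ range (R * L), 3 :=
    Finset.sum_le_sum fun j hj => Finset.sum_le_sum fun P _ =>
      sum_mul_job hk (Finset.mem_range.1 hj)
  have h3 : ∑ P ∈ range (R * L), ∑ s ∈ range (uS k (cols φ k)),
      mul φ k d L (cols φ k) (2 * k) P s ≤ ∑ P ∈ range (R * L), 6 * k :=
    Finset.sum_le_sum fun P _ => sum_mul_clock hk
  simp only [Finset.sum_const, Finset.card_range, smul_eq_mul] at h2 h3
  calc _ ≤ 2 * k * (R * L * 3) + R * L * (6 * k) := Nat.add_le_add h2 h3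
    _ = 12 * k * (R * L) := by ring

end Pool.Agent.H.JS
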