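import Pool.Agent.H.MP_aeb38e_lc.TW.BasicA
import Pool.Agent.H.MP_aeb38e_lc.TW.BasicB
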