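import Pool.Agent.H.MP_aeb38e_lc.TW.Inst
import Pool.Agent.H.MP_aeb38e_lc.StaticC

/-!
Elementary facts on ranks and multiplicities.
-/

namespace Pool.Agent.H.JS

open Finset

/-- the test of a letter `s ≥ 2 k` -/
theorem tst_mem {φ : CNF} {k s : ℕ} (h1 : 2 * k ≤ s) (h2 : s < uS k (cols φ k)) :
    tst k (cols φ k) s ∈ cols φ k := by
  unfold tst
  unfold uS at h2
  have h3 : s - 2 * k < (cols φ k).length := by omega
  rw [List.getD_eq_getElem _ _ h3]
  exact List.getElem_mem h3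

theorem rank_lt {φ : CNF} {k L w P s : ℕ} {cl : List ((ℕ × ℕ) × ℕ)} (hk : 0 < k) :
    rank φ k L w cl P s < nty k := by
  have h1 := digit_lt (q := 11) (by norm_num) w (P % L)
  have h2 := job_lt (φ := φ) hk (tst k cl s).1
  have h3 : P % 2 < 2 := Nat.mod_lt _ (by norm_num)
  have h4 : 2 * k * jobA φ k (tst k cl s).1 + jobB φ k (tst k cl s).1 < 2 * k * (2 * k) := by
    calc 2 * k * jobA φ k (tst k cl s).1 + jobB φ k (tst k cl s).1
        < 2 * k * jobA φ k (tst k cl s).1 + 2 * k := by omega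
      _ = 2 * k * (jobA φ k (tst k cl s).1 + 1) := by ring
      _ ≤ 2 * k * (2 * k) := Nat.mul_le_mul_left _ h2.1
  unfold rank nty
  split_ifs with h
  · have h5 : 0 ≤ 2 * k * (2 * k) := Nat.zero_le _
    omega
  · omega

theorem rankx_lt {φ : CNF} {k L w x : ℕ} {cl : List ((ℕ × ℕ) × ℕ)} (hk : 0 < k) :
    rankx φ k L w cl x < nty k := rank_lt hk

theorem mul_le {φ : CNF} {k d L j P s : ℕ} {cl : List ((ℕ × ℕ) × ℕ)} :
    mul φ k d L cl j P s ≤ 2 := by
  unfold mul
  split_ifs <;> norm_num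

/-- the product of the number of pairs and the length -/
theorem repx_mul_lenx {φ : CNF} {k d L w j x κ : ℕ} {cl : List ((ℕ × ℕ) × ℕ)} (hk : 0 < k) :
    repx φ k d L w cl (fun i => κ ^ i) j x * lenx φ k L w cl (fun i => κ ^ i) x =
      mulx φ k d L cl j x * κ ^ nty k := by
  have h := rankx_lt (φ := φ) (L := L) (w := w) (x := x) (cl := cl) hk
  unfold repx lenx
  simp only
  rw [mul_assoc, ← pow_add]
  congr 2
  omega

/-- different lengths are far apart -/
theorem lenx_sep {φ : CNF} {k L w x y κ : ℕ} {cl : List ((ℕ × ℕ) × ℕ)} (hκ : 1 < κ)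
    (h : lenx φ k L w cl (fun i => κ ^ i) x < lenx φ k L w cl (fun i => κ ^ i) y) :
    κ * lenx φ k L w cl (fun i => κ ^ i) x ≤ lenx φ k L w cl (fun i => κ ^ i) y := by
  unfold lenx at h ⊢
  simp only at h ⊢
  have h1 := (Nat.pow_lt_pow_iff_right hκ).1 h
  calc κ * κ ^ rankx φ k L w cl x = κ ^ (rankx φ k L w cl x + 1) := by rw [pow_succ, mul_comm]
    _ ≤ κ ^ rankx φ k L w cl y := Nat.pow_le_pow_right (by omega) h1

theorem lenx_eq_iff {φ : CNF} {k L w x y κ : ℕ} {cl : List ((ℕ × ℕ) × ℕ)} (hκ : 1 < κ) :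
    lenx φ k L w cl (fun i => κ ^ i) x = lenx φ k L w cl (fun i => κ ^ i) y ↔
      rankx φ k L w cl x = rankx φ k L w cl y := by
  unfold lenx
  exact ⟨fun h => Nat.pow_right_injective hκ h, fun h => by rw [h]⟩

/-- the rank of an aligning letter -/
theorem rank_align {φ : CNF} {k L w P P' s s' : ℕ} {cl : List ((ℕ × ℕ) × ℕ)} (hk : 0 < k)
    (hs : s < 2 * k) :
    rank φ k L w cl P s = rank φ k L w cl P' s' ↔ s' = s ∧
      2 * digit 11 w (P % L) + P % 2 = 2 * digit 11 w (P' % L) + P' % 2 := by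
  have h1 := digit_lt (q := 11) (by norm_num) w (P % L)
  have h1' := digit_lt (q := 11) (by norm_num) w (P' % L)
  have h3 : P % 2 < 2 := Nat.mod_lt _ (by norm_num)
  have h3' : P' % 2 < 2 := Nat.mod_lt _ (by norm_num)
  unfold rank
  rw [if_pos hs]
  split_ifs with h
  · omega
  · constructor
    · intro h4
      omega
    · rintro ⟨h4, -⟩
      omega

/-- the rank of a testing letter -/
theorem rank_test {φ : CNF} {k L w P P' s s' : ℕ} {cl : List ((ℕ × ℕ) × ℕ)} (hk : 0 < k)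
    (hs : 2 * k ≤ s) :
    rank φ k L w cl P s = rank φ k L w cl P' s' ↔ 2 * k ≤ s' ∧
      jobA φ k (tst k cl s).1 = jobA φ k (tst k cl s').1 ∧
      jobB φ k (tst k cl s).1 = jobB φ k (tst k cl s').1 := by
  have h1' := digit_lt (q := 11) (by norm_num) w (P' % L)
  have h3' : P' % 2 < 2 := Nat.mod_lt _ (by norm_num)
  have h2 := job_lt (φ := φ) hk (tst k cl s).1
  have h2' := job_lt (φ := φ) hk (tst k cl s').1
  unfold rank
  rw [if_neg (by omega : ¬ s < 2 * k)]
  split_ifs with h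
  · constructor
    · intro h4
      exfalso
      have h5 : 0 ≤ 2 * k * jobA φ k (tst k cl s).1 := Nat.zero_le _
      omega
    · rintro ⟨h4, -⟩
      omega
  · constructor
    · intro h4
      have h5 : 2 * k * jobA φ k (tst k cl s).1 + jobB φ k (tst k cl s).1 =
        2 * k * jobA φ k (tst k cl s').1 + jobB φ k (tst k cl s').1 := by omega
      have hpos : 0 < 2 * k := by omega
      have e1 : (2 * k * jobA φ k (tst k cl s).1 + jobB φ k (tst k cl s).1) / (2 * k) =
          jobA φ k (tst k cl s).1 := by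
        rw [Nat.mul_add_div hpos, Nat.div_eq_of_lt h2.2, add_zero]
      have e2 : (2 * k * jobA φ k (tst k cl s').1 + jobB φ k (tst k cl s').1) / (2 * k) =
          jobA φ k (tst k cl s').1 := by
        rw [Nat.mul_add_div hpos, Nat.div_eq_of_lt h2'.2, add_zero]
      have e3 : jobA φ k (tst k cl s).1 = jobA φ k (tst k cl s').1 := by
        rw [← e1, ← e2, h5]
      refine ⟨by omega, e3, ?_⟩
      rw [e3] at h5
      omega
    · rintro ⟨-, h4, h5⟩
      rw [h4, h5]

/-- jobs with a positive multiplicity of an aligning letter -/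
theorem mul_align {φ : CNF} {k d L j P s : ℕ} {cl : List ((ℕ × ℕ) × ℕ)} (hs : s < 2 * k) :
    mul φ k d L cl j P s = if j = s ∨ j = 2 * k then 1 else 0 := by
  unfold mul
  rw [if_pos hs]
  simp only [Bool.or_eq_true, decide_eq_true_eq]

/-- jobs with a positive multiplicity of a testing letter -/
theorem mul_test_pos {φ : CNF} {k d L j P s : ℕ} {cl : List ((ℕ × ℕ) × ℕ)} (hs : 2 * k ≤ s)
    (h : 0 < mul φ k d L cl j P s) : P % 3 = 2 ∧ (tst k cl s).2 = P % L / 3 / 65536 ∧
      (j = 2 * k ∨ ((j = jobA φ k (tst k cl s).1 ∨ j = jobB φ k (tst k cl s).1) ∧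
        testMach φ k d (P % L / 3) j (P / L) (tst k cl s).1 = j)) := by
  unfold mul at h
  rw [if_neg (by omega : ¬ s < 2 * k)] at h
  split_ifs at h with h1 h2 h3
  · rw [Bool.and_eq_true, decide_eq_true_eq, decide_eq_true_eq] at h1
    exact ⟨h1.1, h1.2, Or.inl h2⟩
  · rw [Bool.and_eq_true, decide_eq_true_eq, decide_eq_true_eq] at h1
    rw [Bool.and_eq_true, Bool.or_eq_true, decide_eq_true_eq, decide_eq_true_eq,
      decide_eq_true_eq] at h3
    exact ⟨h1.1, h1.2, Or.inr h3⟩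
  · omega
  · omega

theorem mul_test_clock {φ : CNF} {k d L P s : ℕ} {cl : List ((ℕ × ℕ) × ℕ)} (hs : 2 * k ≤ s)
    (h1 : P % 3 = 2) (h2 : (tst k cl s).2 = P % L / 3 / 65536) :
    mul φ k d L cl (2 * k) P s = 2 := by
  unfold mul
  rw [if_neg (by omega : ¬ s < 2 * k), if_pos (by
    rw [Bool.and_eq_true, decide_eq_true_eq, decide_eq_true_eq]
    exact ⟨h1, h2⟩), if_pos rfl]

end Pool.Agent.H.JS
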