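import Pool.Agent.H.MP_aeb38e_lc.Dyn2

/-!
A monotone matching of rows and columns that respects the word is diagonal modulo `L`, up to few
exceptions, and constant on most blocks.
-/

namespace Pool.Agent.H.JS

open Finset Classical

/-- the first column not below the partners of the rows less than `u` -/
noncomputable def Pair_y (G : Finset (ℕ × ℕ)) (u : ℕ) : ℕ :=
  (G.filter fun x => x.1 < u).sup fun x => x.2 + 1

/-- the number of matched rows less than `u` -/
noncomputable def Pair_k (G : Finset (ℕ × ℕ)) (u : ℕ) : ℕ := (G.filter fun x => x.1 < u).card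

/-- the number of unmatched rows less than `u` -/
noncomputable def Pair_r (G : Finset (ℕ × ℕ)) (u : ℕ) : ℕ :=
  ((range u).filter fun P => P ∉ G.image Prod.fst).card

/-- the number of unmatched columns less than `c` -/
noncomputable def Pair_c (G : Finset (ℕ × ℕ)) (c : ℕ) : ℕ :=
  ((range c).filter fun C => C ∉ G.image Prod.snd).card

/-- the row of a column -/
noncomputable def Pair_s (G : Finset (ℕ × ℕ)) (T C : ℕ) : ℕ :=
  if h : ∃ P, (P, C) ∈ G then h.choose else T + 1 + C

section Pair

variable {G : Finset (ℕ × ℕ)}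

theorem Pair_fst (hmono' : ∀ x ∈ G, ∀ y ∈ G, x.2 < y.2 → x.1 < y.1) {x y : ℕ × ℕ}
    (hx : x ∈ G) (hy : y ∈ G) (h : x.1 = y.1) : x = y := by
  rcases Nat.lt_trichotomy x.2 y.2 with h1 | h1 | h1
  · have := hmono' x hx y hy h1; omega
  · exact Prod.ext h h1
  · have := hmono' y hy x hx h1; omega

theorem Pair_snd (hmono : ∀ x ∈ G, ∀ y ∈ G, x.1 < y.1 → x.2 < y.2) {x y : ℕ × ℕ}
    (hx : x ∈ G) (hy : y ∈ G) (h : x.2 = y.2) : x = y := by
  rcases Nat.lt_trichotomy x.1 y.1 with h1 | h1 | h1
  · have := hmono x hx y hy h1; omega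
  · exact Prod.ext h1 h
  · have := hmono y hy x hx h1; omega

theorem Pair_y_mono {u u' : ℕ} (h : u ≤ u') : Pair_y G u ≤ Pair_y G u' := by
  unfold Pair_y
  apply Finset.sup_mono
  intro x hx
  rw [Finset.mem_filter] at hx ⊢
  exact ⟨hx.1, by omega⟩

theorem Pair_c_mono {u u' : ℕ} (h : u ≤ u') : Pair_c G u ≤ Pair_c G u' := by
  unfold Pair_c
  apply Finset.card_le_card
  intro x hx
  rw [Finset.mem_filter, Finset.mem_range] at hx ⊢
  exact ⟨by omega, hx.2⟩

theorem Pair_r_mono {u u' : ℕ} (h : u ≤ u') : Pair_r G u ≤ Pair_r G u' := by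
  unfold Pair_r
  apply Finset.card_le_card
  intro x hx
  rw [Finset.mem_filter, Finset.mem_range] at hx ⊢
  exact ⟨by omega, hx.2⟩

theorem Pair_k_mono {u u' : ℕ} (h : u ≤ u') : Pair_k G u ≤ Pair_k G u' := by
  unfold Pair_k
  apply Finset.card_le_card
  intro x hx
  rw [Finset.mem_filter] at hx ⊢
  exact ⟨hx.1, by omega⟩

theorem Pair_lt_iff (hmono' : ∀ x ∈ G, ∀ y ∈ G, x.2 < y.2 → x.1 < y.1)
    (hmono : ∀ x ∈ G, ∀ y ∈ G, x.1 < y.1 → x.2 < y.2) {x : ℕ × ℕ} (hx : x ∈ G) (u : ℕ) :
    x.2 < Pair_y G u ↔ x.1 < u := by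
  constructor
  · intro h
    unfold Pair_y at h
    obtain ⟨z, hz, hzx⟩ := Finset.lt_sup_iff.1 h
    rw [Finset.mem_filter] at hz
    rcases Nat.eq_or_lt_of_le (Nat.lt_succ_iff.1 hzx) with h1 | h1
    · have := Pair_snd hmono hx hz.1 h1
      rw [this]; exact hz.2
    · exact (hmono' x hx z hz.1 h1).trans hz.2
  · intro h
    have : x.2 + 1 ≤ Pair_y G u := by
      unfold Pair_y
      exact Finset.le_sup (f := fun x : ℕ × ℕ => x.2 + 1) (Finset.mem_filter.2 ⟨hx, h⟩)
    omega

theorem Pair_row (hmono' : ∀ x ∈ G, ∀ y ∈ G, x.2 < y.2 → x.1 < y.1) (u : ℕ) :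
    Pair_k G u + Pair_r G u = u := by
  have h1 := Finset.card_filter_add_card_filter_not (s := range u)
    (fun P => P ∈ G.image Prod.fst)
  rw [Finset.card_range] at h1
  have h2 : ((range u).filter fun P => P ∈ G.image Prod.fst) =
      (G.filter fun x => x.1 < u).image Prod.fst := by
    ext P
    simp only [Finset.mem_filter, Finset.mem_range, Finset.mem_image]
    constructor
    · rintro ⟨h, x, hx, rfl⟩
      exact ⟨x, ⟨hx, h⟩, rfl⟩
    · rintro ⟨x, ⟨hx, h⟩, rfl⟩
      exact ⟨h, x, hx, rfl⟩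
  rw [h2, Finset.card_image_of_injOn] at h1
  · exact h1
  · intro x hx y hy hxy
    exact Pair_fst hmono' (Finset.mem_filter.1 (Finset.mem_coe.1 hx)).1
      (Finset.mem_filter.1 (Finset.mem_coe.1 hy)).1 hxy

theorem Pair_col (hmono' : ∀ x ∈ G, ∀ y ∈ G, x.2 < y.2 → x.1 < y.1)
    (hmono : ∀ x ∈ G, ∀ y ∈ G, x.1 < y.1 → x.2 < y.2) (u : ℕ) :
    Pair_k G u + Pair_c G (Pair_y G u) = Pair_y G u := by
  have h1 := Finset.card_filter_add_card_filter_not (s := range (Pair_y G u))
    (fun P => P ∈ G.image Prod.snd)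
  rw [Finset.card_range] at h1
  have h2 : ((range (Pair_y G u)).filter fun P => P ∈ G.image Prod.snd) =
      (G.filter fun x => x.1 < u).image Prod.snd := by
    ext P
    simp only [Finset.mem_filter, Finset.mem_range, Finset.mem_image]
    constructor
    · rintro ⟨h, x, hx, rfl⟩
      exact ⟨x, ⟨hx, (Pair_lt_iff hmono' hmono hx u).1 h⟩, rfl⟩
    · rintro ⟨x, ⟨hx, h⟩, rfl⟩
      exact ⟨(Pair_lt_iff hmono' hmono hx u).2 h, x, hx, rfl⟩
  rw [h2, Finset.card_image_of_injOn] at h1
  · exact h1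
  · intro x hx y hy hxy
    exact Pair_snd hmono (Finset.mem_filter.1 (Finset.mem_coe.1 hx)).1
      (Finset.mem_filter.1 (Finset.mem_coe.1 hy)).1 hxy

theorem Pair_succ (hmono' : ∀ x ∈ G, ∀ y ∈ G, x.2 < y.2 → x.1 < y.1)
    (hmono : ∀ x ∈ G, ∀ y ∈ G, x.1 < y.1 → x.2 < y.2) {x : ℕ × ℕ} (hx : x ∈ G) :
    Pair_y G (x.1 + 1) = x.2 + 1 := by
  apply le_antisymm
  · unfold Pair_y
    apply Finset.sup_le
    intro z hz
    rw [Finset.mem_filter] at hz
    rcases Nat.eq_or_lt_of_le (Nat.lt_succ_iff.1 hz.2) with h1 | h1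
    · rw [Pair_fst hmono' hz.1 hx h1]
    · have := hmono z hz.1 x hx h1
      omega
  · have := (Pair_lt_iff hmono' hmono hx (x.1 + 1)).2 (Nat.lt_succ_self _)
    omega

theorem Pair_s_eq (hmono : ∀ x ∈ G, ∀ y ∈ G, x.1 < y.1 → x.2 < y.2) (T : ℕ) {P C : ℕ}
    (h : (P, C) ∈ G) : Pair_s G T C = P := by
  have hex : ∃ P, (P, C) ∈ G := ⟨P, h⟩
  unfold Pair_s
  rw [dif_pos hex]
  have := Pair_snd hmono hex.choose_spec h rfl
  exact congrArg Prod.fst this

theorem Pair_s_mem {T P C : ℕ} (hP : P < T) (h : Pair_s G T C = P) : (P, C) ∈ G := by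
  unfold Pair_s at h
  split_ifs at h with hex
  · have := hex.choose_spec
    rw [h] at this
    exact this
  · omega

theorem Pair_sum (L : ℕ) (Q : ℕ → Prop) (R : ℕ) :
    ∑ p ∈ range R, ((range L).filter fun u => Q (p * L + u)).card =
      ((range (R * L)).filter Q).card := by
  induction R with
  | zero => simp
  | succ R ih =>
    rw [Finset.sum_range_succ, ih, Nat.succ_mul]
    simp only [Finset.card_filter]
    rw [Finset.sum_range_add]

/-- the number of blocks with diagonal partners in several blocks -/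
theorem Pair_bad (hmono' : ∀ x ∈ G, ∀ y ∈ G, x.2 < y.2 → x.1 < y.1)
    (hmono : ∀ x ∈ G, ∀ y ∈ G, x.1 < y.1 → x.2 < y.2) {L : ℕ} {x y : ℕ × ℕ}
    (hx : x ∈ G) (hy : y ∈ G) (hxL : x.1 % L = x.2 % L) (hyL : y.1 % L = y.2 % L)
    (hxy : x.1 / L = y.1 / L) (hlt : x.2 / L < y.2 / L) (hL : 0 < L) :
    Pair_c G (Pair_y G (x.1 / L * L)) + L ≤ Pair_c G (Pair_y G ((x.1 / L + 1) * L)) := by
  have h1 := Nat.div_add_mod x.1 L
  have h2 := Nat.div_add_mod x.2 L
  have h3 := Nat.div_add_mod y.1 L
  have h4 := Nat.div_add_mod y.2 L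
  have h5 := Nat.mod_lt x.1 hL
  have h6 := Nat.mod_lt y.1 hL
  rw [← hxy] at h3
  rw [← hxL] at h2
  rw [← hyL] at h4
  have h7 := Nat.mul_le_mul_left L (Nat.succ_le_of_lt hlt)
  rw [Nat.mul_succ] at h7
  have h8 : x.2 < y.2 := by omega
  have h9 := hmono' x hx y hy h8
  have e1 := Pair_succ hmono' hmono hx
  have e2 := Pair_succ hmono' hmono hy
  have e3 := Pair_col hmono' hmono (x.1 + 1)
  have e4 := Pair_col hmono' hmono (y.1 + 1)
  have e5 := Pair_row hmono' (x.1 + 1)
  have e6 := Pair_row hmono' (y.1 + 1)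
  have e7 := Pair_r_mono (G := G) (u := x.1 + 1) (u' := y.1 + 1) (by omega)
  have hm : x.1 / L * L = L * (x.1 / L) := Nat.mul_comm _ _
  have e8 : Pair_c G (Pair_y G (x.1 / L * L)) ≤ Pair_c G (Pair_y G (x.1 + 1)) :=
    Pair_c_mono (Pair_y_mono (by omega))
  have e9 : Pair_c G (Pair_y G (y.1 + 1)) ≤ Pair_c G (Pair_y G ((x.1 / L + 1) * L)) := by
    refine Pair_c_mono (Pair_y_mono ?_)
    rw [Nat.succ_mul]
    omega
  rw [e1] at e3 e8
  rw [e2] at e4 e9
  omega

end Pair

theorem pair_blocks (L l h g R N : ℕ) (F : ℕ → ℕ) (G : Finset (ℕ × ℕ)) (hR : 0 < R)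
    (hG : ∀ x ∈ G, x.1 < R * L ∧ x.2 < R * L ∧ F x.1 = F x.2)
    (hmono : ∀ x ∈ G, ∀ y ∈ G, x.1 < y.1 → x.2 < y.2)
    (hmono' : ∀ x ∈ G, ∀ y ∈ G, x.2 < y.2 → x.1 < y.1)
    (hl : 0 < l) (hh : 0 < h) (hLh : h * l + h ≤ L)
    (WP : JS2.WordProp 11 L l h g F) (hN : R * L ≤ G.card + N) :
    ∃ pc : ℕ → ℕ, ∑ p ∈ range R, ((range L).filter fun u =>
      (p * L + u, pc p * L + u) ∉ G).card ≤
      h * l + (4 * l + 2) * N + g * l * (R * L / (h * l)) := by
  have hL : 0 < L := by
    have := Nat.mul_pos hh hl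
    omega
  have hyT : ∀ u, Pair_y G u ≤ R * L := by
    intro u
    unfold Pair_y
    apply Finset.sup_le
    intro z hz
    exact (hG z (Finset.mem_filter.1 hz).1).2.1
  have hkT : Pair_k G (R * L) = G.card := by
    unfold Pair_k
    rw [Finset.filter_true_of_mem]
    intro x hx
    exact (hG x hx).1
  have hrT : Pair_r G (R * L) ≤ N := by
    have := Pair_row hmono' (R * L)
    omega
  have hcT : Pair_c G (Pair_y G (R * L)) ≤ N := by
    have h1 := Pair_col hmono' hmono (R * L)
    have h2 := hyT (R * L)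
    omega
  have hrow := Pair_row hmono'
  have hcol := Pair_col hmono' hmono
  -- the count of the non-diagonal rows
  have key := JS2.pair_count L l h g (R * L) (2 * N) 0 (R * L) F 1 (by norm_num)
    (fun u => u) (Pair_s G (R * L)) (Pair_y G) (fun u => Pair_r G u + Pair_c G (Pair_y G u))
    hl hh hLh (fun u u' huu _ => Pair_y_mono huu)
    (fun u u' huu _ => Nat.add_le_add (Pair_r_mono huu) (Pair_c_mono (Pair_y_mono huu)))
    (by
      show Pair_r G (R * L) + Pair_c G (Pair_y G (R * L)) ≤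
        Pair_r G 0 + Pair_c G (Pair_y G 0) + 2 * N
      omega)
    (by
      intro u u' huu _
      have h1 := hrow u
      have h2 := hrow u'
      have h3 := hcol u
      have h4 := hcol u'
      have h5 := Pair_r_mono (G := G) huu
      have h6 := Pair_c_mono (G := G) (Pair_y_mono (G := G) huu)
      rw [abs_le]
      push_cast
      constructor <;> omega)
    (by
      intro u hu hV a ha
      have hVa : ∀ b ≤ l, Pair_r G (u + b) = Pair_r G u ∧
          Pair_c G (Pair_y G (u + b)) = Pair_c G (Pair_y G u) := by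
        intro b hb
        have h1 := Pair_r_mono (G := G) (u := u) (u' := u + b) (by omega)
        have h2 := Pair_r_mono (G := G) (u := u + b) (u' := u + l) (by omega)
        have h3 := Pair_c_mono (G := G) (Pair_y_mono (G := G) (u := u) (u' := u + b) (by omega))
        have h4 := Pair_c_mono (G := G)
          (Pair_y_mono (G := G) (u := u + b) (u' := u + l) (by omega))
        constructor <;> omega
      have hya : ∀ b ≤ l, Pair_y G (u + b) = Pair_y G u + b := by
        intro b hb
        obtain ⟨h1, h2⟩ := hVa b hb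
        have h3 := hrow u
        have h4 := hrow (u + b)
        have h5 := hcol u
        have h6 := hcol (u + b)
        omega
      -- the row `u + a` is matched
      have hmat : ∃ x ∈ G, x.1 = u + a := by
        by_contra hcon
        have h1 : Pair_r G (u + a) + 1 ≤ Pair_r G (u + (a + 1)) := by
          unfold Pair_r
          rw [← add_assoc, Finset.range_add_one, Finset.filter_insert, if_pos,
            Finset.card_insert_of_notMem (by simp)]
          intro h2
          obtain ⟨x, hx, hxu⟩ := Finset.mem_image.1 h2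
          exact hcon ⟨x, hx, hxu⟩
        have h2 := (hVa a ha.le).1
        have h3 := (hVa (a + 1) ha).1
        omega
      obtain ⟨x, hx, hxu⟩ := hmat
      have h1 := Pair_succ hmono' hmono hx
      have h2 : x.1 + 1 = u + (a + 1) := by omega
      rw [h2, hya (a + 1) ha] at h1
      have h3 : x.2 = Pair_y G u + a := by omega
      have h4 : (u + a, Pair_y G u + a) ∈ G := by
        rw [← hxu, ← h3]; exact hx
      refine ⟨(hG _ h4).2.1, ?_⟩
      rw [Pair_s_eq hmono (R * L) h4, Nat.zero_add])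
    (by
      intro u hu y' _ hs _ _ hF
      rw [Nat.zero_add] at hs hF
      have h1 := Pair_s_mem hu hs.symm
      have h2 := (hG _ h1).2.2
      dsimp only at h2
      omega)
    WP
  -- the blocks
  let dg : ℕ → Prop := fun v => ∃ C, (v, C) ∈ G ∧ C % L = v % L
  have key' : ((range (R * L)).filter fun v => ¬ dg v).card ≤
      h * l + 2 * l * (2 * N) + g * l * (R * L / (h * l)) := by
    refine le_trans (Finset.card_le_card ?_) key
    intro v hv
    rw [Finset.mem_filter] at hv ⊢
    refine ⟨hv.1, ?_⟩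
    rintro ⟨y', hy', h1, h2⟩
    rw [Nat.zero_add] at h1 h2
    exact hv.2 ⟨y', Pair_s_mem (Finset.mem_range.1 hv.1) h1, h2⟩
  let ex : ℕ → Prop := fun p => ∃ z : ℕ × ℕ, z ∈ G ∧ z.1 / L = p ∧ z.1 % L = z.2 % L
  let pc : ℕ → ℕ := fun p => if hp : ex p then hp.choose.2 / L else 0
  let W : ℕ → ℕ := fun i => Pair_c G (Pair_y G (i * L))
  have hjump := JS2.count_jumps W L R (fun i _ =>
    Pair_c_mono (Pair_y_mono (Nat.mul_le_mul_right L (Nat.le_succ i))))
  have hjump' : L * ((range R).filter fun i => W i + L ≤ W (i + 1)).card ≤ N := by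
    have : W R ≤ N := hcT
    omega
  refine ⟨pc, ?_⟩
  have hblock : ∀ p ∈ range R, ((range L).filter fun u =>
      (p * L + u, pc p * L + u) ∉ G).card ≤
      ((range L).filter fun u => ¬ dg (p * L + u)).card +
        (if W p + L ≤ W (p + 1) then L else 0) := by
    intro p _
    split_ifs with hbad
    · have h1 := Finset.card_filter_le (range L) (fun u => (p * L + u, pc p * L + u) ∉ G)
      rw [Finset.card_range] at h1
      omega
    · rw [Nat.add_zero]
      apply Finset.card_le_card
      intro u hu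
      rw [Finset.mem_filter] at hu ⊢
      refine ⟨hu.1, ?_⟩
      rintro ⟨C, hC, hCL⟩
      apply hu.2
      have huL := Finset.mem_range.1 hu.1
      have hdiv : (p * L + u) / L = p := by
        rw [mul_comm, Nat.mul_add_div hL, Nat.div_eq_of_lt huL, Nat.add_zero]
      have hmod : (p * L + u) % L = u := by
        rw [mul_comm, Nat.mul_add_mod, Nat.mod_eq_of_lt huL]
      have hex : ex p := ⟨(p * L + u, C), hC, hdiv, hCL.symm⟩
      have hpc : pc p = hex.choose.2 / L := dif_pos hex
      obtain ⟨hz1, hz2, hz3⟩ := hex.choose_spec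
      have heq : hex.choose.2 / L = C / L := by
        rcases Nat.lt_trichotomy (hex.choose.2 / L) (C / L) with hlt | heq | hlt
        · exfalso
          apply hbad
          have := Pair_bad hmono' hmono hz1 hC hz3 hCL.symm (by rw [hz2]; exact hdiv.symm)
            hlt hL
          rw [hz2] at this
          exact this
        · exact heq
        · exfalso
          apply hbad
          have := Pair_bad hmono' hmono hC hz1 hCL.symm hz3 (by rw [hz2]; exact hdiv)
            hlt hL
          dsimp only at this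
          rw [hdiv] at this
          exact this
      have hC' : pc p * L + u = C := by
        rw [hpc, heq]
        have h1 := Nat.div_add_mod C L
        rw [hCL, hmod, mul_comm] at h1
        exact h1
      rw [hC']
      exact hC
  have hsum := Finset.sum_le_sum hblock
  have hPS : ∑ p ∈ range R, ((range L).filter fun u => ¬ dg (p * L + u)).card =
      ((range (R * L)).filter fun v => ¬ dg v).card := by
    convert Pair_sum L (fun v => ¬ dg v) R
  rw [Finset.sum_add_distrib, hPS, ← Finset.sum_filter, Finset.sum_const, smul_eq_mul] at hsum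
  have e1 : (4 * l + 2) * N = 2 * l * (2 * N) + 2 * N := by ring
  have e2 : ((range R).filter fun i => W i + L ≤ W (i + 1)).card * L =
      L * ((range R).filter fun i => W i + L ≤ W (i + 1)).card := Nat.mul_comm _ _
  rw [e2] at hsum
  rw [e1]
  omega

end Pool.Agent.H.JS
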