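import Pool.Agent.H.MP_aeb38e_lc.TW.Track
import Pool.Agent.H.MP_aeb38e_lc.TW.Pair

/-!
Choice of the block of the clock.
-/

namespace Pool.Agent.H.JS

open Finset Classical

/-- Sum over blocks. -/
private theorem Blk_sum (f : ℕ → ℕ) (T S : ℕ) :
    ∑ x ∈ range (T * S), f x = ∑ P ∈ range T, ∑ s ∈ range S, f (P * S + s) := by
  induction T with
  | zero => simp
  | succ T ih => rw [Nat.succ_mul, Finset.sum_range_add, ih, Finset.sum_range_succ]

/-- The sum over one place of each block. -/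
private theorem Blk_one (f : ℕ → ℕ) (T S j : ℕ) (hj : j < S) :
    ∑ P ∈ range T, f (P * S + j) ≤ ∑ x ∈ range (T * S), f x := by
  rw [Blk_sum]
  exact Finset.sum_le_sum fun P _ =>
    Finset.single_le_sum (f := fun s => f (P * S + s)) (fun _ _ => Nat.zero_le _)
      (Finset.mem_range.2 hj)

/-- A value not above the mean. -/
private theorem Blk_mean (R : ℕ) (hR : 0 < R) (C : ℕ → ℕ) (T : ℕ) (h : ∑ p ∈ range R, C p ≤ T) :
    ∃ p < R, R * C p ≤ T := by
  by_contra hcon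
  push Not at hcon
  have h1 : ∑ _p ∈ range R, T < ∑ p ∈ range R, R * C p :=
    Finset.sum_lt_sum_of_nonempty ⟨0, Finset.mem_range.2 hR⟩ fun p hp =>
      hcon p (Finset.mem_range.1 hp)
  rw [Finset.sum_const, Finset.card_range, smul_eq_mul, ← Finset.mul_sum] at h1
  exact absurd (Nat.lt_of_mul_lt_mul_left h1) (not_lt.2 h)

theorem exists_blk {φ : CNF} {k d L R w κ X U l h g : ℕ} {r : ℕ → ℕ → ℕ → Prop} (hk : 0 < k)
    (hκ : 1 < κ) (hr : RunT φ k d L R w κ X U r) (hR : 0 < R) (hl : 0 < l) (hh : 0 < h)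
    (hLh : h * l + h ≤ L) (WP : JS2.WordProp 11 L l h g (fun P => w / 11 ^ (P % L) % 11)) :
    ∃ (p0 : ℕ) (p : ℕ → ℕ) (bad : Finset (ℕ × ℕ)), p0 < R ∧
      (∀ u < L, ∀ j < 2 * k, (u, j) ∉ bad → p j * L + u < R * L ∧
        ∃ t, r (2 * k) ((p0 * L + u) * uS k (cols φ k) + j) t ∧
          r j ((p j * L + u) * uS k (cols φ k) + j) t) ∧
      R * (κ ^ nty k * bad.card + ∑ u ∈ range L, ∑ s ∈ Ico (2 * k) (uS k (cols φ k)),
        (unmX φ k L w κ X r (2 * k) ((p0 * L + u) * uS k (cols φ k) + s)).card) ≤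
        κ ^ nty k * (2 * k * (h * l + g * l * (R * L / (h * l)))) + (4 * l + 3) * U := by
  have hS : 2 * k ≤ uS k (cols φ k) := by unfold uS; omega
  -- the matchings
  have hex : ∀ j : ℕ, ∃ (G : Finset (ℕ × ℕ)) (N : ℕ) (pc : ℕ → ℕ), j < 2 * k →
      (∀ g ∈ G, g.1 < R * L ∧ g.2 < R * L ∧
        w / 11 ^ (g.1 % L) % 11 = w / 11 ^ (g.2 % L) % 11 ∧
        ∃ t, r (2 * k) (g.1 * uS k (cols φ k) + j) t ∧ r j (g.2 * uS k (cols φ k) + j) t) ∧
      κ ^ nty k * N ≤
        ∑ P ∈ range (R * L), (unmX φ k L w κ X r (2 * k) (P * uS k (cols φ k) + j)).card +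
        ∑ P ∈ range (R * L), (unmX φ k L w κ X r j (P * uS k (cols φ k) + j)).card ∧
      ∑ p ∈ range R, ((range L).filter fun u => (p * L + u, pc p * L + u) ∉ G).card ≤
        h * l + (4 * l + 2) * N + g * l * (R * L / (h * l)) := by
    intro j
    by_cases hj : j < 2 * k
    · obtain ⟨G, N, h1, h2, h3, h4, h5⟩ := track hk hκ hr j hj
      obtain ⟨pc, h6⟩ := pair_blocks L l h g R N (fun P => w / 11 ^ (P % L) % 11) G hR
        (fun x hx => ⟨(h1 x hx).1, (h1 x hx).2.1, (h1 x hx).2.2.1⟩) h2 h3 hl hh hLh WP h4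
      exact ⟨G, N, pc, fun _ => ⟨h1, h5, h6⟩⟩
    · exact ⟨∅, 0, fun _ => 0, fun h => absurd h hj⟩
  choose G N pc hG using hex
  obtain ⟨S, hSd⟩ : ∃ S, S = uS k (cols φ k) := ⟨_, rfl⟩
  rw [← hSd] at hS
  obtain ⟨un, hun⟩ : ∃ un : ℕ → ℕ → ℕ, un = fun j x => (unmX φ k L w κ X r j x).card := ⟨_, rfl⟩
  obtain ⟨a, ha⟩ : ∃ a : ℕ → ℕ → ℕ, a = fun j p =>
    ((range L).filter fun u => (p * L + u, pc j p * L + u) ∉ G j).card := ⟨_, rfl⟩
  -- the total of the unmatched slots
  have hU : ∑ j ∈ range (2 * k), ∑ x ∈ range (R * L * S), un j x +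
      ∑ x ∈ range (R * L * S), un (2 * k) x ≤ U := by
    have h1 := hr.unm
    rw [Finset.sum_range_succ, ← hSd] at h1
    rw [hun]
    exact h1
  have hclock : ∑ x ∈ range (R * L * S), un (2 * k) x =
      ∑ P ∈ range (R * L), ∑ j ∈ range (2 * k), un (2 * k) (P * S + j) +
      ∑ P ∈ range (R * L), ∑ s ∈ Ico (2 * k) S, un (2 * k) (P * S + s) := by
    rw [Blk_sum, ← Finset.sum_add_distrib]
    refine Finset.sum_congr rfl fun P _ => ?_
    exact (Finset.sum_range_add_sum_Ico (fun s => un (2 * k) (P * S + s)) hS).symm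
  have hN : ∑ j ∈ range (2 * k), κ ^ nty k * N j +
      ∑ P ∈ range (R * L), ∑ s ∈ Ico (2 * k) S, un (2 * k) (P * S + s) ≤ U := by
    have h1 : ∑ j ∈ range (2 * k), κ ^ nty k * N j ≤
        ∑ j ∈ range (2 * k), (∑ P ∈ range (R * L), un (2 * k) (P * S + j) +
          ∑ x ∈ range (R * L * S), un j x) := by
      refine Finset.sum_le_sum fun j hj => ?_
      have hj' := Finset.mem_range.1 hj
      have h2 := (hG j hj').2.1
      have h3 := Blk_one (un j) (R * L) S j (by omega)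
      rw [← hSd] at h2
      rw [hun] at h3 ⊢
      exact h2.trans (Nat.add_le_add_left h3 _)
    rw [Finset.sum_add_distrib, Finset.sum_comm] at h1
    rw [hclock] at hU
    omega
  -- the cost of a block
  obtain ⟨C, hC⟩ : ∃ C : ℕ → ℕ, C = fun p => κ ^ nty k * ∑ j ∈ range (2 * k), a j p +
    ∑ u ∈ range L, ∑ s ∈ Ico (2 * k) S, un (2 * k) ((p * L + u) * S + s) := ⟨_, rfl⟩
  have hsum : ∑ p ∈ range R, C p ≤
      κ ^ nty k * (2 * k * (h * l + g * l * (R * L / (h * l)))) + (4 * l + 3) * U := by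
    have h1 : ∑ p ∈ range R, C p = κ ^ nty k * ∑ j ∈ range (2 * k), ∑ p ∈ range R, a j p +
        ∑ P ∈ range (R * L), ∑ s ∈ Ico (2 * k) S, un (2 * k) (P * S + s) := by
      rw [hC, Finset.sum_add_distrib, ← Finset.mul_sum, Finset.sum_comm,
        Blk_sum (fun P => ∑ s ∈ Ico (2 * k) S, un (2 * k) (P * S + s)) R L]
    have h2 : ∑ j ∈ range (2 * k), ∑ p ∈ range R, a j p ≤
        ∑ j ∈ range (2 * k), ((h * l + g * l * (R * L / (h * l))) + (4 * l + 2) * N j) := by
      refine Finset.sum_le_sum fun j hj => ?_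
      have h3 := (hG j (Finset.mem_range.1 hj)).2.2
      rw [ha]
      refine h3.trans (le_of_eq ?_)
      ring
    rw [Finset.sum_add_distrib, Finset.sum_const, Finset.card_range, smul_eq_mul,
      ← Finset.mul_sum] at h2
    rw [← Finset.mul_sum] at hN
    have h3 := Nat.mul_le_mul_left (κ ^ nty k) h2
    rw [h1]
    calc κ ^ nty k * ∑ j ∈ range (2 * k), ∑ p ∈ range R, a j p +
          ∑ P ∈ range (R * L), ∑ s ∈ Ico (2 * k) S, un (2 * k) (P * S + s)
        ≤ κ ^ nty k * (2 * k * (h * l + g * l * (R * L / (h * l))) +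
            (4 * l + 2) * ∑ j ∈ range (2 * k), N j) +
          ∑ P ∈ range (R * L), ∑ s ∈ Ico (2 * k) S, un (2 * k) (P * S + s) :=
          Nat.add_le_add_right h3 _
      _ = κ ^ nty k * (2 * k * (h * l + g * l * (R * L / (h * l)))) +
            ((4 * l + 2) * (κ ^ nty k * ∑ j ∈ range (2 * k), N j) +
          ∑ P ∈ range (R * L), ∑ s ∈ Ico (2 * k) S, un (2 * k) (P * S + s)) := by ring
      _ ≤ κ ^ nty k * (2 * k * (h * l + g * l * (R * L / (h * l)))) + (4 * l + 3) * U := by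
          refine Nat.add_le_add_left ?_ _
          have h4 : κ ^ nty k * ∑ j ∈ range (2 * k), N j ≤ U := by omega
          have h5 : ∑ P ∈ range (R * L), ∑ s ∈ Ico (2 * k) S, un (2 * k) (P * S + s) ≤ U := by
            omega
          have h6 := Nat.mul_le_mul_left (4 * l + 2) h4
          have h7 : (4 * l + 3) * U = (4 * l + 2) * U + U := by ring
          omega
  obtain ⟨p0, hp0, hp1⟩ := Blk_mean R hR C _ hsum
  refine ⟨p0, fun j => pc j p0, (range (2 * k)).biUnion fun j =>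
    ((range L).filter fun u => (p0 * L + u, pc j p0 * L + u) ∉ G j).image fun u => (u, j),
    hp0, ?_, ?_⟩
  · intro u hu j hj hb
    have hmem : (p0 * L + u, pc j p0 * L + u) ∈ G j := by
      by_contra hcon
      apply hb
      rw [Finset.mem_biUnion]
      refine ⟨j, Finset.mem_range.2 hj, ?_⟩
      rw [Finset.mem_image]
      exact ⟨u, Finset.mem_filter.2 ⟨Finset.mem_range.2 hu, hcon⟩, rfl⟩
    obtain ⟨-, h2, -, t, h3, h4⟩ := (hG j hj).1 _ hmem
    exact ⟨h2, t, h3, h4⟩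
  · refine le_trans (Nat.mul_le_mul_left R ?_) hp1
    rw [hC, hun, ← hSd]
    refine Nat.add_le_add_right (Nat.mul_le_mul_left _ ?_) _
    refine Finset.card_biUnion_le.trans ?_
    refine Finset.sum_le_sum fun j _ => ?_
    rw [ha]
    exact Finset.card_image_le

end Pool.Agent.H.JS
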