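import Pool.Agent.H.MP_aeb38e_lc.TW.Inst

/-!
Concatenation of schedules.
-/

namespace Pool.Agent.H.JS

open Finset

/-- There is a feasible schedule of makespan at most `X` on the two machines. -/
def Fits (l : List (List (ℕ × ℕ))) (X : ℕ) : Prop :=
  ∃ st, Feasible (2, l) st ∧ EndsBy (2, l) st X

theorem Fits.mono {l : List (List (ℕ × ℕ))} {X Y : ℕ} (h : Fits l X) (hXY : X ≤ Y) : Fits l Y := by
  obtain ⟨st, h1, h2⟩ := h
  exact ⟨st, h1, fun j i m p h => (h2 j i m p h).trans hXY⟩

theorem Fits.OPT_le {l : List (List (ℕ × ℕ))} {X : ℕ} (h : Fits l X) : OPT (2, l) ≤ X :=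
  Nat.sInf_le h

theorem Cat_isOp {M J j i m p : ℕ} {f : ℕ → List (ℕ × ℕ)} :
    IsOp (M, (List.range J).map f) j i m p ↔ j < J ∧ (f j)[i]? = some (m, p) := by
  unfold IsOp
  constructor
  · rintro ⟨job, h1, h2⟩
    by_cases hj : j < J
    · have h3 : ((List.range J).map f)[j]? = some (f j) := by
        rw [List.getElem?_map, List.getElem?_range hj]
        rfl
      have h4 : some (f j) = some job := h3.symm.trans h1
      exact ⟨hj, by rw [Option.some.inj h4]; exact h2⟩
    · have h3 : ((List.range J).map f)[j]? = none := by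
        rw [List.getElem?_eq_none]
        simpa using hj
      have h4 : (none : Option (List (ℕ × ℕ))) = some job := h3.symm.trans h1
      exact absurd h4 (by simp)
  · rintro ⟨hj, h⟩
    refine ⟨f j, ?_, h⟩
    show ((List.range J).map f)[j]? = some (f j)
    rw [List.getElem?_map, List.getElem?_range hj]
    rfl

theorem Cat_isOp_append {M J j i m p : ℕ} {f g : ℕ → List (ℕ × ℕ)}
    (h : IsOp (M, (List.range J).map fun j => f j ++ g j) j i m p) :
    (i < (f j).length ∧ IsOp (M, (List.range J).map f) j i m p) ∨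
    ((f j).length ≤ i ∧ IsOp (M, (List.range J).map g) j (i - (f j).length) m p) := by
  obtain ⟨h1, h2⟩ := Cat_isOp.1 h
  rcases lt_or_ge i (f j).length with h3 | h3
  · left
    rw [List.getElem?_append_left h3] at h2
    exact ⟨h3, Cat_isOp.2 ⟨h1, h2⟩⟩
  · right
    rw [List.getElem?_append_right h3] at h2
    exact ⟨h3, Cat_isOp.2 ⟨h1, h2⟩⟩

/-- empty jobs -/
theorem fits_nil (J : ℕ) (f : ℕ → List (ℕ × ℕ)) (hf : ∀ j < J, f j = []) :
    Fits ((List.range J).map f) 0 := by
  have h : ∀ j i m p, ¬ IsOp (2, (List.range J).map f) j i m p := by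
    intro j i m p h
    obtain ⟨h1, h2⟩ := Cat_isOp.1 h
    rw [hf j h1] at h2
    simp at h2
  refine ⟨fun _ _ => 0, ⟨?_, ?_⟩, ?_⟩
  · intro j i m p m' p' h1
    exact absurd h1 (h _ _ _ _)
  · intro j i j' i' m p p' h1
    exact absurd h1 (h _ _ _ _)
  · intro j i m p h1
    exact absurd h1 (h _ _ _ _)

/-- concatenation of two schedules (all processing times positive) -/
theorem Fits.append {J X Y : ℕ} {f g : ℕ → List (ℕ × ℕ)}
    (hf : Fits ((List.range J).map f) X) (hg : Fits ((List.range J).map g) Y) :
    Fits ((List.range J).map fun j => f j ++ g j) (X + Y) := by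
  obtain ⟨s1, ⟨a1, b1⟩, c1⟩ := hf
  obtain ⟨s2, ⟨a2, b2⟩, c2⟩ := hg
  have e1 : ∀ j i, i < (f j).length →
      (if i < (f j).length then s1 j i else X + s2 j (i - (f j).length)) = s1 j i :=
    fun j i h => if_pos h
  have e2 : ∀ j i, (f j).length ≤ i →
      (if i < (f j).length then s1 j i else X + s2 j (i - (f j).length)) =
        X + s2 j (i - (f j).length) := fun j i h => if_neg (not_lt.2 h)
  refine ⟨fun j i => if i < (f j).length then s1 j i else X + s2 j (i - (f j).length),
    ⟨?_, ?_⟩, ?_⟩
  · intro j i m p m' p' h1 h2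
    show (if i < (f j).length then s1 j i else X + s2 j (i - (f j).length)) + p ≤
      (if i + 1 < (f j).length then s1 j (i + 1) else X + s2 j (i + 1 - (f j).length))
    rcases Cat_isOp_append h1 with ⟨l1, o1⟩ | ⟨l1, o1⟩ <;>
      rcases Cat_isOp_append h2 with ⟨l2, o2⟩ | ⟨l2, o2⟩
    · rw [e1 j i l1, e1 j (i + 1) l2]
      exact a1 j i m p m' p' o1 o2
    · rw [e1 j i l1, e2 j (i + 1) l2]
      exact (c1 j i m p o1).trans (Nat.le_add_right _ _)
    · omega
    · rw [e2 j i l1, e2 j (i + 1) l2]
      have h3 : i + 1 - (f j).length = i - (f j).length + 1 := by omega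
      rw [h3] at o2 ⊢
      have h4 := a2 j (i - (f j).length) m p m' p' o1 o2
      omega
  · intro j i j' i' m p p' h1 h2 hne
    show (if i < (f j).length then s1 j i else X + s2 j (i - (f j).length)) + p ≤
      (if i' < (f j').length then s1 j' i' else X + s2 j' (i' - (f j').length)) ∨
      (if i' < (f j').length then s1 j' i' else X + s2 j' (i' - (f j').length)) + p' ≤
      (if i < (f j).length then s1 j i else X + s2 j (i - (f j).length))
    rcases Cat_isOp_append h1 with ⟨l1, o1⟩ | ⟨l1, o1⟩ <;>
      rcases Cat_isOp_append h2 with ⟨l2, o2⟩ | ⟨l2, o2⟩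
    · rw [e1 j i l1, e1 j' i' l2]
      exact b1 j i j' i' m p p' o1 o2 hne
    · left
      rw [e1 j i l1, e2 j' i' l2]
      exact (c1 j i m p o1).trans (Nat.le_add_right _ _)
    · right
      rw [e2 j i l1, e1 j' i' l2]
      exact (c1 j' i' m p' o2).trans (Nat.le_add_right _ _)
    · rw [e2 j i l1, e2 j' i' l2]
      have hne' : (j, i - (f j).length) ≠ (j', i' - (f j').length) := by
        intro h
        have h3 := congrArg Prod.fst h
        have h4 := congrArg Prod.snd h
        simp only at h3 h4
        subst h3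
        exact hne (by rw [show i = i' by omega])
      rcases b2 j _ j' _ m p p' o1 o2 hne' with h | h
      · left; omega
      · right; omega
  · intro j i m p h1
    show (if i < (f j).length then s1 j i else X + s2 j (i - (f j).length)) + p ≤ X + Y
    rcases Cat_isOp_append h1 with ⟨l1, o1⟩ | ⟨l1, o1⟩
    · rw [e1 j i l1]
      exact (c1 j i m p o1).trans (Nat.le_add_right _ _)
    · rw [e2 j i l1]
      have := c2 j _ m p o1
      omega

/-- concatenation of many schedules -/
theorem Fits.flatMap {J G : ℕ} {X : ℕ → ℕ} {f : ℕ → ℕ → List (ℕ × ℕ)}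
    (h : ∀ g < G, Fits ((List.range J).map (f g)) (X g)) :
    Fits ((List.range J).map fun j => (List.range G).flatMap fun g => f g j)
      (∑ g ∈ range G, X g) := by
  induction G with
  | zero =>
    rw [Finset.sum_range_zero]
    exact fits_nil J _ fun j _ => by simp
  | succ G ih =>
    have h1 := ih fun g hg => h g (Nat.lt_succ_of_lt hg)
    have h2 := Fits.append h1 (h G (Nat.lt_succ_self G))
    rw [Finset.sum_range_succ]
    have h3 : (fun j => (List.range (G + 1)).flatMap fun g => f g j) =
        fun j => ((List.range G).flatMap fun g => f g j) ++ f G j := by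
      funext j
      rw [List.range_succ, List.flatMap_append]
      simp
    rw [h3]
    exact h2

end Pool.Agent.H.JS
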