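import Pool.Agent.H.MP_aeb38e_lc.TW.YesA

/-!
Completeness: sums of multiplicities over the global keys.
-/

namespace Pool.Agent.H.JS

open Finset

private theorem YesS_shift (f : ℕ → ℕ) {a N M : ℕ} (h : N + a ≤ M) :
    ∑ g ∈ range M, (if a ≤ g ∧ g < N + a then f (g - a) else 0) = ∑ x ∈ range N, f x := by
  rw [← sum_filter]
  have h1 : (range M).filter (fun g => a ≤ g ∧ g < N + a) = Ico a (N + a) := by
    ext g
    rw [mem_filter, mem_range, mem_Ico]
    constructor
    · exact fun h => h.2
    · exact fun h => ⟨by omega, h⟩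
  rw [h1, sum_Ico_eq_sum_range, Nat.add_sub_cancel]
  exact sum_congr rfl fun x _ => by rw [Nat.add_sub_cancel_left]

theorem sum_mulg {φ : CNF} {k d L R Z : ℕ} {z : ℕ → ℕ} (hZ : ∀ j, z j ≤ Z) :
    ∑ g ∈ range ((R + Z) * L * uS k (cols φ k)), ∑ j ∈ range (2 * k + 1), mulg φ k d L R z j g =
      sumMul φ k d L R := by
  rw [sum_comm, sumMul_eq]
  refine sum_congr rfl fun j _ => ?_
  have h1 : (R + z j) * L * uS k (cols φ k) =
      R * L * uS k (cols φ k) + z j * L * uS k (cols φ k) := by ring
  have h2 : R * L * uS k (cols φ k) + z j * L * uS k (cols φ k) ≤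
      (R + Z) * L * uS k (cols φ k) := by
    rw [← h1]
    exact Nat.mul_le_mul_right _ (Nat.mul_le_mul_right _ (Nat.add_le_add_left (hZ j) _))
  rw [← YesS_shift (fun x => mulx φ k d L (cols φ k) j x) h2]
  refine sum_congr rfl fun g _ => ?_
  unfold mulg
  rw [h1]

private theorem YesS_lt {P S s X : ℕ} (hs : s < S) : P * S + s < X * S ↔ P < X := by
  constructor
  · intro h
    by_contra hc
    push Not at hc
    have := Nat.mul_le_mul_right S hc
    omega
  · intro h
    have := Nat.mul_le_mul_right S (Nat.succ_le_of_lt h)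
    rw [Nat.succ_mul] at this
    omega

private theorem YesS_one {φ : CNF} {k d L R P B : ℕ} {z : ℕ → ℕ} (j : ℕ)
    (hB : ∀ P', ∑ s ∈ range (uS k (cols φ k)), mul φ k d L (cols φ k) j P' s ≤ B) :
    ∑ s ∈ range (uS k (cols φ k)), mulg φ k d L R z j (P * uS k (cols φ k) + s) ≤ B := by
  have hterm : ∀ s ∈ range (uS k (cols φ k)), mulg φ k d L R z j (P * uS k (cols φ k) + s) ≤
      mul φ k d L (cols φ k) j (P - z j * L) s := by
    intro s hs
    rw [mem_range] at hs
    unfold mulg
    split_ifs with h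
    · have h1 : z j * L ≤ P := by
        by_contra hc
        push Not at hc
        have := (YesS_lt (X := z j * L) hs).2 hc
        omega
      have h2 : P * uS k (cols φ k) + s - z j * L * uS k (cols φ k) =
          (P - z j * L) * uS k (cols φ k) + s := by
        have h3 := Nat.mul_le_mul_right (uS k (cols φ k)) h1
        rw [Nat.sub_mul]
        omega
      have h4 : ((P - z j * L) * uS k (cols φ k) + s) / uS k (cols φ k) = P - z j * L := by
        rw [Nat.add_comm, Nat.add_mul_div_right _ _ (by omega), Nat.div_eq_of_lt hs, zero_add]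
      have h5 : ((P - z j * L) * uS k (cols φ k) + s) % uS k (cols φ k) = s := by
        rw [Nat.add_comm, Nat.add_mul_mod_self_right, Nat.mod_eq_of_lt hs]
      rw [h2]
      unfold mulx
      rw [h4, h5]
    · exact Nat.zero_le _
  exact (sum_le_sum hterm).trans (hB _)

private theorem YesS_unit {φ : CNF} {k d L R P : ℕ} {z : ℕ → ℕ} (hk : 0 < k) :
    ∑ s ∈ range (uS k (cols φ k)), ∑ j ∈ range (2 * k + 1),
      mulg φ k d L R z j (P * uS k (cols φ k) + s) ≤ 12 * k := by
  rw [sum_comm, sum_range_succ]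
  have h1 : ∑ s ∈ range (uS k (cols φ k)), mulg φ k d L R z (2 * k) (P * uS k (cols φ k) + s) ≤
      6 * k := YesS_one (2 * k) fun P' => sum_mul_clock hk
  have h2 : ∑ j ∈ range (2 * k), ∑ s ∈ range (uS k (cols φ k)),
      mulg φ k d L R z j (P * uS k (cols φ k) + s) ≤ ∑ _j ∈ range (2 * k), 3 :=
    sum_le_sum fun j hj => YesS_one j fun P' => sum_mul_job hk (mem_range.1 hj)
  rw [sum_const, card_range, smul_eq_mul] at h2
  omega

theorem sum_mulg_bd {φ : CNF} {k d L R Z : ℕ} {z : ℕ → ℕ} (hk : 0 < k) (hZ : ∀ j, z j ≤ Z) :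
    ∑ g ∈ (range ((R + Z) * L * uS k (cols φ k))).filter (fun g =>
      ¬ (Z * L * uS k (cols φ k) ≤ g ∧ g < R * L * uS k (cols φ k))),
      ∑ j ∈ range (2 * k + 1), mulg φ k d L R z j g ≤ 2 * Z * L * (12 * k) := by
  classical
  have hS : 0 < uS k (cols φ k) := by
    unfold uS
    omega
  set S := uS k (cols φ k) with hSdef
  set F := (range ((R + Z) * L * S)).filter (fun g => ¬ (Z * L * S ≤ g ∧ g < R * L * S)) with hF
  obtain ⟨B, hBdef⟩ : ∃ B : Finset ℕ, B = range (Z * L) ∪ Ico (R * L) ((R + Z) * L) := ⟨_, rfl⟩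
  have hmap : ∀ g ∈ F, g / S ∈ B := by
    intro g hg
    rw [hF, mem_filter, mem_range] at hg
    have e : g = g / S * S + g % S := (Nat.div_add_mod' g S).symm
    have hm : g % S < S := Nat.mod_lt _ hS
    rw [hBdef, mem_union, mem_range, mem_Ico]
    by_cases h : g / S < Z * L
    · exact Or.inl h
    · right
      have h1 : ¬ g < Z * L * S := by
        rw [e, YesS_lt hm]
        exact h
      have h2 : ¬ g < R * L * S := fun h2 => hg.2 ⟨by omega, h2⟩
      rw [e, YesS_lt hm] at h2
      have h3 := hg.1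
      rw [e, YesS_lt hm] at h3
      exact ⟨by omega, h3⟩
  have hcard : #B ≤ 2 * Z * L := by
    rw [hBdef]
    refine (card_union_le _ _).trans ?_
    rw [card_range, Nat.card_Ico, Nat.add_mul, Nat.add_sub_cancel_left]
    exact le_of_eq (by ring)
  rw [← sum_fiberwise_of_maps_to hmap]
  have hle : ∀ P ∈ B, ∑ g ∈ F.filter (fun g => g / S = P), ∑ j ∈ range (2 * k + 1),
      mulg φ k d L R z j g ≤ 12 * k := by
    intro P _
    refine le_trans ?_ (YesS_unit (φ := φ) (k := k) (d := d) (L := L) (R := R) (P := P) (z := z) hk)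
    rw [← hSdef]
    have hinj : Set.InjOn (fun s => P * S + s) (range S) := fun a _ b _ h => by
      have : P * S + a = P * S + b := h
      omega
    rw [← sum_image (f := fun g => ∑ j ∈ range (2 * k + 1), mulg φ k d L R z j g) hinj]
    refine sum_le_sum_of_subset fun g hg => ?_
    rw [mem_filter] at hg
    rw [mem_image]
    refine ⟨g % S, mem_range.2 (Nat.mod_lt _ hS), ?_⟩
    rw [← hg.2]
    exact Nat.div_add_mod' g S
  refine (sum_le_sum hle).trans ?_
  rw [sum_const, smul_eq_mul]
  exact Nat.mul_le_mul_right _ hcard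

end Pool.Agent.H.JS
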