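import Pool.Agent.H.MP_aeb38e_lc.TW.YesC
import Pool.Agent.H.MP_aeb38e_lc.TW.YesS

/-!
Completeness: for a satisfiable formula there is a schedule of small makespan.
-/

namespace Pool.Agent.H.JS

open Finset

theorem yesT {φ : CNF} {k d L E w κ : ℕ} (hk : 0 < k) (hE : E ≤ κ) (hκ : 0 < κ) (h3 : 3 ∣ L)
    (h2 : 2 ∣ L) (hM : φ.2.length ≤ k * d) (hN : φ.1 ≤ k * d) (hv : Vars φ) (hs : Sat φ) :
    OPT (instT φ k d L (blocks d E) w (fun i => κ ^ i)) ≤
      targetT φ k d L (blocks d E) (fun i => κ ^ i) := by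
  classical
  obtain ⟨τ, hτ⟩ := hs
  obtain ⟨u, hu, ht⟩ := Y.exists_lit φ τ hτ
  let z : ℕ → ℕ := fun j => if j < 2 * k then YB.ofsB k d τ u j else 0
  have hz : ∀ j, z j = if j < 2 * k then YB.ofsB k d τ u j else 0 := fun j => rfl
  have hZ : ∀ j, z j ≤ 16 ^ (2 * d) := by
    intro j
    rw [hz]
    split_ifs
    · exact (YB.ofsB_lt k d τ u hu j).le
    · exact Nat.zero_le _
  generalize hR : blocks d E = R
  generalize hZ0 : 16 ^ (2 * d) = Z at hZ
  have hRZ : R = Z * E := by rw [← hR, ← hZ0]; rfl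
  -- the cost of each global key
  have hX : ∀ g : ℕ, ∃ X : ℕ, κ * X ≤ κ ^ nty k * ((κ + 3) *
      ∑ j ∈ range (2 * k + 1), mulg φ k d L R z j g +
      (if ¬ (Z * L * uS k (cols φ k) ≤ g ∧ g < R * L * uS k (cols φ k)) then
        κ * ∑ j ∈ range (2 * k + 1), mulg φ k d L R z j g else 0)) ∧
      Fits ((List.range (2 * k + 1)).map fun j => piece (κ ^ rankx φ k L w (cols φ k) g)
        (mulg φ k d L R z j g * κ ^ (nty k - rankx φ k L w (cols φ k) g))) X := by
    intro g
    by_cases hg : Z * L * uS k (cols φ k) ≤ g ∧ g < R * L * uS k (cols φ k)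
    · obtain ⟨X, h1, h4⟩ := cost_int (w := w) hk hκ h3 hM hN hv hu ht hz hZ hg.1 hg.2
      refine ⟨X, ?_, h4⟩
      rw [if_neg (not_not.2 hg), add_zero]
      exact h1
    · refine ⟨κ ^ nty k * (2 * ∑ j ∈ range (2 * k + 1), mulg φ k d L R z j g), ?_, cost_bd hk⟩
      rw [if_pos hg]
      generalize ∑ j ∈ range (2 * k + 1), mulg φ k d L R z j g = m
      calc κ * (κ ^ nty k * (2 * m)) = κ ^ nty k * (κ * m + κ * m) := by ring
        _ ≤ κ ^ nty k * ((κ + 3) * m + κ * m) := by
          refine Nat.mul_le_mul_left _ (Nat.add_le_add_right ?_ _)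
          exact Nat.mul_le_mul_right _ (Nat.le_add_right _ _)
  choose X hX1 hX2 using hX
  have hfit : Fits ((List.range (2 * k + 1)).map fun j => wordOps (R * L * uS k (cols φ k))
      (repx φ k d L w (cols φ k) (fun i => κ ^ i) j) (lenx φ k L w (cols φ k) (fun i => κ ^ i)))
      (∑ g ∈ range ((R + Z) * L * uS k (cols φ k)), X g) := by
    have h := Fits.flatMap (J := 2 * k + 1) (G := (R + Z) * L * uS k (cols φ k)) (X := X)
      (f := fun g j => piece (κ ^ rankx φ k L w (cols φ k) g)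
        (mulg φ k d L R z j g * κ ^ (nty k - rankx φ k L w (cols φ k) g))) (fun g _ => hX2 g)
    have e : (fun j => wordOps (R * L * uS k (cols φ k))
        (repx φ k d L w (cols φ k) (fun i => κ ^ i) j)
        (lenx φ k L w (cols φ k) (fun i => κ ^ i))) =
        fun j => (List.range ((R + Z) * L * uS k (cols φ k))).flatMap fun g =>
          piece (κ ^ rankx φ k L w (cols φ k) g)
            (mulg φ k d L R z j g * κ ^ (nty k - rankx φ k L w (cols φ k) g)) := by
      funext j
      exact wordOps_shift hk h2 hZ j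
    rw [e]
    exact h
  refine hfit.OPT_le.trans ?_
  -- the sum of the costs
  have hsum : κ * ∑ g ∈ range ((R + Z) * L * uS k (cols φ k)), X g ≤
      κ ^ nty k * ((κ + 3) * sumMul φ k d L R + κ * (2 * Z * L * (12 * k))) := by
    rw [mul_sum]
    refine (sum_le_sum fun g _ => hX1 g).trans ?_
    rw [← mul_sum, sum_add_distrib, ← mul_sum, sum_mulg hZ]
    refine Nat.mul_le_mul_left _ (Nat.add_le_add_left ?_ _)
    rw [← sum_filter, ← mul_sum]
    exact Nat.mul_le_mul_left _ (sum_mulg_bd hk hZ)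
  have hle : κ * ∑ g ∈ range ((R + Z) * L * uS k (cols φ k)), X g ≤
      κ * (κ ^ nty k * (sumMul φ k d L R + 60 * k * (Z * L))) := by
    refine hsum.trans ?_
    have h4 : 3 * sumMul φ k d L R ≤ κ * (36 * k * (Z * L)) := by
      have h5 : sumMul φ k d L R ≤ 12 * k * (R * L) := sumMul_le hk
      have h6 : R * L ≤ κ * (Z * L) := by
        rw [hRZ]
        calc Z * E * L = E * (Z * L) := by ring
          _ ≤ κ * (Z * L) := Nat.mul_le_mul_right _ hE
      calc 3 * sumMul φ k d L R ≤ 3 * (12 * k * (R * L)) := Nat.mul_le_mul_left _ h5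
        _ = 36 * k * (R * L) := by ring
        _ ≤ 36 * k * (κ * (Z * L)) := Nat.mul_le_mul_left _ h6
        _ = κ * (36 * k * (Z * L)) := by ring
    calc κ ^ nty k * ((κ + 3) * sumMul φ k d L R + κ * (2 * Z * L * (12 * k)))
        = κ ^ nty k * (κ * sumMul φ k d L R + 3 * sumMul φ k d L R +
          κ * (24 * k * (Z * L))) := by ring
      _ ≤ κ ^ nty k * (κ * sumMul φ k d L R + κ * (36 * k * (Z * L)) +
          κ * (24 * k * (Z * L))) := by
        refine Nat.mul_le_mul_left _ (Nat.add_le_add_right (Nat.add_le_add_left h4 _) _)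
      _ = κ * (κ ^ nty k * (sumMul φ k d L R + 60 * k * (Z * L))) := by ring
  have hfin := Nat.le_of_mul_le_mul_left hle hκ
  unfold targetT
  rw [hZ0]
  exact hfin

end Pool.Agent.H.JS
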