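import Pool.Agent.H.MP_aeb38e_lc.TW.NoT
import Pool.Agent.H.MP_aeb38e_lc.TW.YesT
import Pool.Agent.H.MP_aeb38e_lc.TW.AlgT

/-!
The reduction: an algorithm for the gap problem on two machines yields an algorithm for formulas
with a bounded number of occurrences of each variable.
-/

namespace Pool.Agent.H.JS

open Turing Pool.Agent.H.MP_5be563_lc.PT

/-- The machine `tm`, together with the functions `inp` and `acc`, solves the gap problem. -/
def SolvesT (inp : Shop × ℕ × ℕ → List Bool) (acc : List Bool × Shop × ℕ × ℕ → Bool) (m b e : ℕ)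
    (t : ℕ → ℕ) (tm : FinTM2) (iA : tm.Γ tm.k₀ ≃ Bool) (oA : tm.Γ tm.k₁ ≃ Bool) : Prop :=
  ∀ (I : Shop) (K : ℕ), Two m b I → ∃ y : List Bool,
    Outputs tm iA oA (inp (I, e, K)) y (t (inp (I, e, K)).length) ∧
    (OPT I ≤ K → acc (y, I, e, K) = true) ∧ ((e + 1) * K < e * OPT I → acc (y, I, e, K) = false)

theorem coreT {B D H : ℕ} (hD : 0 < D) (hH : 0 < H)
    (hGE : ∀ (tm : FinTM2) (iA : tm.Γ tm.k₀ ≃ Bool) (oA : tm.Γ tm.k₁ ≃ Bool) (C : ℕ),
      ¬ ∀ φ : CNF, Bdd B φ → ∃ b : Bool,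
        Outputs tm iA oA (codeCNF φ) (codeBool b) (C * 2 ^ (φ.1 / H)) ∧
        (Sat φ → b = true) ∧ (Far D φ → b = false)) :
    ∃ E, 0 < E ∧ ∀ {inp : Shop × ℕ × ℕ → List Bool} (_ : Poly inp)
      (_ : ∀ I e K, (inp (I, e, K)).length ≤ sz I + sz e + sz K + 2)
      {acc : List Bool × Shop × ℕ × ℕ → Bool} (_ : Poly acc),
      ∃ b, ∀ c k m e, b * (c + 1) ≤ k → 0 < k → 2 * k + 1 ≤ m → E ≤ e →
        ∀ (tm : FinTM2) (iA : tm.Γ tm.k₀ ≃ Bool) (oA : tm.Γ tm.k₁ ≃ Bool) (C : ℕ),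
          ¬ SolvesT inp acc m ((96 * k * E + 2) ^ nty k) e (fun n => C * (n ^ c + 1)) tm iA oA := by
  obtain ⟨E, N0, hE, hno⟩ := noT D B hD
  refine ⟨E, hE, fun {inp} hinp hlen {acc} hacc => ?_⟩
  obtain ⟨f, g, hf, hg, hfg⟩ := algT hinp hacc
  have hf' : Poly (fun x : (ParT × ℕ × ℕ) × CNF × ℕ × ℕ => f (x.1.1, x.2)) :=
    hf.comp (g := fun x : (ParT × ℕ × ℕ) × CNF × ℕ × ℕ => (x.1.1, x.2)) (by fun_prop)
  have hg' : Poly (fun x : (ParT × ℕ × ℕ) × CNF × ℕ × ℕ × List Bool => g (x.1.1, x.2)) :=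
    hg.comp (g := fun x : (ParT × ℕ × ℕ) × CNF × ℕ × ℕ × List Bool => (x.1.1, x.2))
      (by fun_prop)
  have hS : Poly (fun x : (ParT × ℕ × ℕ) × CNF => x.2.1 / x.1.2.1 + x.1.2.2) := by
    have h1 : Poly (fun x : (ParT × ℕ × ℕ) × CNF => x.2.1) := by fun_prop
    have h2 : Poly (fun x : (ParT × ℕ × ℕ) × CNF => x.1.2.1) := by fun_prop
    have h3 : Poly (fun x : (ParT × ℕ × ℕ) × CNF => x.1.2.2) := by fun_prop
    exact (Poly.div h1 h2).add h3
  obtain ⟨Q, hQ⟩ := loop_machine hf' hg' hS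
  obtain ⟨h, hh, hnum1⟩ := num1 Q H hH
  obtain ⟨b1, hb1⟩ := num2 (B + 1) h hh
  obtain ⟨b2, hb2⟩ := numB B (2 * h) (by omega)
  refine ⟨b1 + b2, fun c k m e hck hk hm hEe tm iA oA C hsol => ?_⟩
  have hck1 : b1 * (c + 1) ≤ k := le_trans (Nat.mul_le_mul_right _ (by omega)) hck
  have hck2 : b2 ≤ k := by
    refine le_trans ?_ hck
    calc b2 ≤ (b1 + b2) * 1 := by omega
      _ ≤ (b1 + b2) * (c + 1) := Nat.mul_le_mul_left _ (by omega)
  set κ := 96 * k * E + 2 with hκ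
  have hκ1 : 1 < κ := by omega
  have hκE : 96 * k * E ≤ κ := by omega
  have hEκ : E ≤ κ := by
    have h1 : E ≤ 96 * k * E := Nat.le_mul_of_pos_left _ (by omega)
    omega
  set M0 := N0 * k with hM0
  -- constants
  set CL := 6291456 * B * (B + M0 * M0 + 1) with hCL
  set CI := 3000 * (k + 1) ^ 2 * κ ^ (2 * nty k) * ((E + 1) * CL + 1) + 2 * e + 10 with hCI
  set B' := C * (CI ^ c + 1) + 3 * (M0 * M0) + 1 with hB'
  obtain ⟨c1, hc1⟩ := hb1 c k hck1 hk B'
  obtain ⟨c2, hc2⟩ := hb2 k hck2 hk (3 * (M0 * M0))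
  set c0 := c1 + 2 * c2 with hc0
  set par : ParT × ℕ × ℕ := ((pows κ k, k, E, M0, B, e), h, c0) with hpar
  obtain ⟨A, tm', iA', oA', hrun⟩ := hQ par tm iA oA
  obtain ⟨C', hC'⟩ := hnum1 c0 (30 * (B + 1) + sz par)
  refine hGE tm' iA' oA' (A * C') fun φ hφ => ?_
  obtain ⟨r1, -, r5, r6, r7⟩ := rep2_spec (M0 := M0) hφ
  obtain ⟨r2, r2'⟩ := rep2_bounds (M0 := M0) hφ
  obtain ⟨r3, r4⟩ := lev2_spec (M0 := M0) hk hφ
  set W := 2 ^ (φ.1 / h + c0) with hW
  set X := 16 ^ (2 * lev2 k M0 B φ.1) * (φ.1 + 1) with hX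
  have hX0 : 0 < X := by positivity
  -- the size bounds
  have hlev : lev2 k M0 B φ.1 ≤ ((B + 1) * φ.1 + B') / k + 1 := by
    unfold lev2
    have : ((B + 1) * φ.1 + 3 * (M0 * M0)) / k ≤ ((B + 1) * φ.1 + B') / k :=
      Nat.div_le_div_right (by omega)
    omega
  have hXle : X ≤ 16 ^ (2 * (((B + 1) * φ.1 + B') / k + 1)) * (φ.1 + 1) := by
    rw [hX]
    exact Nat.mul_le_mul_right _ (Nat.pow_le_pow_right (by norm_num) (by omega))
  have hc1W : 2 ^ (φ.1 / h + c1) ≤ W := Nat.pow_le_pow_right (by norm_num) (by omega)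
  have hc2W : (2 ^ (φ.1 / (2 * h) + c2)) ^ 2 ≤ W := by
    rw [← pow_mul]
    apply Nat.pow_le_pow_right (by norm_num)
    have h1 : φ.1 / (2 * h) * 2 ≤ φ.1 / h := by
      rw [mul_comm 2 h, ← Nat.div_div_eq_div_mul]
      exact Nat.div_mul_le_self _ _
    omega
  have hBX : B' * X ^ (c + 1) + B' ≤ W := by
    refine le_trans ?_ ((hc1 φ.1).trans hc1W)
    exact Nat.add_le_add_right (Nat.mul_le_mul_left _ (Nat.pow_le_pow_left hXle _)) _
  have hXp : X ≤ X ^ (c + 1) := Nat.le_self_pow (by omega) X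
  have h16 : 16 ^ (2 * lev2 k M0 B φ.1) ≤ W := by
    have h1 : 16 ^ (2 * lev2 k M0 B φ.1) ≤ X := by
      rw [hX]; exact Nat.le_mul_of_pos_right _ (by omega)
    have h2 : X ^ (c + 1) ≤ B' * X ^ (c + 1) := Nat.le_mul_of_pos_left _ (by omega)
    omega
  have htime : ∀ w, C * ((inp (theInstT κ k E M0 B φ w, e, theTargetT κ k E M0 B φ)).length ^ c +
      1) ≤ W := by
    intro w
    have h1 := hlen (theInstT κ k E M0 B φ w) e (theTargetT κ k E M0 B φ)
    have h2 := sz_theInstT_le (κ := κ) (k := k) (E := E) (M0 := M0) (B := B) (e := e) (φ := φ)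
      (w := w) hk hκ1 (lenB_le r2)
    have h3 := h1.trans h2
    have h4 : (inp (theInstT κ k E M0 B φ w, e, theTargetT κ k E M0 B φ)).length ^ c ≤
        CI ^ c * X ^ c := by
      rw [← mul_pow]; exact Nat.pow_le_pow_left h3 c
    have h5 : X ^ c ≤ X ^ (c + 1) := Nat.pow_le_pow_right hX0 (by omega)
    have h6 : C * ((inp (theInstT κ k E M0 B φ w, e, theTargetT κ k E M0 B φ)).length ^ c + 1) ≤
        C * (CI ^ c * X ^ (c + 1) + X ^ (c + 1)) := by
      apply Nat.mul_le_mul_left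
      have h7 : 1 ≤ X ^ (c + 1) := Nat.one_le_pow _ _ hX0
      have h8 := Nat.mul_le_mul_left (CI ^ c) h5
      omega
    have h9 : C * (CI ^ c * X ^ (c + 1) + X ^ (c + 1)) = C * (CI ^ c + 1) * X ^ (c + 1) := by ring
    have h10 : C * (CI ^ c + 1) * X ^ (c + 1) ≤ B' * X ^ (c + 1) :=
      Nat.mul_le_mul_right _ (by omega)
    omega
  -- run
  have hy : ∀ w, ∃ y : List Bool,
      Outputs tm iA oA (inp (theInstT κ k E M0 B φ w, e, theTargetT κ k E M0 B φ)) y W ∧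
      (OPT (theInstT κ k E M0 B φ w) ≤ theTargetT κ k E M0 B φ →
        acc (y, theInstT κ k E M0 B φ w, e, theTargetT κ k E M0 B φ) = true) ∧
      ((e + 1) * theTargetT κ k E M0 B φ < e * OPT (theInstT κ k E M0 B φ w) →
        acc (y, theInstT κ k E M0 B φ w, e, theTargetT κ k E M0 B φ) = false) := by
    intro w
    obtain ⟨y, hy1, hy2, hy3⟩ := hsol (theInstT κ k E M0 B φ w) (theTargetT κ k E M0 B φ)
      (two_instT hk hκ1 hm)
    exact ⟨y, outputs_le hy1 (htime w), hy2, hy3⟩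
  choose y hy1 hy2 hy3 using hy
  have hfW : ∀ w, f ((pows κ k, k, E, M0, B, e), φ, W, w) =
      inp (theInstT κ k E M0 B φ w, e, theTargetT κ k E M0 B φ) :=
    fun w => (hfg κ k E M0 B e φ W w hk h16).1
  have hgW : ∀ w y, g ((pows κ k, k, E, M0, B, e), φ, W, w, y) =
      (φ.2.isEmpty || acc (y, theInstT κ k E M0 B φ w, e, theTargetT κ k E M0 B φ)) :=
    fun w => (hfg κ k E M0 B e φ W w hk h16).2
  have hrun' := hrun φ y (fun w _ => by
    show Outputs tm iA oA (f ((pows κ k, k, E, M0, B, e), φ, W, w)) (y w) W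
    rw [hfW]
    exact hy1 w)
  refine ⟨decide (∀ w < W, g ((pows κ k, k, E, M0, B, e), φ, W, w, y w) = true), ?_, ?_, ?_⟩
  · rw [← bits_cnf, ← bits_bool]
    refine outputs_le hrun' ?_
    rw [mul_assoc]
    refine Nat.mul_le_mul_left _ (le_trans (poly_mono Q ?_) (hC' φ.1))
    have h1 := sz_cnf_le hφ.sparse
    have h2 : 30 * (B + 1) * (φ.1 + 1) ^ 2 ≤ (30 * (B + 1) + sz par) * (φ.1 + 1) ^ 2 :=
      Nat.mul_le_mul_right _ (Nat.le_add_right _ _)
    show 2 ^ (φ.1 / h + c0) + sz φ + sz par ≤ _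
    omega
  · intro hsat
    rw [decide_eq_true_eq]
    intro w _
    rw [hgW, hy2 w, Bool.or_true]
    exact yesT hk hEκ (by omega)
      (Dvd.dvd.mul_left (Dvd.dvd.mul_right (Dvd.dvd.mul_right (dvd_refl 3) _) _) 2)
      (Dvd.intro _ rfl) r3 r4 r5.vars (r6 hsat)
  · intro hfar
    rw [decide_eq_false_iff_not]
    intro hall
    have hne : φ.2 ≠ [] := by
      intro h0
      have := hfar (fun _ => true)
      rw [h0] at this
      simp at this
    obtain ⟨w, hw, hlt⟩ := hno k hk κ hκE (rep2 M0 φ) (lev2 k M0 B φ.1) (r1 hne) r5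
      (r7 D hfar)
    have hwW : w < W := by
      refine lt_of_lt_of_le hw (le_trans ?_ hc2W)
      rw [mul_comm 2, pow_mul]
      exact Nat.pow_le_pow_left (hc2 φ.1 _ r2') 2
    have hlt' : (e + 1) * theTargetT κ k E M0 B φ < e * OPT (theInstT κ k E M0 B φ w) := by
      have h1 : (E + 1) * theTargetT κ k E M0 B φ < E * OPT (theInstT κ k E M0 B φ w) := hlt
      have h2 : E * ((e + 1) * theTargetT κ k E M0 B φ) ≤
          e * ((E + 1) * theTargetT κ k E M0 B φ) := by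
        have h3 : E * (e + 1) ≤ e * (E + 1) := by nlinarith
        calc E * ((e + 1) * theTargetT κ k E M0 B φ) = E * (e + 1) * theTargetT κ k E M0 B φ := by ring
          _ ≤ e * (E + 1) * theTargetT κ k E M0 B φ := Nat.mul_le_mul_right _ h3
          _ = _ := by ring
      have h4 : e * ((E + 1) * theTargetT κ k E M0 B φ) <
          e * (E * OPT (theInstT κ k E M0 B φ w)) := Nat.mul_lt_mul_of_pos_left h1 (by omega)
      have h5 : e * (E * OPT (theInstT κ k E M0 B φ w)) =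
          E * (e * OPT (theInstT κ k E M0 B φ w)) := by ring
      rw [h5] at h4
      exact Nat.lt_of_mul_lt_mul_left (h2.trans_lt h4)
    have := hall w hwW
    rw [hgW, hy3 w hlt'] at this
    simp at this
    exact hne this

end Pool.Agent.H.JS
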