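import Pool.Agent.H.MP_aeb38e_lc.Defs

/-!
Definitions used in the statement of the theorem on two machines.
-/

namespace Pool.Agent.H.JS

open Turing

/-- The instances with the two machines `0` and `1` and at most `k` jobs in which consecutive
operations of a job run on different machines and the processing times are at least `1` and at
most `b`. -/
def Two (k b : ℕ) (I : Shop) : Prop :=
  I.1 = 2 ∧ I.2.length ≤ k ∧ (∀ j i m p, IsOp I j i m p → m < 2 ∧ 1 ≤ p ∧ p ≤ b) ∧
    ∀ j i m p p', IsOp I j i m p → ¬ IsOp I j (i + 1) m p'

/-- The machine `tm` approximates, in time `t(length of the input)`, the minimum makespan of the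
instances in `Two k b` within the factor `1 + 1 / e`: it outputs a feasible schedule of makespan
at most `(1 + 1 / e) OPT`. The input is the instance together with `e`. -/
def IsSchemeTwo (k b e : ℕ) (t : ℕ → ℕ) (tm : FinTM2) (iA : tm.Γ tm.k₀ ≃ Bool)
    (oA : tm.Γ tm.k₁ ≃ Bool) : Prop :=
  ∀ I : Shop, Two k b I → ∃ s : List (List (List Bool)),
    Outputs tm iA oA (codePair codeShop codeNat (I, e)) (codeSched s)
      (t (codePair codeShop codeNat (I, e)).length) ∧
    Feasible I (startOf s) ∧ ∃ K, EndsBy I (startOf s) K ∧ e * K ≤ (e + 1) * OPT I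

/-- The machine `tm` separates, in time `t(length of the input)`, the instances in `Two k b` with
minimum makespan at most `K` from those with minimum makespan more than `(1 + 1 / e) K`. The
input is the instance together with `e` and `K`. -/
def IsGapTestTwo (k b e : ℕ) (t : ℕ → ℕ) (tm : FinTM2) (iA : tm.Γ tm.k₀ ≃ Bool)
    (oA : tm.Γ tm.k₁ ≃ Bool) : Prop :=
  ∀ (I : Shop) (K : ℕ), Two k b I → ∃ b' : Bool,
    Outputs tm iA oA (codePair codeShop (codePair codeNat codeNat) (I, e, K)) (codeBool b')
      (t (codePair codeShop (codePair codeNat codeNat) (I, e, K)).length) ∧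
    (OPT I ≤ K → b' = true) ∧ ((e + 1) * K < e * OPT I → b' = false)

end Pool.Agent.H.JS
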