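import Pool.Agent.H.MP_aeb38e_lc.InstB
import Pool.Agent.H.MP_aeb38e_lc.TW.Defs

/-!
The instance with two machines.

There are `2 k + 1` jobs: the jobs `0, ..., 2 k - 1` of the strong form (without machines) and the
clock `2 k`. Each job is a word with `T = R L` units, each unit has `S = 2 k + length cl` letters
(`cl` is the list of the coloured tests). The key of the letter `s` of the unit `P` is
`x = P S + s`. The letters `s < 2 k` align the job `s` with the clock, the letter `2 k + r` belongs
to the test number `r`. The letter with key `x` consists, in the word of the job `j`, of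
`mulx j x * f (nty k - rankx x)` pairs of operations (machine `0`, machine `1`) of length
`f (rankx x)`, where `f i = κ ^ i`.
-/

namespace Pool.Agent.H.JS

/-- The number of types. -/
def nty (k : ℕ) : ℕ := 22 * (2 * k) + 2 * k * (2 * k)

/-- The coloured test of the letter `s`. -/
def tst (k : ℕ) (cl : List ((ℕ × ℕ) × ℕ)) (s : ℕ) : (ℕ × ℕ) × ℕ := cl.getD (s - 2 * k) ((0, 0), 0)

/-- The number of letters of a unit. -/
def uS (k : ℕ) (cl : List ((ℕ × ℕ) × ℕ)) : ℕ := 2 * k + cl.length

/-- The rank of the type of the letter `s` of the unit `P`. -/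
def rank (φ : CNF) (k L w : ℕ) (cl : List ((ℕ × ℕ) × ℕ)) (P s : ℕ) : ℕ :=
  if s < 2 * k then 22 * s + (2 * digit 11 w (P % L) + P % 2)
  else 22 * (2 * k) + (2 * k * jobA φ k (tst k cl s).1 + jobB φ k (tst k cl s).1)

/-- The multiplicity of the letter `s` of the unit `P` in the word of the job `j`. -/
def mul (φ : CNF) (k d L : ℕ) (cl : List ((ℕ × ℕ) × ℕ)) (j P s : ℕ) : ℕ :=
  if s < 2 * k then
    (if (decide (j = s) || decide (j = 2 * k)) = true then 1 else 0)
  else if (decide (P % 3 = 2) && decide ((tst k cl s).2 = P % L / 3 / 65536)) = true then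
    (if j = 2 * k then 2
    else if ((decide (j = jobA φ k (tst k cl s).1) || decide (j = jobB φ k (tst k cl s).1)) &&
      decide (testMach φ k d (P % L / 3) j (P / L) (tst k cl s).1 = j)) = true then 2 else 0)
  else 0

/-- The rank of a key. -/
def rankx (φ : CNF) (k L w : ℕ) (cl : List ((ℕ × ℕ) × ℕ)) (x : ℕ) : ℕ :=
  rank φ k L w cl (x / uS k cl) (x % uS k cl)

/-- The multiplicity of a key. -/
def mulx (φ : CNF) (k d L : ℕ) (cl : List ((ℕ × ℕ) × ℕ)) (j x : ℕ) : ℕ :=
  mul φ k d L cl j (x / uS k cl) (x % uS k cl)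

/-- The word with `N` keys in which the letter `x` consists of `rep x` pairs of operations of
length `len x`. -/
def wordOps (N : ℕ) (rep len : ℕ → ℕ) : List (ℕ × ℕ) :=
  (List.range N).flatMap fun x => (List.range (2 * rep x)).map fun r => (r % 2, len x)

/-- The number of pairs of the letter `x` of the job `j`. -/
def repx (φ : CNF) (k d L w : ℕ) (cl : List ((ℕ × ℕ) × ℕ)) (f : ℕ → ℕ) (j x : ℕ) : ℕ :=
  mulx φ k d L cl j x * f (nty k - rankx φ k L w cl x)

/-- The length of the operations of the letter `x`. -/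
def lenx (φ : CNF) (k L w : ℕ) (cl : List ((ℕ × ℕ) × ℕ)) (f : ℕ → ℕ) (x : ℕ) : ℕ :=
  f (rankx φ k L w cl x)

/-- The instance. -/
def instT (φ : CNF) (k d L R w : ℕ) (f : ℕ → ℕ) : Shop :=
  (2, (List.range (2 * k + 1)).map fun j => wordOps (R * L * uS k (cols φ k))
    (repx φ k d L w (cols φ k) f j) (lenx φ k L w (cols φ k) f))

/-- The sum of the multiplicities. -/
def sumMul (φ : CNF) (k d L R : ℕ) : ℕ :=
  ((List.range (2 * k + 1)).flatMap fun j => (List.range (R * L * uS k (cols φ k))).flatMap
    fun x => List.range (mulx φ k d L (cols φ k) j x)).length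

/-- The target makespan. -/
def targetT (φ : CNF) (k d L R : ℕ) (f : ℕ → ℕ) : ℕ :=
  f (nty k) * (sumMul φ k d L R + 60 * k * (16 ^ (2 * d) * L))

end Pool.Agent.H.JS
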