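import Pool.Agent.H.MP_aeb38e_lc.TW.Over
import Pool.Agent.H.MP_aeb38e_lc.TW.Ops

/-!
The run of a schedule of a two machine instance, in terms of letters.
-/

namespace Pool.Agent.H.JS

open Finset Classical

/-- The time slots in which the letter `x` of the job `j` runs and no letter of the same length of
another job runs. -/
noncomputable def unmT (q X : ℕ) (len : ℕ → ℕ) (r : ℕ → ℕ → ℕ → Prop) (j x : ℕ) : Finset ℕ :=
  (range X).filter fun t => r j x t ∧ ¬ ∃ j' ≤ q, j' ≠ j ∧ ∃ x', r j' x' t ∧ len x' = len x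

/-- The run of a schedule: `r j x t` means that the job `j` executes in the time slot `t` an
operation of its letter `x`. -/
structure RunK (q N X U : ℕ) (rep : ℕ → ℕ → ℕ) (len : ℕ → ℕ) (r : ℕ → ℕ → ℕ → Prop) : Prop where
  lt : ∀ j ≤ q, ∀ x t, r j x t → x < N ∧ t < X ∧ 0 < rep j x
  uniq : ∀ j ≤ q, ∀ x x' t, r j x t → r j x' t → x = x'
  mono : ∀ j ≤ q, ∀ x x' t t', r j x t → r j x' t' → x < x' → t < t'
  card : ∀ j ≤ q, ∀ x < N, ((range X).filter fun t => r j x t).card = 2 * rep j x * len x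
  unm : ∑ j ∈ range (q + 1), ∑ x ∈ range N, (unmT q X len r j x).card ≤ U

/-- Each feasible schedule gives a run in which almost everything is matched. -/
theorem exists_runK (q N κ X : ℕ) (rep : ℕ → ℕ → ℕ) (len : ℕ → ℕ) (hlen : ∀ x < N, 0 < len x)
    (hκ : ∀ x < N, ∀ y < N, len x < len y → κ * len x ≤ len y) (st : ℕ → ℕ → ℕ)
    (hf : Feasible (2, (List.range (q + 1)).map fun j => wordOps N (rep j) len) st)
    (he : EndsBy (2, (List.range (q + 1)).map fun j => wordOps N (rep j) len) st X) :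
    ∃ (r : ℕ → ℕ → ℕ → Prop) (U : ℕ), RunK q N X U rep len r ∧
      κ * (U + 2 * ∑ j ∈ range (q + 1), ∑ x ∈ range N, rep j x * len x) ≤
        2 * κ * X + 4 * q * ∑ j ∈ range (q + 1), ∑ x ∈ range N, rep j x * len x := by
  choose lab hl1 hl2 hl3 using fun j => wordOps_spec N (rep j) len
  obtain ⟨n, hn⟩ : ∃ n : ℕ → ℕ, n = fun j => (wordOps N (rep j) len).length := ⟨_, rfl⟩
  obtain ⟨len', hlen'⟩ : ∃ len' : ℕ → ℕ → ℕ, len' = fun j i => len (lab j i) := ⟨_, rfl⟩
  have hnj : ∀ j, (wordOps N (rep j) len).length = n j := fun j => by rw [hn]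
  have hl : ∀ j i, len' j i = len (lab j i) := fun j i => by rw [hlen']
  have hlabN : ∀ j, ∀ i < n j, lab j i < N := fun j i hi => (hl1 j i (by rw [hnj]; exact hi)).2
  have hop : ∀ j ≤ q, ∀ i < n j, IsOp (2, (List.range (q + 1)).map fun j => wordOps N (rep j) len)
      j i (i % 2) (len' j i) := by
    intro j hj i hi
    refine ⟨wordOps N (rep j) len, ?_, ?_⟩
    · show ((List.range (q + 1)).map fun j => wordOps N (rep j) len)[j]? = _
      rw [List.getElem?_map, List.getElem?_range (Nat.lt_succ_of_le hj)]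
      rfl
    · rw [hl]
      exact (hl1 j i (by rw [hnj]; exact hi)).1
  obtain ⟨hf1, hf2⟩ := hf
  have hord : ∀ j ≤ q, ∀ i, i + 1 < n j → st j i + len' j i ≤ st j (i + 1) := by
    intro j hj i hi
    exact hf1 j i _ _ _ _ (hop j hj i (by omega)) (hop j hj (i + 1) hi)
  have hX : ∀ j ≤ q, ∀ i < n j, st j i + len' j i ≤ X := by
    intro j hj i hi
    exact he j i _ _ (hop j hj i hi)
  have hm : ∀ j ≤ q, ∀ j' ≤ q, j ≠ j' → ∀ i < n j, ∀ i' < n j', i % 2 = i' % 2 →
      st j i + len' j i ≤ st j' i' ∨ st j' i' + len' j' i' ≤ st j i := by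
    intro j hj j' hj' hne i hi i' hi' he
    have h1 := hop j' hj' i' hi'
    rw [← he] at h1
    exact hf2 j i j' i' _ _ _ (hop j hj i hi) h1 (fun h => hne (Prod.ext_iff.1 h).1)
  have hov := overlap q κ X n len' st
    (fun j _ i hi => by rw [hl]; exact hlen _ (hlabN j i hi))
    (fun j _ i hi j' _ i' hi' h => by
      rw [hl, hl] at h ⊢
      exact hκ _ (hlabN j i hi) _ (hlabN j' i' hi') h) hord hX hm
  have hW : ∑ j ∈ range (q + 1), ∑ i ∈ range (n j), len' j i =
      2 * ∑ j ∈ range (q + 1), ∑ x ∈ range N, rep j x * len x := by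
    rw [mul_sum]
    refine sum_congr rfl fun j _ => ?_
    rw [mul_sum, ← sum_fiberwise_of_maps_to (s := range (n j)) (t := range N) (g := lab j)
      fun i hi => mem_range.2 (hlabN j i (mem_range.1 hi))]
    refine sum_congr rfl fun x hx => ?_
    have h1 : ∀ i ∈ (range (n j)).filter (fun i => lab j i = x), len' j i = len x := by
      intro i hi
      rw [hl, (mem_filter.1 hi).2]
    rw [sum_congr rfl h1, sum_const, smul_eq_mul]
    have h2 := hl3 j x (mem_range.1 hx)
    rw [hnj] at h2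
    rw [h2, mul_assoc]
  rw [hW] at hov
  obtain ⟨r, hr⟩ : ∃ r : ℕ → ℕ → ℕ → Prop, r = fun j x t => ∃ i, RunOp n len' st j i t ∧ lab j i = x :=
    ⟨_, rfl⟩
  have hrm : ∀ j x t, r j x t ↔ ∃ i, RunOp n len' st j i t ∧ lab j i = x := fun j x t => by rw [hr]
  refine ⟨r, ∑ j ∈ range (q + 1), ∑ x ∈ range N, (unmT q X len r j x).card,
    ⟨?_, ?_, ?_, ?_, le_rfl⟩, ?_⟩
  · intro j hj x t h
    obtain ⟨i, h1, h2⟩ := (hrm _ _ _).1 h
    have hx : x < N := h2 ▸ hlabN j i h1.1
    refine ⟨hx, ?_, ?_⟩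
    · exact lt_of_lt_of_le h1.2.2 (hX j hj i h1.1)
    · have h3 := hl3 j x hx
      rw [hnj] at h3
      have h4 : 0 < ((range (n j)).filter fun i => lab j i = x).card :=
        card_pos.2 ⟨i, mem_filter.2 ⟨mem_range.2 h1.1, h2⟩⟩
      omega
  · intro j hj x x' t h h'
    obtain ⟨i, h1, h2⟩ := (hrm _ _ _).1 h
    obtain ⟨i', h1', h2'⟩ := (hrm _ _ _).1 h'
    rw [← h2, ← h2', TWOver.uniq hord hj h1 h1']
  · intro j hj x x' t t' h h' hxx
    obtain ⟨i, h1, h2⟩ := (hrm _ _ _).1 h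
    obtain ⟨i', h1', h2'⟩ := (hrm _ _ _).1 h'
    have h3 : i < i' := by
      by_contra hc
      have h4 := hl2 j i' i (not_lt.1 hc) (by rw [hnj]; exact h1.1)
      omega
    have h5 := TWOver.mono hord hj h3 h1'.1
    have h6 := h1.2.2
    have h7 := h1'.2.1
    omega
  · intro j hj x hx
    have h1 : ((range X).filter fun t => r j x t) =
        ((range (n j)).filter fun i => lab j i = x).biUnion
          fun i => Ico (st j i) (st j i + len' j i) := by
      ext t
      rw [mem_filter, mem_biUnion, hrm]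
      constructor
      · rintro ⟨-, i, h2, h3⟩
        exact ⟨i, mem_filter.2 ⟨mem_range.2 h2.1, h3⟩, mem_Ico.2 h2.2⟩
      · rintro ⟨i, h2, h3⟩
        obtain ⟨h4, h5⟩ := mem_filter.1 h2
        have h6 := mem_range.1 h4
        have h7 := mem_Ico.1 h3
        exact ⟨mem_range.2 (lt_of_lt_of_le h7.2 (hX j hj i h6)), i, ⟨h6, h7⟩, h5⟩
    rw [h1, card_biUnion]
    · have h2 : ∀ i ∈ (range (n j)).filter (fun i => lab j i = x),
          (Ico (st j i) (st j i + len' j i)).card = len x := by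
        intro i hi
        rw [Nat.card_Ico, Nat.add_sub_cancel_left, hl, (mem_filter.1 hi).2]
      rw [sum_congr rfl h2, sum_const, smul_eq_mul]
      have h3 := hl3 j x hx
      rw [hnj] at h3
      rw [h3]
    · intro i hi i' hi' hne
      rw [Function.onFun, disjoint_left]
      intro t h2 h3
      exact hne (TWOver.uniq hord hj
        ⟨mem_range.1 (mem_filter.1 (mem_coe.1 hi)).1, mem_Ico.1 h2⟩
        ⟨mem_range.1 (mem_filter.1 (mem_coe.1 hi')).1, mem_Ico.1 h3⟩)
  · have hU : ∑ j ∈ range (q + 1), ∑ x ∈ range N, (unmT q X len r j x).card ≤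
        ∑ j ∈ range (q + 1), ((range X).filter fun t => ∃ i, RunOp n len' st j i t ∧
        ¬ ∃ j' ≤ q, j' ≠ j ∧ ∃ i', RunOp n len' st j' i' t ∧ len' j' i' = len' j i).card := by
      refine sum_le_sum fun j hj => ?_
      have hj' : j ≤ q := Nat.lt_succ_iff.1 (mem_range.1 hj)
      rw [← card_biUnion]
      · refine card_le_card fun t ht => ?_
        obtain ⟨x, -, ht⟩ := mem_biUnion.1 ht
        obtain ⟨h1, h2, h3⟩ := mem_filter.1 ht
        obtain ⟨i, h4, h5⟩ := (hrm _ _ _).1 h2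
        refine mem_filter.2 ⟨h1, i, h4, ?_⟩
        rintro ⟨j', h6, h7, i', h8, h9⟩
        refine h3 ⟨j', h6, h7, lab j' i', (hrm _ _ _).2 ⟨i', h8, rfl⟩, ?_⟩
        rw [hl, hl, h5] at h9
        exact h9
      · intro x _ x' _ hne
        rw [Function.onFun, disjoint_left]
        intro t h1 h2
        obtain ⟨-, h3, -⟩ := mem_filter.1 h1
        obtain ⟨-, h4, -⟩ := mem_filter.1 h2
        obtain ⟨i, h5, h6⟩ := (hrm _ _ _).1 h3
        obtain ⟨i', h7, h8⟩ := (hrm _ _ _).1 h4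
        exact hne (by rw [← h6, ← h8, TWOver.uniq hord hj' h5 h7])
    calc _ ≤ κ * (∑ j ∈ range (q + 1), ((range X).filter fun t => ∃ i, RunOp n len' st j i t ∧
        ¬ ∃ j' ≤ q, j' ≠ j ∧ ∃ i', RunOp n len' st j' i' t ∧ len' j' i' = len' j i).card +
        2 * ∑ j ∈ range (q + 1), ∑ x ∈ range N, rep j x * len x) :=
          Nat.mul_le_mul_left _ (Nat.add_le_add_right hU _)
      _ ≤ _ := hov
      _ = _ := by ring

end Pool.Agent.H.JS
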