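import Pool.Agent.H.MP_aeb38e_lc.TW.Cat

/-!
Schedules of jobs that alternate with one common length.
-/

namespace Pool.Agent.H.JS

open Finset

/-- `n` pairs of operations of length `l` -/
def piece (l n : ℕ) : List (ℕ × ℕ) := (List.range (2 * n)).map fun r => (r % 2, l)

theorem piece_add (l m n : ℕ) : piece l (m + n) = piece l m ++ piece l n := by
  unfold piece
  rw [Nat.mul_add, List.range_add, List.map_append, List.map_map]
  congr 1
  refine List.map_congr_left fun r _ => ?_
  simp only [Function.comp_apply, Nat.mul_add_mod]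

namespace TWLock

theorem isOp_iff (J l : ℕ) (n : ℕ → ℕ) (j i m p : ℕ) :
    IsOp (2, (List.range J).map fun j => piece l (n j)) j i m p ↔
      j < J ∧ i < 2 * n j ∧ m = i % 2 ∧ p = l := by
  unfold IsOp piece
  constructor
  · rintro ⟨job, h1, h2⟩
    simp only [List.getElem?_map, Option.map_eq_some_iff] at h1
    obtain ⟨x, hx, rfl⟩ := h1
    simp only [List.getElem?_map, Option.map_eq_some_iff] at h2
    obtain ⟨y, hy, h3⟩ := h2
    rw [List.getElem?_eq_some_iff] at hx hy
    obtain ⟨hx1, hx2⟩ := hx
    obtain ⟨hy1, hy2⟩ := hy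
    rw [List.getElem_range] at hx2 hy2
    rw [List.length_range] at hx1 hy1
    subst hx2 hy2
    simp only [Prod.mk.injEq] at h3
    exact ⟨hx1, hy1, h3.1.symm, h3.2.symm⟩
  · rintro ⟨h1, h2, rfl, rfl⟩
    refine ⟨(List.range (2 * n j)).map fun r => (r % 2, p), ?_, ?_⟩
    · simp [h1]
    · simp [h2]

theorem step (l i i' : ℕ) (h : i < i') : l * i + l ≤ l * i' := by
  calc l * i + l = l * (i + 1) := by ring
    _ ≤ l * i' := Nat.mul_le_mul_left l h

end TWLock

open TWLock

/-- one job after the other -/
theorem fits_seq (J l : ℕ) (n : ℕ → ℕ) :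
    Fits ((List.range J).map fun j => piece l (n j)) (2 * l * ∑ j ∈ range J, n j) := by
  have key : ∀ j i, i < 2 * n j → 2 * l * ∑ x ∈ range j, n x + l * i + l ≤
      2 * l * ∑ x ∈ range (j + 1), n x := by
    intro j i h
    have h1 := step l i _ h
    rw [sum_range_succ, Nat.mul_add, Nat.add_assoc]
    refine Nat.add_le_add_left (h1.trans (le_of_eq ?_)) _
    ring
  have mono : ∀ j j', j ≤ j' → 2 * l * ∑ x ∈ range j, n x ≤ 2 * l * ∑ x ∈ range j', n x := by
    intro j j' h
    exact Nat.mul_le_mul_left _ (sum_le_sum_of_subset (range_subset_range.2 h))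
  refine ⟨fun j i => 2 * l * ∑ x ∈ range j, n x + l * i, ⟨?_, ?_⟩, ?_⟩
  · intro j i m p m' p' h _
    rw [isOp_iff] at h
    obtain ⟨_, _, _, rfl⟩ := h
    refine le_of_eq ?_
    ring
  · intro j i j' i' m p p' h h' hne
    rw [isOp_iff] at h h'
    obtain ⟨_, hi, _, rfl⟩ := h
    obtain ⟨_, hi', _, rfl⟩ := h'
    rcases lt_trichotomy j j' with hj | hj | hj
    · left
      exact ((key j i hi).trans (mono _ _ hj)).trans (Nat.le_add_right _ _)
    · subst hj
      have hii : i ≠ i' := fun e => hne (by rw [e])
      rcases lt_or_gt_of_ne hii with h | h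
      · left
        have := step p' i i' h
        dsimp only
        omega
      · right
        have := step p' i' i h
        dsimp only
        omega
    · right
      exact ((key j' i' hi').trans (mono _ _ hj)).trans (Nat.le_add_right _ _)
  · intro j i m p h
    rw [isOp_iff] at h
    obtain ⟨hj, hi, _, rfl⟩ := h
    exact (key j i hi).trans (mono _ _ hj)

/-- two jobs in lockstep -/
theorem fits_lock (J l N a b : ℕ) (n : ℕ → ℕ) (ha : a < J) (hb : b < J) (hab : a ≠ b)
    (hna : n a = N) (hnb : n b = N) (hn : ∀ j < J, j ≠ a → j ≠ b → n j = 0) :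
    Fits ((List.range J).map fun j => piece l (n j)) (2 * l * N + l) := by
  have cases : ∀ j i, j < J → i < 2 * n j → (j = a ∨ j = b) ∧ i < 2 * N := by
    intro j i hj hi
    by_cases h1 : j = a
    · subst h1
      exact ⟨Or.inl rfl, by omega⟩
    by_cases h2 : j = b
    · subst h2
      exact ⟨Or.inr rfl, by omega⟩
    rw [hn j hj h1 h2] at hi
    omega
  refine ⟨fun j i => if j = a then l * i else l * i + l, ⟨?_, ?_⟩, ?_⟩
  · intro j i m p m' p' h _
    rw [isOp_iff] at h
    obtain ⟨_, _, _, rfl⟩ := h
    dsimp only
    split_ifs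
    · exact step p i (i + 1) (Nat.lt_succ_self i)
    · have := step p i (i + 1) (Nat.lt_succ_self i)
      omega
  · intro j i j' i' m p p' h h' hne
    rw [isOp_iff] at h h'
    obtain ⟨hj, hi, hm, rfl⟩ := h
    obtain ⟨hj', hi', hm', rfl⟩ := h'
    obtain ⟨c, _⟩ := cases j i hj hi
    obtain ⟨c', _⟩ := cases j' i' hj' hi'
    dsimp only
    by_cases hjj : j = j'
    · subst hjj
      have hii : i ≠ i' := fun e => hne (by rw [e])
      rcases lt_or_gt_of_ne hii with h | h
      · left
        have := step p' i i' h
        split_ifs <;> omega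
      · right
        have := step p' i' i h
        split_ifs <;> omega
    rcases c with rfl | rfl <;> rcases c' with rfl | rfl
    · exact absurd rfl hjj
    · rw [if_pos rfl, if_neg hab.symm]
      rcases Nat.lt_or_ge i (i' + 1) with h | h
      · left
        have := Nat.mul_le_mul_left p' (Nat.lt_succ_iff.1 h)
        omega
      · right
        have h2 : i' + 1 < i := by omega
        have := step p' (i' + 1) i h2
        rw [Nat.mul_add, Nat.mul_one] at this
        exact this
    · rw [if_pos rfl, if_neg hab.symm]
      rcases Nat.lt_or_ge i' (i + 1) with h | h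
      · right
        have := Nat.mul_le_mul_left p' (Nat.lt_succ_iff.1 h)
        omega
      · left
        have h2 : i + 1 < i' := by omega
        have := step p' (i + 1) i' h2
        rw [Nat.mul_add, Nat.mul_one] at this
        exact this
    · exact absurd rfl hjj
  · intro j i m p h
    rw [isOp_iff] at h
    obtain ⟨hj, hi, _, rfl⟩ := h
    obtain ⟨_, h2⟩ := cases j i hj hi
    have h3 := step p i _ h2
    have h4 : p * (2 * N) = 2 * p * N := by ring
    dsimp only
    split_ifs <;> omega

/-- three jobs, pairwise in lockstep -/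
theorem fits_lock3 (J l N a b c : ℕ) (n : ℕ → ℕ) (ha : a < J) (hb : b < J) (hc : c < J)
    (hab : a ≠ b) (hac : a ≠ c) (hbc : b ≠ c) (hna : n a = 2 * N) (hnb : n b = 2 * N)
    (hnc : n c = 2 * N) (hn : ∀ j < J, j ≠ a → j ≠ b → j ≠ c → n j = 0) :
    Fits ((List.range J).map fun j => piece l (n j)) (6 * l * N + 3 * l) := by
  have h1 := fits_lock J l N a b (fun j => if j = a ∨ j = b then N else 0) ha hb hab
    (by simp) (by simp) (fun j _ h1 h2 => by simp [h1, h2])
  have h2 := fits_lock J l N a c (fun j => if j = a ∨ j = c then N else 0) ha hc hac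
    (by simp) (by simp) (fun j _ h1 h2 => by simp [h1, h2])
  have h3 := fits_lock J l N b c (fun j => if j = b ∨ j = c then N else 0) hb hc hbc
    (by simp) (by simp) (fun j _ h1 h2 => by simp [h1, h2])
  have h4 := (h1.append h2).append h3
  have h5 : ((List.range J).map fun j => (piece l (if j = a ∨ j = b then N else 0) ++
      piece l (if j = a ∨ j = c then N else 0)) ++ piece l (if j = b ∨ j = c then N else 0)) =
      (List.range J).map fun j => piece l (n j) := by
    refine List.map_congr_left fun j hj => ?_
    rw [List.mem_range] at hj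
    rw [← piece_add, ← piece_add]
    congr 1
    by_cases ja : j = a
    · subst ja
      simp only [true_or, if_true, hab, hac, or_self, if_false, hna]
      omega
    by_cases jb : j = b
    · subst jb
      simp only [true_or, or_true, if_true, ja, hbc, or_self, if_false, hnb]
      omega
    by_cases jc : j = c
    · subst jc
      simp only [or_true, if_true, ja, jb, or_self, if_false, hnc]
      omega
    simp only [ja, jb, jc, or_self, if_false, hn j hj ja jb jc]
  rw [h5] at h4
  refine h4.mono (le_of_eq ?_)
  ring

end Pool.Agent.H.JS
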