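import Pool.Agent.H.MP_aeb38e_lc.TW.CoreT
import Pool.Agent.H.MP_aeb38e_lc.Main2

/-!
The main theorem on two machines.
-/

namespace Pool.Agent.H.JS

open Turing Pool.Agent.H.MP_5be563_lc.PT

theorem IsSchemeTwo.le {k b e : ℕ} {t t' : ℕ → ℕ} {tm : FinTM2} {iA : tm.Γ tm.k₀ ≃ Bool}
    {oA : tm.Γ tm.k₁ ≃ Bool} (h : IsSchemeTwo k b e t tm iA oA) (ht : ∀ n, t n ≤ t' n) :
    IsSchemeTwo k b e t' tm iA oA := by
  intro I hI
  obtain ⟨s, h1, h2⟩ := h I hI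
  exact ⟨s, outputs_le h1 (ht _), h2⟩

theorem mainT (h : GapETH) : ∃ (e₀ b : ℕ) (P : ℕ → ℕ), 0 < e₀ ∧
    (∀ c k e, b * (c + 1) ≤ k → e₀ ≤ e → ∀ (tm : FinTM2) (iA : tm.Γ tm.k₀ ≃ Bool)
      (oA : tm.Γ tm.k₁ ≃ Bool) (C : ℕ), ¬ IsSchemeTwo k (P k) e (fun n => C * (n ^ c + 1)) tm iA oA ∧
        ¬ IsGapTestTwo k (P k) e (fun n => C * (n ^ c + 1)) tm iA oA) ∧
    (∀ e, e₀ ≤ e → ∀ (f : ℕ → ℕ) (p : Polynomial ℕ), ¬ ∃ (tm : FinTM2) (iA : tm.Γ tm.k₀ ≃ Bool)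
      (oA : tm.Γ tm.k₁ ≃ Bool), ∀ k, IsSchemeTwo k (P k) e (fun n => f k * p.eval n) tm iA oA) := by
  have key : ∃ (e₀ b : ℕ) (P : ℕ → ℕ), 0 < e₀ ∧
      (∀ c k e, b * (c + 1) ≤ k → e₀ ≤ e → ∀ (tm : FinTM2) (iA : tm.Γ tm.k₀ ≃ Bool)
        (oA : tm.Γ tm.k₁ ≃ Bool) (C : ℕ),
        ¬ IsSchemeTwo k (P k) e (fun n => C * (n ^ c + 1)) tm iA oA ∧
          ¬ IsGapTestTwo k (P k) e (fun n => C * (n ^ c + 1)) tm iA oA) := by
    obtain ⟨B, D, H, hD, hH, hGE⟩ := gapETHB_of_gapETH h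
    obtain ⟨acc1, ha1, ha1'⟩ := acc_scheme
    obtain ⟨acc2, ha2, ha2'⟩ := acc_test
    obtain ⟨E, hE, core⟩ := coreT hD hH hGE
    obtain ⟨b1, hb1⟩ := core (inp := fun x => (enc (x.1, x.2.1)).bits)
      (poly_bits (f := fun x : Shop × ℕ × ℕ => (x.1, x.2.1)) (by fun_prop))
      (by
        intro I e K
        have h1 : (enc (I, e)).bits.length = sz (I, e) := bits_length2 _
        have h2 : sz (I, e) = sz I + sz e + 1 := sz_pair _ _
        show (enc (I, e)).bits.length ≤ _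
        omega) ha1
    obtain ⟨b2, hb2⟩ := core (inp := fun x => (enc x).bits)
      (poly_bits (f := fun x : Shop × ℕ × ℕ => x) Poly.id)
      (by
        intro I e K
        have h1 : (enc (I, e, K)).bits.length = sz (I, e, K) := bits_length2 _
        have h2 : sz (I, e, K) = sz I + sz (e, K) + 1 := sz_pair _ _
        have h3 : sz (e, K) = sz e + sz K + 1 := sz_pair _ _
        show (enc (I, e, K)).bits.length ≤ _
        omega) ha2
    refine ⟨E, 2 * (b1 + b2 + 1) + 1,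
      fun k => (96 * ((k - 1) / 2) * E + 2) ^ nty ((k - 1) / 2), hE,
      fun c k e hm hEe tm iA oA C => ?_⟩
    have hbk : (b1 + b2 + 1) * (c + 1) ≤ (k - 1) / 2 := by
      rw [Nat.le_div_iff_mul_le (by norm_num)]
      have h1 : (2 * (b1 + b2 + 1) + 1) * (c + 1) = (b1 + b2 + 1) * (c + 1) * 2 + (c + 1) := by
        ring
      omega
    have hk : 0 < (k - 1) / 2 := by
      have : 0 < (b1 + b2 + 1) * (c + 1) := by positivity
      omega
    have hk1 : b1 * (c + 1) ≤ (k - 1) / 2 :=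
      (Nat.mul_le_mul_right _ (by omega)).trans hbk
    have hk2 : b2 * (c + 1) ≤ (k - 1) / 2 :=
      (Nat.mul_le_mul_right _ (by omega)).trans hbk
    have hm4 : 2 * ((k - 1) / 2) + 1 ≤ k := by omega
    refine ⟨fun hs => ?_, fun hs => ?_⟩
    · refine hb1 c _ k e hk1 hk hm4 hEe tm iA oA C fun I K hI => ?_
      obtain ⟨s, h1, h2, K', h3, h4⟩ := hs I hI
      refine ⟨codeSched s, ?_, fun hle => ?_, fun hlt => ?_⟩
      · show Outputs tm iA oA (enc (I, _)).bits _ (C * ((enc (I, _)).bits.length ^ c + 1))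
        rw [bits_in1]
        exact h1
      · rw [ha1']
        exact ⟨K', h3, h4.trans (Nat.mul_le_mul_left _ hle)⟩
      · rw [← Bool.not_eq_true, ha1']
        rintro ⟨K'', h5, h6⟩
        have h7 := OPT_le h2 h5
        have h8 := Nat.mul_le_mul_left e h7
        omega
    · refine hb2 c _ k e hk2 hk hm4 hEe tm iA oA C fun I K hI => ?_
      obtain ⟨b, h1, h2, h3⟩ := hs I K hI
      refine ⟨codeBool b, ?_, fun hle => ?_, fun hlt => ?_⟩
      · show Outputs tm iA oA (enc (I, _, K)).bits _ (C * ((enc (I, _, K)).bits.length ^ c + 1))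
        rw [bits_in2]
        exact h1
      · rw [ha2']; exact h2 hle
      · rw [ha2']; exact h3 hlt
  obtain ⟨e₀, b, P, he₀, hb⟩ := key
  refine ⟨e₀, b, P, he₀, hb, fun e he f p hex => ?_⟩
  obtain ⟨tm, iA, oA, hs⟩ := hex
  obtain ⟨A, hA⟩ := eval_le_pow p
  refine (hb p.natDegree (b * (p.natDegree + 1)) e le_rfl he tm iA oA
    (f (b * (p.natDegree + 1)) * A)).1 ((hs _).le fun n => ?_)
  rw [mul_assoc]
  exact Nat.mul_le_mul_left _ (hA n)

end Pool.Agent.H.JS
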