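import Pool.Agent.H.MP_aeb38e_lc.TW.Track

/-!
A schedule of small makespan gives a run in which almost everything is matched.
-/

namespace Pool.Agent.H.JS

open Finset Classical

namespace TWNoA

/-- The arithmetic. -/
theorem arith {κ U X Th Mu k E A : ℕ} (hk : 0 < k) (hE : 0 < E) (hκ : 96 * k * E ≤ κ)
    (h1 : κ * (U + 2 * (Th * Mu)) ≤ 2 * κ * X + 4 * (2 * k) * (Th * Mu))
    (h2 : Mu ≤ 12 * k * (E * A)) (h3 : E * X ≤ (E + 1) * (Th * (Mu + 60 * k * A))) :
    U ≤ 265 * k * A * Th := by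
  have hκ0 : 0 < κ := lt_of_lt_of_le (by positivity) hκ
  have a1 : E * (κ * (U + 2 * (Th * Mu))) ≤ E * (2 * κ * X + 4 * (2 * k) * (Th * Mu)) :=
    Nat.mul_le_mul_left _ h1
  have a2 : 2 * κ * (E * X) ≤ 2 * κ * ((E + 1) * (Th * (Mu + 60 * k * A))) :=
    Nat.mul_le_mul_left _ h3
  have a3 : κ * Th * Mu ≤ κ * Th * (12 * k * (E * A)) := Nat.mul_le_mul_left _ h2
  have a4 : 8 * k * E * Th * Mu ≤ 8 * k * E * Th * (12 * k * (E * A)) := Nat.mul_le_mul_left _ h2
  have a5 : 96 * k * E * (k * E * A * Th) ≤ κ * (k * E * A * Th) := Nat.mul_le_mul_right _ hκ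
  have a6 : κ * k * A * Th * 1 ≤ κ * k * A * Th * E := Nat.mul_le_mul_left _ hE
  have a7 : κ * E * U ≤ κ * E * (265 * k * A * Th) := by nlinarith
  exact Nat.le_of_mul_le_mul_left a7 (by positivity)

end TWNoA

/-- A schedule of small makespan has a run in which almost everything is matched. -/
theorem run_of_sched {φ : CNF} {k d L E w κ : ℕ} {st : ℕ → ℕ → ℕ} {X : ℕ} (hk : 0 < k)
    (hE : 0 < E) (hκ : 96 * k * E ≤ κ)
    (hf : Feasible (instT φ k d L (blocks d E) w (fun i => κ ^ i)) st)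
    (he : EndsBy (instT φ k d L (blocks d E) w (fun i => κ ^ i)) st X)
    (hX : E * X ≤ (E + 1) * targetT φ k d L (blocks d E) (fun i => κ ^ i)) :
    ∃ (r : ℕ → ℕ → ℕ → Prop) (U : ℕ), RunT φ k d L (blocks d E) w κ X U r ∧
      U ≤ 265 * k * (16 ^ (2 * d) * L) * κ ^ nty k := by
  have hκ1 : 1 < κ := by
    have h1 : 1 ≤ k * E := Nat.mul_pos hk hE
    have h2 : 96 * (k * E) ≤ κ := by rw [← mul_assoc]; exact hκ
    omega
  have hκ0 : 0 < κ := by omega
  obtain ⟨r, U, hr, hU⟩ := exists_runK (2 * k) (blocks d E * L * uS k (cols φ k)) κ X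
    (repx φ k d L w (cols φ k) (fun i => κ ^ i)) (lenx φ k L w (cols φ k) (fun i => κ ^ i))
    (fun x _ => pow_pos hκ0 _) (fun x _ y _ h => lenx_sep hκ1 h) st hf he
  refine ⟨r, U, hr, ?_⟩
  have hsum : ∑ j ∈ range (2 * k + 1), ∑ x ∈ range (blocks d E * L * uS k (cols φ k)),
      repx φ k d L w (cols φ k) (fun i => κ ^ i) j x *
        lenx φ k L w (cols φ k) (fun i => κ ^ i) x =
      κ ^ nty k * sumMul φ k d L (blocks d E) := by
    rw [sumMul_eq, mul_sum]
    refine sum_congr rfl fun j _ => ?_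
    rw [mul_sum]
    refine sum_congr rfl fun x _ => ?_
    rw [repx_mul_lenx hk, mul_comm]
  rw [hsum] at hU
  have hmu : sumMul φ k d L (blocks d E) ≤ 12 * k * (E * (16 ^ (2 * d) * L)) := by
    refine (sumMul_le hk).trans (le_of_eq ?_)
    rw [blocks]
    ring
  exact TWNoA.arith hk hE hκ hU hmu hX

end Pool.Agent.H.JS
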