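import Pool.Agent.H.MP_aeb38e_lc.TW.Track

/-!
A violated test leaves a letter of the clock unmatched.
-/

namespace Pool.Agent.H.JS

open Finset Classical

theorem Tst_mach {φ : CNF} {k d : ℕ} {p : ℕ → ℕ} {x : ℕ × ℕ} {c : ℕ}
    (hv : viol φ k d p x = true) {j : ℕ} (hj : jobA φ k x = j ∨ jobB φ k x = j) :
    testMach φ k d (slotB φ k d p x c) j (p j) x = 2 * k + jobA φ k x := by
  obtain ⟨e1, e2, e3, e4, e5⟩ := slotB_spec φ k d p x c
  unfold testMach
  rw [e2, e3, e4, e5]
  rw [if_pos]
  unfold viol at hv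
  unfold lamC lamV at *
  rw [hv, Bool.true_and]
  rcases hj with rfl | rfl
  · simp
  · simp

/-- the letter of a coloured test -/
theorem Tst_letter {φ : CNF} {k : ℕ} {y : (ℕ × ℕ) × ℕ} (hy : y ∈ cols φ k) :
    ∃ s, 2 * k ≤ s ∧ s < uS k (cols φ k) ∧ tst k (cols φ k) s = y := by
  obtain ⟨i, hi, he⟩ := List.getElem_of_mem hy
  refine ⟨2 * k + i, Nat.le_add_right _ _, Nat.add_lt_add_left hi _, ?_⟩
  unfold tst
  rw [Nat.add_sub_cancel_left, List.getD_eq_getElem _ _ hi, he]

theorem Tst_slot_lt {φ : CNF} {k d B L : ℕ} {p : ℕ → ℕ} {x : ℕ × ℕ} {c : ℕ} (hc : c < B)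
    (hL : 3 * 65536 * B < L) : 3 * slotB φ k d p x c + 2 + 1 < L := by
  have h1 := (slotB_spec φ k d p x c).1
  omega

/-- the claim: a violated test whose jobs are tracked at the unit `u` and the next one has an
unmatched letter of the clock -/
theorem Tst_claim {φ : CNF} {k d L R w κ X U B : ℕ} {r : ℕ → ℕ → ℕ → Prop} (hk : 0 < k)
    (hκ : 1 < κ) (h : RunT φ k d L R w κ X U r) (hN : ∀ y ∈ cols φ k, y.2 < B)
    (hL : 3 * 65536 * B < L) (h3 : 3 ∣ L) (p0 : ℕ) (hp0 : p0 < R) (p : ℕ → ℕ)
    {x : ℕ × ℕ} {c s u : ℕ} (hxc : (x, c) ∈ cols φ k) (hv : viol φ k d p x = true)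
    (hu : u = 3 * slotB φ k d p x c + 2)
    (hs1 : 2 * k ≤ s) (hs2 : s < uS k (cols φ k)) (hs3 : tst k (cols φ k) s = (x, c))
    (hgood : ∀ j < 2 * k, jobA φ k x = j ∨ jobB φ k x = j → ∀ δ < 2, p j * L + (u + δ) < R * L ∧
      ∃ t, r (2 * k) ((p0 * L + (u + δ)) * uS k (cols φ k) + j) t ∧
        r j ((p j * L + (u + δ)) * uS k (cols φ k) + j) t) :
    κ ^ nty k ≤ (unmX φ k L w κ X r (2 * k) ((p0 * L + u) * uS k (cols φ k) + s)).card := by
  have hcB : c < B := hN _ hxc
  have hu1 : u + 1 < L := by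
    rw [hu]
    exact Tst_slot_lt hcB hL
  have huL : u < L := by omega
  obtain ⟨v, hv3⟩ := h3
  set S := uS k (cols φ k) with hS
  have hS0 : 0 < S := by omega
  -- the quotient and the remainder of the key
  have q1 : ((p0 * L + u) * S + s) / S = p0 * L + u := by
    rw [mul_comm, Nat.mul_add_div hS0, Nat.div_eq_of_lt hs2, add_zero]
  have q2 : ((p0 * L + u) * S + s) % S = s := by
    rw [Nat.mul_add_mod', Nat.mod_eq_of_lt hs2]
  have hum3 : ∀ q, (q * L + u) % 3 = 2 := by
    intro q
    rw [hu, hv3, show q * (3 * v) + (3 * slotB φ k d p x c + 2) =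
      2 + 3 * (q * v + slotB φ k d p x c) by ring, Nat.add_mul_mod_self_left]
  have humL : ∀ q, (q * L + u) % L = u := by
    intro q
    rw [Nat.mul_add_mod', Nat.mod_eq_of_lt huL]
  have hudL : ∀ q, (q * L + u) / L = q := by
    intro q
    rw [mul_comm, Nat.mul_add_div (by omega), Nat.div_eq_of_lt huL, add_zero]
  have hu3 : u / 3 = slotB φ k d p x c := by omega
  have hslot := (slotB_spec φ k d p x c).1
  have hmul : mulx φ k d L (cols φ k) (2 * k) ((p0 * L + u) * S + s) = 2 := by
    unfold mulx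
    rw [← hS, q1, q2]
    refine mul_test_clock hs1 (hum3 p0) ?_
    rw [hs3, humL, hu3, hslot]
  have hlt : (p0 * L + u) * S + s < R * L * S := by
    have h1 : p0 * L + u + 1 ≤ R * L := by
      calc p0 * L + u + 1 ≤ p0 * L + L := by omega
        _ = (p0 + 1) * L := by ring
        _ ≤ R * L := Nat.mul_le_mul_right L hp0
    calc (p0 * L + u) * S + s < (p0 * L + u) * S + S := by omega
      _ = (p0 * L + u + 1) * S := by ring
      _ ≤ R * L * S := Nat.mul_le_mul_right S h1
  have hcard := h.card (2 * k) le_rfl _ hlt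
  have hcard2 : ((range X).filter fun t => r (2 * k) ((p0 * L + u) * S + s) t).card =
      4 * κ ^ nty k := by
    rw [hcard, mul_assoc, repx_mul_lenx hk, hmul]
    ring
  have hsub : ((range X).filter fun t => r (2 * k) ((p0 * L + u) * S + s) t) ⊆
      unmX φ k L w κ X r (2 * k) ((p0 * L + u) * S + s) := by
    intro t ht
    obtain ⟨ht1, ht2⟩ := mem_filter.1 ht
    refine mem_filter.2 ⟨ht1, ht2, ?_⟩
    rintro ⟨j, hj1, hj2, x', hr, hlen⟩
    have hj : j < 2 * k := lt_of_le_of_ne hj1 hj2
    rw [lenx_eq_iff hκ] at hlen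
    unfold rankx at hlen
    rw [← hS, q1, q2] at hlen
    obtain ⟨a1, a2, a3⟩ := (rank_test hk hs1).1 hlen.symm
    obtain ⟨b1, b2, b3⟩ := h.lt j hj1 x' t hr
    have b4 : 0 < mul φ k d L (cols φ k) j (x' / S) (x' % S) := by
      unfold repx mulx at b3
      exact Nat.pos_of_ne_zero fun h0 => by
        rw [← hS, h0, zero_mul] at b3
        exact absurd b3 (lt_irrefl 0)
    obtain ⟨c1, c2, c3⟩ := mul_test_pos a1 b4
    have c4 := c3.resolve_left hj2
    have hs' : x' % S < S := Nat.mod_lt _ hS0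
    have hmem := tst_mem a1 hs'
    -- the job is one of the two jobs of the test
    have hjx : jobA φ k x = j ∨ jobB φ k x = j := by
      rw [hs3] at a2 a3
      rcases c4.1 with c5 | c5
      · left
        rw [c5]
        exact a2
      · right
        rw [c5]
        exact a3
    obtain ⟨_, t1, d1, d2⟩ := hgood j hj hjx 0 (by norm_num)
    obtain ⟨_, t2, d3, d4⟩ := hgood j hj hjx 1 (by norm_num)
    rw [add_zero] at d1 d2
    have e1 : t1 < t := h.mono (2 * k) le_rfl _ _ _ _ d1 ht2 (by omega)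
    have e2 : t < t2 := by
      refine h.mono (2 * k) le_rfl _ _ _ _ ht2 d3 ?_
      have : (p0 * L + (u + 1)) * S = (p0 * L + u) * S + S := by ring
      omega
    have e3 : (p j * L + u) * S + j ≤ x' := by
      by_contra hcon
      exact absurd (h.mono j hj1 _ _ _ _ hr d2 (not_le.1 hcon)) (by omega)
    have e4 : x' ≤ (p j * L + (u + 1)) * S + j := by
      by_contra hcon
      exact absurd (h.mono j hj1 _ _ _ _ d4 hr (not_le.1 hcon)) (by omega)
    have e5 : x' / S = p j * L + u := by
      have f1 : p j * L + u ≤ x' / S := by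
        rw [Nat.le_div_iff_mul_le hS0]
        omega
      have f2 : x' / S < p j * L + u + 1 := by
        by_contra hcon
        rw [not_lt] at hcon
        have f3 := Nat.mul_le_mul_right S hcon
        have f4 := Nat.div_add_mod' x' S
        have f5 : (p j * L + u + 1) * S = (p j * L + (u + 1)) * S := by ring
        omega
      omega
    rw [e5, humL, hudL] at c4
    rw [e5, humL, hu3, hslot] at c2
    rw [hu3] at c4
    have g1 : tst k (cols φ k) (x' % S) = (x, c) := by
      refine colour_proper (meet φ k) meet_symm (tests φ k) _ (x, c) hmem hxc ?_ c2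
      exact meet_of_job (by rcases c4.1 with c5 | c5
                            · exact Or.inl c5.symm
                            · exact Or.inr c5.symm) hjx
    have g2 := c4.2
    rw [g1] at g2
    have g3 := Tst_mach (c := c) hv hjx
    simp only at g2
    rw [g3] at g2
    omega
  have := card_le_card hsub
  rw [hcard2] at this
  have hp : 0 < κ ^ nty k := Nat.pow_pos (by omega)
  omega

/-- Let `p0` be a block of the clock, and let `(p0 L + u, p j L + u)` be matched rows of the clock
and of the job `j` for all `(u, j)` outside `bad`. Then each violated test either has a job that is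
bad at its unit or at the next one, or its letter of the clock is unmatched. -/
theorem viol_count {φ : CNF} {k d L R w κ X U B : ℕ} {r : ℕ → ℕ → ℕ → Prop} (hk : 0 < k)
    (hκ : 1 < κ) (h : RunT φ k d L R w κ X U r) (hN : ∀ y ∈ cols φ k, y.2 < B)
    (hL : 3 * 65536 * B < L) (h3 : 3 ∣ L) (p0 : ℕ) (hp0 : p0 < R) (p : ℕ → ℕ)
    (bad : Finset (ℕ × ℕ))
    (hgood : ∀ u < L, ∀ j < 2 * k, (u, j) ∉ bad → p j * L + u < R * L ∧
      ∃ t, r (2 * k) ((p0 * L + u) * uS k (cols φ k) + j) t ∧
        r j ((p j * L + u) * uS k (cols φ k) + j) t) :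
    κ ^ nty k * (violSet φ k d p).card ≤ κ ^ nty k * (2 * bad.card) +
      ∑ u ∈ range L, ∑ s ∈ Ico (2 * k) (uS k (cols φ k)),
        (unmX φ k L w κ X r (2 * k) ((p0 * L + u) * uS k (cols φ k) + s)).card := by
  have hcol : ∀ x ∈ violSet φ k d p, ∃ c, (x, c) ∈ cols φ k := by
    intro x hx
    exact exists_colour (meet φ k) (List.mem_toFinset.1 (mem_filter.1 hx).1)
  choose! c hc using hcol
  have hlet : ∀ x ∈ violSet φ k d p, ∃ s, 2 * k ≤ s ∧ s < uS k (cols φ k) ∧
      tst k (cols φ k) s = (x, c x) := fun x hx => Tst_letter (hc x hx)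
  choose! s hs1 hs2 hs3 using hlet
  obtain ⟨u, hu⟩ : ∃ u : ℕ × ℕ → ℕ, ∀ x, u x = 3 * slotB φ k d p x (c x) + 2 := ⟨_, fun _ => rfl⟩
  have huL : ∀ x ∈ violSet φ k d p, u x + 1 < L := by
    intro x hx
    rw [hu]
    exact Tst_slot_lt (hN _ (hc x hx)) hL
  -- equal units and a common job
  have hinj : ∀ x ∈ violSet φ k d p, ∀ y ∈ violSet φ k d p, u x = u y → ∀ j,
      (jobA φ k x = j ∨ jobB φ k x = j) → (jobA φ k y = j ∨ jobB φ k y = j) → x = y := by
    intro x hx y hy hxy j hjx hjy
    have h1 : slotB φ k d p x (c x) = slotB φ k d p y (c y) := by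
      rw [hu, hu] at hxy
      omega
    have h2 : c x = c y := by
      rw [← (slotB_spec φ k d p x (c x)).1, ← (slotB_spec φ k d p y (c y)).1, h1]
    have h5 := colour_proper (meet φ k) meet_symm (tests φ k) (x, c x) (y, c y) (hc x hx) (hc y hy)
      (meet_of_job hjx hjy) h2
    exact (Prod.mk.inj h5).1
  -- the tests with a bad job
  have key : ∀ δ, ((violSet φ k d p).filter fun x => (u x + δ, jobA φ k x) ∈ bad ∨
      (u x + δ, jobB φ k x) ∈ bad).card ≤ bad.card := by
    intro δ
    let f : ℕ × ℕ → ℕ × ℕ := fun x =>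
      if (u x + δ, jobA φ k x) ∈ bad then (u x + δ, jobA φ k x) else (u x + δ, jobB φ k x)
    have hf1 : ∀ x, (f x).1 = u x + δ := by
      intro x
      simp only [f]
      split_ifs <;> rfl
    have hf2 : ∀ x, jobA φ k x = (f x).2 ∨ jobB φ k x = (f x).2 := by
      intro x
      simp only [f]
      split_ifs
      · exact Or.inl rfl
      · exact Or.inr rfl
    refine card_le_card_of_injOn f ?_ ?_
    · intro x hx
      obtain ⟨_, hx2⟩ := mem_filter.1 hx
      show f x ∈ bad
      simp only [f]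
      split_ifs with hA
      · exact hA
      · exact hx2.resolve_left hA
    · intro x hx y hy hxy
      have hx' := (mem_filter.1 hx).1
      have hy' := (mem_filter.1 hy).1
      refine hinj x hx' y hy' ?_ (f x).2 (hf2 x) ?_
      · have h1 := congrArg Prod.fst hxy
        rw [hf1, hf1] at h1
        omega
      · rw [hxy]
        exact hf2 y
  obtain ⟨V3, hV3⟩ : ∃ V3, V3 = (violSet φ k d p).filter fun x =>
      ¬ ((u x + 0, jobA φ k x) ∈ bad ∨ (u x + 0, jobB φ k x) ∈ bad) ∧
      ¬ ((u x + 1, jobA φ k x) ∈ bad ∨ (u x + 1, jobB φ k x) ∈ bad) := ⟨_, rfl⟩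
  have hcov : (violSet φ k d p).card ≤ 2 * bad.card + V3.card := by
    have h1 : violSet φ k d p ⊆
        ((violSet φ k d p).filter fun x => (u x + 0, jobA φ k x) ∈ bad ∨
          (u x + 0, jobB φ k x) ∈ bad) ∪
        ((violSet φ k d p).filter fun x => (u x + 1, jobA φ k x) ∈ bad ∨
          (u x + 1, jobB φ k x) ∈ bad) ∪ V3 := by
      intro x hx
      rw [mem_union, mem_union, mem_filter, mem_filter, hV3, mem_filter]
      tauto
    have h2 := (card_le_card h1).trans ((card_union_le _ _).trans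
      (Nat.add_le_add_right (card_union_le _ _) _))
    have h3 := key 0
    have h4 := key 1
    omega
  have hV : κ ^ nty k * V3.card ≤ ∑ u ∈ range L, ∑ s ∈ Ico (2 * k) (uS k (cols φ k)),
        (unmX φ k L w κ X r (2 * k) ((p0 * L + u) * uS k (cols φ k) + s)).card := by
    have g1 : κ ^ nty k * V3.card ≤
        ∑ x ∈ V3, (unmX φ k L w κ X r (2 * k) ((p0 * L + u x) * uS k (cols φ k) + s x)).card := by
      rw [mul_comm, ← smul_eq_mul]
      refine card_nsmul_le_sum _ _ _ ?_
      intro x hx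
      rw [hV3, mem_filter] at hx
      obtain ⟨hx1, hx2, hx3⟩ := hx
      have hv := (mem_filter.1 hx1).2
      refine Tst_claim hk hκ h hN hL h3 p0 hp0 p (hc x hx1) hv (hu x) (hs1 x hx1) (hs2 x hx1)
        (hs3 x hx1) ?_
      intro j hj hjx δ hδ
      have hb : (u x + δ, j) ∉ bad := by
        intro hcon
        have : δ = 0 ∨ δ = 1 := by omega
        rcases this with rfl | rfl
        · rcases hjx with rfl | rfl
          · exact hx2 (Or.inl hcon)
          · exact hx2 (Or.inr hcon)
        · rcases hjx with rfl | rfl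
          · exact hx3 (Or.inl hcon)
          · exact hx3 (Or.inr hcon)
      exact hgood (u x + δ) (by have := huL x hx1; omega) j hj hb
    refine g1.trans ?_
    rw [← sum_product' (range L) (Ico (2 * k) (uS k (cols φ k))) fun u s =>
      (unmX φ k L w κ X r (2 * k) ((p0 * L + u) * uS k (cols φ k) + s)).card]
    have g2 : Set.InjOn (fun x => (u x, s x)) (V3 : Set (ℕ × ℕ)) := by
      intro x hx y hy hxy
      have hx' : x ∈ V3 := hx
      have hy' : y ∈ V3 := hy
      rw [hV3] at hx' hy'
      have hx1 := (mem_filter.1 hx').1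
      have hy1 := (mem_filter.1 hy').1
      have h1 : s x = s y := congrArg Prod.snd hxy
      have h2 := hs3 x hx1
      rw [h1, hs3 y hy1] at h2
      exact (Prod.mk.inj h2).1.symm
    rw [← sum_image (s := V3) (g := fun x => (u x, s x)) (f := fun y : ℕ × ℕ =>
      (unmX φ k L w κ X r (2 * k) ((p0 * L + y.1) * uS k (cols φ k) + y.2)).card) g2]
    refine sum_le_sum_of_subset ?_
    intro y hy
    obtain ⟨x, hx, rfl⟩ := mem_image.1 hy
    rw [hV3] at hx
    have hx1 := (mem_filter.1 hx).1
    rw [mem_product, mem_range, mem_Ico]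
    exact ⟨by have := huL x hx1; omega, hs1 x hx1, hs2 x hx1⟩
  calc κ ^ nty k * (violSet φ k d p).card ≤ κ ^ nty k * (2 * bad.card + V3.card) :=
        Nat.mul_le_mul_left _ hcov
    _ = κ ^ nty k * (2 * bad.card) + κ ^ nty k * V3.card := by ring
    _ ≤ _ := Nat.add_le_add_left hV _

end Pool.Agent.H.JS
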