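import Pool.Agent.H.MP_aeb38e_lc.Align

/-!
Choice of the word and of its constants.
-/

namespace Pool.Agent.H.JS

theorem word3 (Γ : ℕ) (hΓ : 0 < Γ) : ∃ l L0 : ℕ, 0 < l ∧ ∀ L, L0 ≤ L → 3 ∣ L →
    ∃ w < 11 ^ L, ∃ h g : ℕ, 0 < h ∧ h * l + h ≤ L ∧
      JS2.WordProp 11 L l h g (fun P => w / 11 ^ (P % L) % 11) ∧
      ∀ R, 0 < R → Γ * (h * l + g * l * (R * L / (h * l))) ≤ R * L := by
  have hupos : 0 < 2 * Γ := by omega
  have hlpos : 0 < 9 * (605 * (2 * Γ)) := by omega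
  obtain ⟨L1, hL1⟩ := JS2.log_bound
    (2 * Γ * (2 * Γ * (9 * (605 * (2 * Γ)))) + 2 * (2 * Γ * (9 * (605 * (2 * Γ)))))
  refine ⟨9 * (605 * (2 * Γ)), L1 + 1, hlpos, ?_⟩
  intro L hL h3L
  obtain ⟨g, hg⟩ : ∃ g, g = Nat.log 2 (11 * L ^ 2) + 1 := ⟨_, rfl⟩
  have hgpos : 0 < g := by omega
  have hLpos : 0 < L := by omega
  have hbig := hL1 L (by omega)
  rw [← hg] at hbig
  obtain ⟨l, hl⟩ : ∃ l, l = 9 * (605 * (2 * Γ)) := ⟨_, rfl⟩
  obtain ⟨h, hh⟩ : ∃ h, h = 2 * Γ * g := ⟨_, rfl⟩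
  have hhpos : 0 < h := by rw [hh]; exact Nat.mul_pos hupos hgpos
  have hbig' : 2 * Γ * (h * l) + 2 * (h * l) ≤ L := by
    calc 2 * Γ * (h * l) + 2 * (h * l) =
        (2 * Γ * (2 * Γ * (9 * (605 * (2 * Γ)))) + 2 * (2 * Γ * (9 * (605 * (2 * Γ))))) * g := by
          rw [hh, hl]; ring
      _ ≤ L := hbig
  have hhl : h ≤ h * l := Nat.le_mul_of_pos_right h (by omega)
  have hLh : h * l + h ≤ L := by
    have : 0 ≤ 2 * Γ * (h * l) := Nat.zero_le _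
    omega
  have hnum : 11 * L ^ 2 ≤ 2 ^ h := by
    have h1 : 11 * L ^ 2 < 2 ^ g := by
      rw [hg]
      exact Nat.lt_pow_succ_log_self (by norm_num) _
    have h2 : g ≤ h := by rw [hh]; exact Nat.le_mul_of_pos_left g hupos
    exact h1.le.trans (Nat.pow_le_pow_right (by norm_num) h2)
  have hle : 2 * Γ * g * (9 * (605 * (2 * Γ))) ≤ L := by
    rw [← hh, ← hl]
    omega
  rw [hh] at hnum
  obtain ⟨w, hw, WP⟩ := JS2.exists_word L (2 * Γ) g hupos hgpos hLpos h3L hle hnum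
  refine ⟨w, hw, h, g, hhpos, by rw [← hl]; exact hLh, ?_, ?_⟩
  · rw [hh]
    exact WP
  · intro R hR
    rw [← hl]
    have hX1 : 2 * (Γ * (g * l * (R * L / (h * l)))) ≤ R * L := by
      calc 2 * (Γ * (g * l * (R * L / (h * l)))) = (h * l) * (R * L / (h * l)) := by
            rw [hh]; ring
        _ ≤ R * L := Nat.mul_div_le _ _
    have hX2 : 2 * (Γ * (h * l)) ≤ R * L := by
      have h1 : L ≤ R * L := Nat.le_mul_of_pos_left L hR
      have h2 : 2 * (Γ * (h * l)) = 2 * Γ * (h * l) := by ring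
      omega
    rw [mul_add]
    omega

end Pool.Agent.H.JS
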