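import Pool.Agent.H.MP_aeb38e_lc.TW.NoA
import Pool.Agent.H.MP_aeb38e_lc.TW.Tst
import Pool.Agent.H.MP_aeb38e_lc.TW.Blk
import Pool.Agent.H.MP_aeb38e_lc.TW.Word3
import Pool.Agent.H.MP_aeb38e_lc.NoB

/-!
Soundness: for a formula far from satisfiable the makespan is large.
-/

namespace Pool.Agent.H.JS

open Finset Classical

/-- The time of the first `i` operations. -/
def NoT_dur (job : List (ℕ × ℕ)) (i : ℕ) : ℕ := ((job.take i).map Prod.snd).sum

theorem NoT_dur_succ {job : List (ℕ × ℕ)} {i m p : ℕ} (h : job[i]? = some (m, p)) :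
    NoT_dur job i + p = NoT_dur job (i + 1) := by
  unfold NoT_dur
  obtain ⟨h1, h2⟩ := List.getElem?_eq_some_iff.1 h
  rw [List.take_add_one, h]
  simp

theorem NoT_dur_mono (job : List (ℕ × ℕ)) {i i' : ℕ} (h : i ≤ i') :
    NoT_dur job i ≤ NoT_dur job i' := by
  induction i', h using Nat.le_induction with
  | base => exact le_rfl
  | succ n hn ih =>
    refine ih.trans ?_
    rcases hj : job[n]? with _ | ⟨m, p⟩
    · unfold NoT_dur
      rw [List.take_add_one, hj]
      simp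
    · rw [← NoT_dur_succ hj]
      exact Nat.le_add_right _ _

theorem NoT_dur_le (job : List (ℕ × ℕ)) (i : ℕ) : NoT_dur job i ≤ NoT_dur job job.length := by
  rcases le_total i job.length with h | h
  · exact NoT_dur_mono job h
  · unfold NoT_dur
    rw [List.take_of_length_le h, List.take_length]

/-- All jobs one after the other. -/
theorem NoT_sched (I : Shop) : ∃ K st, Feasible I st ∧ EndsBy I st K := by
  let job : ℕ → List (ℕ × ℕ) := fun j => I.2.getD j []
  let base : ℕ → ℕ := fun j => ∑ j' ∈ range j, NoT_dur (job j') (job j').length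
  let st : ℕ → ℕ → ℕ := fun j i => base j + NoT_dur (job j) i
  have hop : ∀ {j i m p}, IsOp I j i m p → (job j)[i]? = some (m, p) := by
    rintro j i m p ⟨jb, h1, h2⟩
    have : job j = jb := by
      show I.2.getD j [] = jb
      rw [List.getD_eq_getElem?_getD, h1]
      rfl
    rw [this]
    exact h2
  have hlt : ∀ {j i m p}, IsOp I j i m p → j < I.2.length := by
    rintro j i m p ⟨jb, h1, h2⟩
    exact (List.getElem?_eq_some_iff.1 h1).1
  have hbase : ∀ j, base (j + 1) = base j + NoT_dur (job j) (job j).length :=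
    fun j => Finset.sum_range_succ _ _
  have hbm : ∀ {j j'}, j ≤ j' → base j ≤ base j' := by
    intro j j' h
    exact Finset.sum_le_sum_of_subset (Finset.range_mono h)
  have hend : ∀ {j i m p}, IsOp I j i m p → st j i + p ≤ base (j + 1) := by
    intro j i m p h
    show base j + NoT_dur (job j) i + p ≤ _
    rw [hbase, Nat.add_assoc, NoT_dur_succ (hop h)]
    exact Nat.add_le_add_left (NoT_dur_le _ _) _
  have hnext : ∀ {j i m p}, IsOp I j i m p → ∀ i', i < i' → st j i + p ≤ st j i' := by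
    intro j i m p h i' hi
    show base j + NoT_dur (job j) i + p ≤ base j + NoT_dur (job j) i'
    rw [Nat.add_assoc, NoT_dur_succ (hop h)]
    exact Nat.add_le_add_left (NoT_dur_mono _ hi) _
  have hst : ∀ j i, base j ≤ st j i := fun j i => Nat.le_add_right _ _
  refine ⟨base I.2.length, st, ⟨?_, ?_⟩, ?_⟩
  · intro j i m p m' p' h _
    exact hnext h _ (Nat.lt_succ_self i)
  · intro j i j' i' m p p' h h' hne
    rcases lt_trichotomy j j' with h1 | h1 | h1
    · exact Or.inl ((hend h).trans ((hbm h1).trans (hst _ _)))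
    · subst h1
      rcases lt_trichotomy i i' with h2 | h2 | h2
      · exact Or.inl (hnext h _ h2)
      · subst h2
        exact absurd rfl hne
      · exact Or.inr (hnext h' _ h2)
    · exact Or.inr ((hend h').trans ((hbm h1).trans (hst _ _)))
  · intro j i m p h
    exact (hend h).trans (hbm (hlt h))

theorem NoT_opt (I : Shop) : ∃ st, Feasible I st ∧ EndsBy I st (OPT I) :=
  Nat.sInf_mem (NoT_sched I)

/-- The numbers. -/
theorem NoT_num {C D B E l k M L A Θ R W b t a U Γ : ℕ} (hk : 0 < k) (hΘ : 0 < Θ) (hR : 0 < R)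
    (hC : 0 < C) (hD : 0 < D) (hB : 0 < B)
    (hΓ : Γ = 32 * C * (D * B)) (hE : E = 16 * C * (D * B) * (265 * (4 * l + 3)))
    (h1 : Θ * W ≤ Θ * (2 * b) + t) (h2 : R * (Θ * b + t) ≤ Θ * (2 * k * a) + (4 * l + 3) * U)
    (h3 : Γ * a ≤ R * L) (h4 : U ≤ 265 * k * A * Θ) (hEA : E * A = R * L)
    (h6 : k * L ≤ 4 * C * M) : D * (B * W) ≤ M := by
  have e1 : R * (Θ * W) ≤ 2 * (Θ * (2 * k * a) + (4 * l + 3) * U) := by
    calc R * (Θ * W) ≤ R * (Θ * (2 * b) + t) := Nat.mul_le_mul_left _ h1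
      _ ≤ R * (2 * (Θ * b + t)) := Nat.mul_le_mul_left _ (by
          have : Θ * (2 * b) = 2 * (Θ * b) := by ring
          rw [this]
          omega)
      _ = 2 * (R * (Θ * b + t)) := by ring
      _ ≤ _ := Nat.mul_le_mul_left _ h2
  have e2 : Γ * E * (R * (Θ * W)) ≤
      (4 * k * E * (R * L)) * Θ + 2 * Γ * (4 * l + 3) * (265 * k * (R * L) * Θ) := by
    calc Γ * E * (R * (Θ * W)) ≤ Γ * E * (2 * (Θ * (2 * k * a) + (4 * l + 3) * U)) :=
          Nat.mul_le_mul_left _ e1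
      _ = 4 * k * E * (Γ * a) * Θ + 2 * Γ * (4 * l + 3) * (E * U) := by ring
      _ ≤ 4 * k * E * (R * L) * Θ + 2 * Γ * (4 * l + 3) * (E * (265 * k * A * Θ)) := by
          gcongr
      _ = (4 * k * E * (R * L)) * Θ + 2 * Γ * (4 * l + 3) * (265 * k * (E * A) * Θ) := by ring
      _ = _ := by rw [hEA]
  have e3 : (R * Θ) * (Γ * E * W) ≤ (R * Θ) * (4 * (k * L) * E + 530 * (4 * l + 3) * Γ * (k * L)) := by
    calc (R * Θ) * (Γ * E * W) = Γ * E * (R * (Θ * W)) := by ring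
      _ ≤ _ := e2
      _ = _ := by ring
  have e4 : Γ * E * W ≤ 4 * (k * L) * E + 530 * (4 * l + 3) * Γ * (k * L) :=
    Nat.le_of_mul_le_mul_left e3 (Nat.mul_pos hR hΘ)
  have e5 : Γ * E * W ≤ 16 * C * M * E + 2120 * (4 * l + 3) * Γ * C * M := by
    calc Γ * E * W ≤ 4 * (k * L) * E + 530 * (4 * l + 3) * Γ * (k * L) := e4
      _ ≤ 4 * (4 * C * M) * E + 530 * (4 * l + 3) * Γ * (4 * C * M) := by gcongr
      _ = _ := by ring
  have hΓ0 : 0 < Γ := by rw [hΓ]; positivity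
  have hE0 : 0 < E := by rw [hE]; positivity
  have e6 : (2 * (Γ * E)) * (D * (B * W)) ≤ (2 * (Γ * E)) * M := by
    calc (2 * (Γ * E)) * (D * (B * W)) = 2 * (D * B) * (Γ * E * W) := by ring
      _ ≤ 2 * (D * B) * (16 * C * M * E + 2120 * (4 * l + 3) * Γ * C * M) :=
          Nat.mul_le_mul_left _ e5
      _ = (32 * C * (D * B)) * (M * E) +
          Γ * M * (16 * C * (D * B) * (265 * (4 * l + 3))) := by ring
      _ = Γ * (M * E) + Γ * M * E := by rw [← hΓ, ← hE]
      _ = _ := by ring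
  exact Nat.le_of_mul_le_mul_left e6 (by positivity)

theorem noT (D B : ℕ) (hD : 0 < D) :
    ∃ E N0 : ℕ, 0 < E ∧ ∀ k, 0 < k → ∀ κ, 96 * k * E ≤ κ → ∀ (φ : CNF) (d : ℕ),
      N0 * k ≤ φ.2.length → Bdd B φ → Far D φ →
      ∃ w < 11 ^ (2 * lenB B φ.2.length k),
        (E + 1) * targetT φ k d (2 * lenB B φ.2.length k) (blocks d E) (fun i => κ ^ i) <
          E * OPT (instT φ k d (2 * lenB B φ.2.length k) (blocks d E) w (fun i => κ ^ i)) := by
  rcases Nat.eq_zero_or_pos B with rfl | hB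
  · exact ⟨1, 0, one_pos, fun k _ κ _ φ d _ hBdd hfar =>
      absurd (far_of_bdd_zero hBdd hfar) (fun h => h)⟩
  obtain ⟨C, hC⟩ : ∃ C, C = 3 * 65536 * (2 * (16 * B)) := ⟨_, rfl⟩
  have hC0 : 0 < C := by omega
  obtain ⟨Γ, hΓ⟩ : ∃ Γ, Γ = 32 * C * (D * B) := ⟨_, rfl⟩
  have hΓ0 : 0 < Γ := by rw [hΓ]; positivity
  obtain ⟨l, L0, hl, hword⟩ := word3 Γ hΓ0
  obtain ⟨E, hE⟩ : ∃ E, E = 16 * C * (D * B) * (265 * (4 * l + 3)) := ⟨_, rfl⟩
  have hE0 : 0 < E := by rw [hE]; positivity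
  refine ⟨E, L0 + 1, hE0, ?_⟩
  intro k hk κ hκ φ d hM hBdd hfar
  obtain ⟨M, hMdef⟩ : ∃ M, M = φ.2.length := ⟨_, rfl⟩
  rw [← hMdef] at hM ⊢
  have hlen : lenB B M k = C * (M / k + 1) := by
    unfold lenB degB
    rw [hC]
    ring
  obtain ⟨L, hL⟩ : ∃ L, L = 2 * lenB B M k := ⟨_, rfl⟩
  rw [← hL]
  have h3 : 3 ∣ L := ⟨2 * (65536 * (2 * degB B M k)), by rw [hL]; unfold lenB; ring⟩
  have hMk : L0 + 1 ≤ M / k := (Nat.le_div_iff_mul_le hk).2 hM
  have hlen1 : M / k + 1 ≤ lenB B M k := by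
    rw [hlen]
    exact Nat.le_mul_of_pos_left _ hC0
  have hL0 : L0 ≤ L := by omega
  have hLpos : 0 < L := by omega
  obtain ⟨w, hw, h, g, hh, hhl, WP, hnum⟩ := hword L hL0 h3
  refine ⟨w, hw, ?_⟩
  by_contra hcon
  push Not at hcon
  obtain ⟨st, hf, he⟩ := NoT_opt (instT φ k d L (blocks d E) w (fun i => κ ^ i))
  obtain ⟨r, U, hr, hU⟩ := run_of_sched hk hE0 hκ hf he hcon
  have hκ1 : 1 < κ := by
    have : 1 ≤ k * E := Nat.mul_pos hk hE0
    calc 1 < 96 * (k * E) := by omega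
      _ = 96 * k * E := by ring
      _ ≤ κ := hκ
  have hR0 : 0 < blocks d E := by
    unfold blocks
    positivity
  obtain ⟨p0, p, bad, hp0, hgood, hbad⟩ := exists_blk hk hκ1 hr hR0 hl hh hhl WP
  have hN : ∀ y ∈ cols φ k, y.2 < 2 * degB B M k := by
    rw [hMdef]
    exact colour_lt (meet φ k) meet_refl (tests φ k) (fun x _ => deg_le hk hBdd x)
  have hLlt : 3 * 65536 * (2 * degB B M k) < L := by
    have : lenB B M k = 3 * 65536 * (2 * degB B M k) := rfl
    omega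
  have hv := viol_count hk hκ1 hr hN hLlt h3 p0 hp0 p bad hgood
  have hfarV := far_violSet (d := d) hk hBdd hfar p
  rw [← hMdef] at hfarV
  have hkL : k * L ≤ 4 * C * M := by
    rw [hL, hlen]
    have h6 : k * (M / k) ≤ M := Nat.mul_div_le M k
    have h7 : k ≤ M := by
      calc k = 1 * k := (one_mul k).symm
        _ ≤ (L0 + 1) * k := Nat.mul_le_mul_right k (by omega)
        _ ≤ M := hM
    calc k * (2 * (C * (M / k + 1))) = 2 * C * (k * (M / k) + k) := by ring
      _ ≤ 2 * C * (M + M) := Nat.mul_le_mul_left _ (by omega)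
      _ = 4 * C * M := by ring
  have hfin := NoT_num hk (pow_pos (by omega : 0 < κ) (nty k)) hR0 hC0 hD hB hΓ hE hv hbad
    (hnum (blocks d E) hR0) hU (by unfold blocks; ring) hkL
  omega

end Pool.Agent.H.JS
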