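import Mathlib

/-!
Schedules on two machines: almost all operations are matched with operations of the same length.
-/

namespace Pool.Agent.H.JS

open Finset Classical

/-- The operation `i` of the job `j` runs in the time slot `t`. -/
def RunOp (n : ℕ → ℕ) (len st : ℕ → ℕ → ℕ) (j i t : ℕ) : Prop :=
  i < n j ∧ st j i ≤ t ∧ t < st j i + len j i

namespace TWOver

variable {q κ X : ℕ} {n : ℕ → ℕ} {len st : ℕ → ℕ → ℕ}

theorem mono (hord : ∀ j ≤ q, ∀ i, i + 1 < n j → st j i + len j i ≤ st j (i + 1))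
    {j : ℕ} (hj : j ≤ q) {i i' : ℕ} (h : i < i') (h' : i' < n j) :
    st j i + len j i ≤ st j i' := by
  induction i', h using Nat.le_induction with
  | base => exact hord j hj i h'
  | succ k hk ih =>
    have h1 := ih (by omega)
    have h2 := hord j hj k h'
    omega

theorem uniq (hord : ∀ j ≤ q, ∀ i, i + 1 < n j → st j i + len j i ≤ st j (i + 1))
    {j : ℕ} (hj : j ≤ q) {i i' t : ℕ} (h : RunOp n len st j i t) (h' : RunOp n len st j i' t) :
    i = i' := by
  obtain ⟨a1, a2, a3⟩ := h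
  obtain ⟨b1, b2, b3⟩ := h'
  rcases lt_trichotomy i i' with h1 | h1 | h1
  · have := mono hord hj h1 b1
    omega
  · exact h1
  · have := mono hord hj h1 a1
    omega

theorem par (hm : ∀ j ≤ q, ∀ j' ≤ q, j ≠ j' → ∀ i < n j, ∀ i' < n j', i % 2 = i' % 2 →
      st j i + len j i ≤ st j' i' ∨ st j' i' + len j' i' ≤ st j i)
    {j j' : ℕ} (hj : j ≤ q) (hj' : j' ≤ q) (hne : j ≠ j') {i i' t : ℕ}
    (h : RunOp n len st j i t) (h' : RunOp n len st j' i' t) : i % 2 ≠ i' % 2 := by
  obtain ⟨a1, a2, a3⟩ := h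
  obtain ⟨b1, b2, b3⟩ := h'
  intro he
  have := hm j hj j' hj' hne i a1 i' b1 he
  omega

theorem two (hord : ∀ j ≤ q, ∀ i, i + 1 < n j → st j i + len j i ≤ st j (i + 1))
    (hm : ∀ j ≤ q, ∀ j' ≤ q, j ≠ j' → ∀ i < n j, ∀ i' < n j', i % 2 = i' % 2 →
      st j i + len j i ≤ st j' i' ∨ st j' i' + len j' i' ≤ st j i)
    {j j' : ℕ} (hj : j ≤ q) (hj' : j' ≤ q) (hne : j ≠ j') {i i' i'' t t' : ℕ}
    (h : RunOp n len st j i t) (h2 : RunOp n len st j i t') (h' : RunOp n len st j' i' t)
    (h'' : RunOp n len st j' i'' t') : ¬ i' < i'' := by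
  intro hlt
  have e1 := par hm hj hj' hne h h'
  have e2 := par hm hj hj' hne h2 h''
  have e3 : i' + 1 < i'' := by omega
  have e4 : i % 2 = (i' + 1) % 2 := by omega
  obtain ⟨a1, a2, a3⟩ := h
  obtain ⟨b1, b2, b3⟩ := h'
  obtain ⟨c1, c2, c3⟩ := h''
  obtain ⟨d1, d2, d3⟩ := h2
  have e5 := hm j hj j' hj' hne i a1 (i' + 1) (by omega) e4
  have e6 := mono hord hj' (show i' < i' + 1 by omega) (show i' + 1 < n j' by omega)
  have e7 := mono hord hj' e3 c1
  omega

theorem one (hκ : ∀ j ≤ q, ∀ i < n j, ∀ j' ≤ q, ∀ i' < n j', len j i < len j' i' →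
      κ * len j i ≤ len j' i')
    (hord : ∀ j ≤ q, ∀ i, i + 1 < n j → st j i + len j i ≤ st j (i + 1))
    (hm : ∀ j ≤ q, ∀ j' ≤ q, j ≠ j' → ∀ i < n j, ∀ i' < n j', i % 2 = i' % 2 →
      st j i + len j i ≤ st j' i' ∨ st j' i' + len j' i' ≤ st j i)
    {j j' : ℕ} (hj : j ≤ q) (hj' : j' ≤ q) (hne : j ≠ j') (i : ℕ) :
    κ * ((range X).filter fun t => RunOp n len st j i t ∧
      ∃ i', RunOp n len st j' i' t ∧ len j' i' < len j i).card ≤ len j i := by
  rcases ((range X).filter fun t => RunOp n len st j i t ∧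
      ∃ i', RunOp n len st j' i' t ∧ len j' i' < len j i).eq_empty_or_nonempty with h | h
  · rw [h]
    simp
  · obtain ⟨t, ht⟩ := h
    obtain ⟨-, h1, i', h2, h3⟩ := mem_filter.1 ht
    have hsub : ((range X).filter fun t => RunOp n len st j i t ∧
        ∃ i', RunOp n len st j' i' t ∧ len j' i' < len j i) ⊆
        Ico (st j' i') (st j' i' + len j' i') := by
      intro t' ht'
      obtain ⟨-, k1, i'', k2, k3⟩ := mem_filter.1 ht'
      have e1 := two hord hm hj hj' hne h1 k1 h2 k2
      have e2 := two hord hm hj hj' hne k1 h1 k2 h2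
      have e3 : i'' = i' := by omega
      rw [e3] at k2
      exact mem_Ico.2 k2.2
    calc κ * _ ≤ κ * (Ico (st j' i') (st j' i' + len j' i')).card :=
          Nat.mul_le_mul_left _ (card_le_card hsub)
      _ = κ * len j' i' := by rw [Nat.card_Ico, Nat.add_sub_cancel_left]
      _ ≤ len j i := hκ j' hj' i' h2.1 j hj i h1.1 h3

theorem work (hord : ∀ j ≤ q, ∀ i, i + 1 < n j → st j i + len j i ≤ st j (i + 1))
    (hX : ∀ j ≤ q, ∀ i < n j, st j i + len j i ≤ X) {j : ℕ} (hj : j ≤ q) :
    ∑ i ∈ range (n j), len j i =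
      ((range X).filter fun t => ∃ i, RunOp n len st j i t).card := by
  have h : ((range X).filter fun t => ∃ i, RunOp n len st j i t) =
      (range (n j)).biUnion fun i => Ico (st j i) (st j i + len j i) := by
    ext t
    rw [mem_filter, mem_biUnion]
    constructor
    · rintro ⟨-, i, hi⟩
      exact ⟨i, mem_range.2 hi.1, mem_Ico.2 hi.2⟩
    · rintro ⟨i, hi, hi'⟩
      have h1 := mem_range.1 hi
      have h2 := mem_Ico.1 hi'
      have h3 := hX j hj i h1
      exact ⟨mem_range.2 (by omega), i, h1, h2⟩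
  rw [h, card_biUnion]
  · simp
  · intro i hi i' hi' hne
    rw [Function.onFun, disjoint_left]
    intro t h1 h2
    exact hne (uniq hord hj ⟨mem_range.1 hi, mem_Ico.1 h1⟩ ⟨mem_range.1 hi', mem_Ico.1 h2⟩)

/-- At most two jobs run at the same time. -/
theorem runs (hm : ∀ j ≤ q, ∀ j' ≤ q, j ≠ j' → ∀ i < n j, ∀ i' < n j', i % 2 = i' % 2 →
      st j i + len j i ≤ st j' i' ∨ st j' i' + len j' i' ≤ st j i) (t : ℕ) :
    ((range (q + 1)).filter fun j => ∃ i, RunOp n len st j i t).card ≤ 2 := by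
  rw [← card_range 2]
  refine card_le_card_of_injOn
    (fun j => (if h : ∃ i, RunOp n len st j i t then h.choose else 0) % 2) ?_ ?_
  · intro j _
    exact mem_coe.2 (mem_range.2 (Nat.mod_lt _ (by norm_num)))
  · intro j hj j' hj' he
    by_contra hne
    obtain ⟨a1, a2⟩ := mem_filter.1 (mem_coe.1 hj)
    obtain ⟨b1, b2⟩ := mem_filter.1 (mem_coe.1 hj')
    simp only [dif_pos a2, dif_pos b2] at he
    exact par hm (Nat.lt_succ_iff.1 (mem_range.1 a1)) (Nat.lt_succ_iff.1 (mem_range.1 b1)) hne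
      a2.choose_spec b2.choose_spec he

/-- The bound at one time. -/
theorem point (hm : ∀ j ≤ q, ∀ j' ≤ q, j ≠ j' → ∀ i < n j, ∀ i' < n j', i % 2 = i' % 2 →
      st j i + len j i ≤ st j' i' ∨ st j' i' + len j' i' ≤ st j i) (t : ℕ) :
    ((range (q + 1)).filter fun j => ∃ i, RunOp n len st j i t ∧
        ¬ ∃ j' ≤ q, j' ≠ j ∧ ∃ i', RunOp n len st j' i' t ∧ len j' i' = len j i).card +
      ((range (q + 1)).filter fun j => ∃ i, RunOp n len st j i t).card ≤
      2 + 2 * ∑ j ∈ range (q + 1), ((((range (q + 1)).erase j)).filter fun j' =>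
        ∃ i i', RunOp n len st j i t ∧ RunOp n len st j' i' t ∧ len j' i' < len j i).card := by
  set M := ∑ j ∈ range (q + 1), ((((range (q + 1)).erase j)).filter fun j' =>
        ∃ i i', RunOp n len st j i t ∧ RunOp n len st j' i' t ∧ len j' i' < len j i).card with hM
  set U := (range (q + 1)).filter fun j => ∃ i, RunOp n len st j i t ∧
        ¬ ∃ j' ≤ q, j' ≠ j ∧ ∃ i', RunOp n len st j' i' t ∧ len j' i' = len j i with hU
  set S := (range (q + 1)).filter fun j => ∃ i, RunOp n len st j i t with hS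
  have h2 : S.card ≤ 2 := runs hm t
  have hUS : U ⊆ S := by
    intro j hj
    obtain ⟨h3, i, h4, -⟩ := mem_filter.1 hj
    exact mem_filter.2 ⟨h3, i, h4⟩
  have hc := card_le_card hUS
  by_cases hM0 : M = 0
  · rcases U.eq_empty_or_nonempty with h | ⟨a, ha⟩
    · rw [h, card_empty]
      omega
    · obtain ⟨h3, i, h4, h5⟩ := mem_filter.1 ha
      have hz : ∀ j ∈ range (q + 1), ∀ j' ∈ range (q + 1), j' ≠ j → ∀ i i',
          RunOp n len st j i t → RunOp n len st j' i' t → ¬ len j' i' < len j i := by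
        intro j hj j' hj' hne i i' hi hi' hlt
        rw [hM, sum_eq_zero_iff] at hM0
        have h6 := hM0 j hj
        rw [card_eq_zero] at h6
        have h7 : j' ∈ (((range (q + 1)).erase j)).filter fun j' =>
            ∃ i i', RunOp n len st j i t ∧ RunOp n len st j' i' t ∧ len j' i' < len j i :=
          mem_filter.2 ⟨mem_erase.2 ⟨hne, hj'⟩, i, i', hi, hi', hlt⟩
        rw [h6] at h7
        exact absurd h7 (notMem_empty _)
      have hSa : S ⊆ {a} := by
        intro b hb
        obtain ⟨h6, i', h7⟩ := mem_filter.1 hb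
        rw [mem_singleton]
        by_contra hne
        have e1 := hz a h3 b h6 hne i i' h4 h7
        have e2 := hz b h6 a h3 (Ne.symm hne) i' i h7 h4
        exact h5 ⟨b, Nat.lt_succ_iff.1 (mem_range.1 h6), hne, i', h7, by omega⟩
      have := card_le_card hSa
      rw [card_singleton] at this
      omega
  · omega

/-- The total time with different lengths. -/
theorem diff (hκ : ∀ j ≤ q, ∀ i < n j, ∀ j' ≤ q, ∀ i' < n j', len j i < len j' i' →
      κ * len j i ≤ len j' i')
    (hord : ∀ j ≤ q, ∀ i, i + 1 < n j → st j i + len j i ≤ st j (i + 1))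
    (hm : ∀ j ≤ q, ∀ j' ≤ q, j ≠ j' → ∀ i < n j, ∀ i' < n j', i % 2 = i' % 2 →
      st j i + len j i ≤ st j' i' ∨ st j' i' + len j' i' ≤ st j i)
    {j j' : ℕ} (hj : j ≤ q) (hj' : j' ≤ q) (hne : j ≠ j') :
    κ * ((range X).filter fun t => ∃ i i', RunOp n len st j i t ∧ RunOp n len st j' i' t ∧
      len j' i' < len j i).card ≤ ∑ i ∈ range (n j), len j i := by
  have hsub : ((range X).filter fun t => ∃ i i', RunOp n len st j i t ∧
      RunOp n len st j' i' t ∧ len j' i' < len j i) ⊆
      (range (n j)).biUnion fun i => ((range X).filter fun t => RunOp n len st j i t ∧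
      ∃ i', RunOp n len st j' i' t ∧ len j' i' < len j i) := by
    intro t ht
    obtain ⟨h1, i, i', h2, h3, h4⟩ := mem_filter.1 ht
    exact mem_biUnion.2 ⟨i, mem_range.2 h2.1, mem_filter.2 ⟨h1, h2, i', h3, h4⟩⟩
  calc κ * _ ≤ κ * ∑ i ∈ range (n j), ((range X).filter fun t => RunOp n len st j i t ∧
      ∃ i', RunOp n len st j' i' t ∧ len j' i' < len j i).card :=
        Nat.mul_le_mul_left _ ((card_le_card hsub).trans card_biUnion_le)
    _ = ∑ i ∈ range (n j), κ * ((range X).filter fun t => RunOp n len st j i t ∧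
      ∃ i', RunOp n len st j' i' t ∧ len j' i' < len j i).card := by rw [mul_sum]
    _ ≤ ∑ i ∈ range (n j), len j i := sum_le_sum fun i _ => one hκ hord hm hj hj' hne i

theorem swap_card (A B : Finset ℕ) (P : ℕ → ℕ → Prop) :
    ∑ j ∈ A, (B.filter fun t => P j t).card = ∑ t ∈ B, (A.filter fun j => P j t).card := by
  simp only [card_filter]
  exact sum_comm

end TWOver

open TWOver in
/-- Jobs `0, ..., q`; the operation `i` of a job runs on the machine `i % 2`; different lengths
differ by a factor of at least `κ`. The number of time slots in which an operation runs and no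
operation of the same length of another job runs is at most `2 X - W + 2 q W / κ`. -/
theorem overlap (q κ X : ℕ) (n : ℕ → ℕ) (len st : ℕ → ℕ → ℕ)
    (hlen : ∀ j ≤ q, ∀ i < n j, 0 < len j i)
    (hκ : ∀ j ≤ q, ∀ i < n j, ∀ j' ≤ q, ∀ i' < n j', len j i < len j' i' →
      κ * len j i ≤ len j' i')
    (hord : ∀ j ≤ q, ∀ i, i + 1 < n j → st j i + len j i ≤ st j (i + 1))
    (hX : ∀ j ≤ q, ∀ i < n j, st j i + len j i ≤ X)
    (hm : ∀ j ≤ q, ∀ j' ≤ q, j ≠ j' → ∀ i < n j, ∀ i' < n j', i % 2 = i' % 2 →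
      st j i + len j i ≤ st j' i' ∨ st j' i' + len j' i' ≤ st j i) :
    κ * (∑ j ∈ range (q + 1), ((range X).filter fun t => ∃ i, RunOp n len st j i t ∧
        ¬ ∃ j' ≤ q, j' ≠ j ∧ ∃ i', RunOp n len st j' i' t ∧ len j' i' = len j i).card +
      ∑ j ∈ range (q + 1), ∑ i ∈ range (n j), len j i) ≤
      2 * κ * X + 2 * q * ∑ j ∈ range (q + 1), ∑ i ∈ range (n j), len j i := by
  set W := ∑ j ∈ range (q + 1), ∑ i ∈ range (n j), len j i with hW
  have hW' : W = ∑ j ∈ range (q + 1),
      ((range X).filter fun t => ∃ i, RunOp n len st j i t).card := by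
    rw [hW]
    exact sum_congr rfl fun j hj => work hord hX (Nat.lt_succ_iff.1 (mem_range.1 hj))
  set D : ℕ → ℕ → ℕ → Prop := fun j j' t => ∃ i i', RunOp n len st j i t ∧
    RunOp n len st j' i' t ∧ len j' i' < len j i with hD
  have h1 : ∑ j ∈ range (q + 1), ((range X).filter fun t => ∃ i, RunOp n len st j i t ∧
        ¬ ∃ j' ≤ q, j' ≠ j ∧ ∃ i', RunOp n len st j' i' t ∧ len j' i' = len j i).card + W ≤
      2 * X + 2 * ∑ j ∈ range (q + 1), ∑ j' ∈ (range (q + 1)).erase j,
        ((range X).filter fun t => D j j' t).card := by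
    rw [hW', swap_card (range (q + 1)) (range X) (fun j t => ∃ i, RunOp n len st j i t ∧
        ¬ ∃ j' ≤ q, j' ≠ j ∧ ∃ i', RunOp n len st j' i' t ∧ len j' i' = len j i),
      swap_card (range (q + 1)) (range X) (fun j t => ∃ i, RunOp n len st j i t),
      ← sum_add_distrib]
    calc _ ≤ ∑ t ∈ range X, (2 + 2 * ∑ j ∈ range (q + 1),
          ((((range (q + 1)).erase j)).filter fun j' => D j j' t).card) :=
          sum_le_sum fun t _ => point hm t
      _ = 2 * X + 2 * ∑ j ∈ range (q + 1), ∑ j' ∈ (range (q + 1)).erase j,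
        ((range X).filter fun t => D j j' t).card := by
          rw [sum_add_distrib, ← mul_sum, sum_const, card_range, smul_eq_mul, mul_comm X 2,
            sum_comm]
          congr 2
          refine sum_congr rfl fun j _ => ?_
          rw [← swap_card]
  have h2 : κ * ∑ j ∈ range (q + 1), ∑ j' ∈ (range (q + 1)).erase j,
        ((range X).filter fun t => D j j' t).card ≤ q * W := by
    rw [mul_sum, hW, mul_sum]
    refine sum_le_sum fun j hj => ?_
    rw [mul_sum]
    calc _ ≤ ∑ j' ∈ (range (q + 1)).erase j, ∑ i ∈ range (n j), len j i :=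
          sum_le_sum fun j' hj' => diff hκ hord hm (Nat.lt_succ_iff.1 (mem_range.1 hj))
            (Nat.lt_succ_iff.1 (mem_range.1 (mem_of_mem_erase hj'))) (ne_of_mem_erase hj').symm
      _ = q * ∑ i ∈ range (n j), len j i := by
          rw [sum_const, card_erase_of_mem hj, card_range, Nat.add_sub_cancel, smul_eq_mul]
  calc κ * (_ + W) ≤ κ * (2 * X + 2 * ∑ j ∈ range (q + 1), ∑ j' ∈ (range (q + 1)).erase j,
        ((range X).filter fun t => D j j' t).card) := Nat.mul_le_mul_left _ h1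
    _ = 2 * κ * X + 2 * (κ * ∑ j ∈ range (q + 1), ∑ j' ∈ (range (q + 1)).erase j,
        ((range X).filter fun t => D j j' t).card) := by ring
    _ ≤ 2 * κ * X + 2 * (q * W) := by
        exact Nat.add_le_add_left (Nat.mul_le_mul_left _ h2) _
    _ = 2 * κ * X + 2 * q * W := by ring

end Pool.Agent.H.JS
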