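import Pool.Agent.H.MP_aeb38e_lc.TW.Basic
import Pool.Agent.H.MP_aeb38e_lc.TW.Ops
import Pool.Agent.H.MP_aeb38e_lc.PInstB

/-!
The instance with two machines is computable in polynomial time (numbers in unary); its size.
-/

set_option linter.unusedSectionVars false

namespace Pool.Agent.H.JS

open Turing Pool.Agent.H.MP_5be563_lc.PT

section
variable {α : Type} [Enc α]

@[fun_prop]
theorem PolyT_nty {k : α → ℕ} (hk : Poly k) : Poly (fun a => nty (k a)) := by
  unfold nty
  fun_prop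

@[fun_prop]
theorem PolyT_tst {k s : α → ℕ} {cl : α → List ((ℕ × ℕ) × ℕ)} (hk : Poly k) (hcl : Poly cl)
    (hs : Poly s) : Poly (fun a => tst (k a) (cl a) (s a)) := by
  unfold tst
  fun_prop

@[fun_prop]
theorem PolyT_uS {k : α → ℕ} {cl : α → List ((ℕ × ℕ) × ℕ)} (hk : Poly k) (hcl : Poly cl) :
    Poly (fun a => uS (k a) (cl a)) := by
  unfold uS
  fun_prop

@[fun_prop]
theorem PolyT_rank {φ : α → CNF} {k L w P s : α → ℕ} {cl : α → List ((ℕ × ℕ) × ℕ)} (hφ : Poly φ)
    (hk : Poly k) (hL : Poly L) (hw : Poly w) (hcl : Poly cl) (hP : Poly P) (hs : Poly s) :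
    Poly (fun a => rank (φ a) (k a) (L a) (w a) (cl a) (P a) (s a)) := by
  unfold rank
  fun_prop

@[fun_prop]
theorem PolyT_mul {φ : α → CNF} {k d L j P s : α → ℕ} {cl : α → List ((ℕ × ℕ) × ℕ)}
    (hφ : Poly φ) (hk : Poly k) (hd : Poly d) (hL : Poly L) (hcl : Poly cl) (hj : Poly j)
    (hP : Poly P) (hs : Poly s) :
    Poly (fun a => mul (φ a) (k a) (d a) (L a) (cl a) (j a) (P a) (s a)) := by
  unfold mul
  fun_prop

@[fun_prop]
theorem PolyT_rankx {φ : α → CNF} {k L w x : α → ℕ} {cl : α → List ((ℕ × ℕ) × ℕ)} (hφ : Poly φ)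
    (hk : Poly k) (hL : Poly L) (hw : Poly w) (hcl : Poly cl) (hx : Poly x) :
    Poly (fun a => rankx (φ a) (k a) (L a) (w a) (cl a) (x a)) := by
  unfold rankx
  fun_prop

@[fun_prop]
theorem PolyT_mulx {φ : α → CNF} {k d L j x : α → ℕ} {cl : α → List ((ℕ × ℕ) × ℕ)} (hφ : Poly φ)
    (hk : Poly k) (hd : Poly d) (hL : Poly L) (hcl : Poly cl) (hj : Poly j) (hx : Poly x) :
    Poly (fun a => mulx (φ a) (k a) (d a) (L a) (cl a) (j a) (x a)) := by
  unfold mulx
  fun_prop

@[fun_prop]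
theorem PolyT_sumMul {φ : α → CNF} {k d L R : α → ℕ} (hφ : Poly φ) (hk : Poly k) (hd : Poly d)
    (hL : Poly L) (hR : Poly R) :
    Poly (fun a => sumMul (φ a) (k a) (d a) (L a) (R a)) := by
  unfold sumMul
  fun_prop

theorem Poly.instT {φ : α → CNF} {k d L R w : α → ℕ} {pw : α → List ℕ}
    (hφ : Poly φ) (hk : Poly k) (hd : Poly d) (hL : Poly L) (hR : Poly R)
    (hw : Poly w) (hp : Poly pw) :
    Poly (fun a => instT (φ a) (k a) (d a) (L a) (R a) (w a) (fun i => (pw a).getD i 0)) := by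
  unfold JS.instT wordOps repx lenx
  beta_reduce
  fun_prop

theorem Poly.targetT {φ : α → CNF} {k d L R c : α → ℕ} {pw : α → List ℕ}
    (hφ : Poly φ) (hk : Poly k) (hd : Poly d) (hL : Poly L) (hR : Poly R) (hc : Poly c)
    (hp : Poly pw) :
    Poly (fun a => (pw a).getD (nty (k a)) 0 *
      (sumMul (φ a) (k a) (d a) (L a) (R a) + 60 * (k a) * (c a * L a))) := by
  fun_prop

end

/-- the instance depends only on the first values of `f` -/
theorem instT_congr {φ : CNF} {k d L R w : ℕ} {f f' : ℕ → ℕ} (hk : 0 < k)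
    (h : ∀ i ≤ nty k, f i = f' i) : instT φ k d L R w f = instT φ k d L R w f' := by
  have h1 : lenx φ k L w (cols φ k) f = lenx φ k L w (cols φ k) f' := by
    funext x
    unfold lenx
    exact h _ (rankx_lt hk).le
  have h2 : ∀ j, repx φ k d L w (cols φ k) f j = repx φ k d L w (cols φ k) f' j := by
    intro j
    funext x
    unfold repx
    rw [h _ (Nat.sub_le _ _)]
  unfold instT
  rw [h1]
  simp only [h2]

end Pool.Agent.H.JS
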