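import Mathlib

/-!
From a matching of times to a matching of rows and columns.
-/

namespace Pool.Agent.H.JS

open Finset Classical

namespace TWRows

/-- The column of a common time of row `P` is determined up to order: two rows `P < Q` with common
times `s` with column `C` and `t` with column `D` have `C ≤ D`. -/
theorem le_of_times {T : ℕ} {A B : ℕ → Finset ℕ}
    (hAm : ∀ P Q, P < Q → Q < T → ∀ s ∈ A P, ∀ t ∈ A Q, s < t)
    (hBm : ∀ P Q, P < Q → Q < T → ∀ s ∈ B P, ∀ t ∈ B Q, s < t)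
    {P Q C D s t : ℕ} (hPQ : P < Q) (hQ : Q < T) (hC : C < T) (hs : s ∈ A P) (hs' : s ∈ B C)
    (ht : t ∈ A Q) (ht' : t ∈ B D) : C ≤ D := by
  by_contra h
  have h1 := hAm P Q hPQ hQ s hs t ht
  have h2 := hBm D C (not_le.1 h) hC t ht' s hs'
  omega

/-- two different members of an increasing family cannot both contain more than half of `X` -/
theorem unique_half {T δ : ℕ} {B : ℕ → Finset ℕ}
    (hBm : ∀ P Q, P < Q → Q < T → ∀ s ∈ B P, ∀ t ∈ B Q, s < t) (X : Finset ℕ)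
    (hX : X.card = 2 * δ) {C D : ℕ} (hC : C < T) (hD : D < T) (h1 : δ < (X ∩ B C).card)
    (h2 : δ < (X ∩ B D).card) : C = D := by
  by_contra hne
  have hdis : Disjoint (X ∩ B C) (X ∩ B D) := by
    rw [Finset.disjoint_left]
    intro t ht ht'
    have h3 := (Finset.mem_inter.1 ht).2
    have h4 := (Finset.mem_inter.1 ht').2
    rcases Nat.lt_or_gt_of_ne hne with h | h
    · exact lt_irrefl _ (hBm C D h hD t h3 t h4)
    · exact lt_irrefl _ (hBm D C h hC t h4 t h3)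
  have h3 := Finset.card_union_of_disjoint hdis
  have h4 : (X ∩ B C ∪ X ∩ B D).card ≤ X.card :=
    Finset.card_le_card (Finset.union_subset Finset.inter_subset_left Finset.inter_subset_left)
  omega

end TWRows

/-- Two increasing sequences `A 0, A 1, ...` and `B 0, B 1, ...` of sets of `2 δ` times. A time of
`A P` is matched if it is in some `B P'` of the same class. Up to the number of unmatched times,
most rows `P` and columns `P'` are in a strictly monotone matching of rows and columns of the same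
class that have a common time. -/
theorem rows (T δ : ℕ) (hδ : 0 < δ) (c : ℕ → ℕ) (hc : ∀ P P', c P = c P' → P % 2 = P' % 2)
    (A B : ℕ → Finset ℕ) (hA : ∀ P < T, (A P).card = 2 * δ) (hB : ∀ P < T, (B P).card = 2 * δ)
    (hAm : ∀ P Q, P < Q → Q < T → ∀ s ∈ A P, ∀ t ∈ A Q, s < t)
    (hBm : ∀ P Q, P < Q → Q < T → ∀ s ∈ B P, ∀ t ∈ B Q, s < t) :
    ∃ G : Finset (ℕ × ℕ),
      (∀ g ∈ G, g.1 < T ∧ g.2 < T ∧ c g.1 = c g.2 ∧ ∃ t, t ∈ A g.1 ∧ t ∈ B g.2) ∧
      (∀ g ∈ G, ∀ g' ∈ G, g.1 < g'.1 → g.2 < g'.2) ∧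
      (∀ g ∈ G, ∀ g' ∈ G, g.2 < g'.2 → g.1 < g'.1) ∧
      δ * T ≤ δ * G.card +
        (∑ P ∈ range T, ((A P).filter fun t => ¬ ∃ P' < T, t ∈ B P' ∧ c P' = c P).card +
        ∑ P' ∈ range T, ((B P').filter fun t => ¬ ∃ P < T, t ∈ A P ∧ c P = c P').card) := by
  obtain ⟨G, hG⟩ : ∃ G : Finset (ℕ × ℕ), ∀ g, g ∈ G ↔
      (g.1 < T ∧ g.2 < T) ∧ c g.1 = c g.2 ∧ δ < (A g.1 ∩ B g.2).card :=
    ⟨(range T ×ˢ range T).filter (fun g => c g.1 = c g.2 ∧ δ < (A g.1 ∩ B g.2).card), fun g => by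
      rw [Finset.mem_filter, Finset.mem_product, Finset.mem_range, Finset.mem_range]⟩
  have hcom : ∀ g ∈ G, ∃ t, t ∈ A g.1 ∧ t ∈ B g.2 := by
    intro g hg
    have h1 := ((hG g).1 hg).2.2
    obtain ⟨t, ht⟩ := Finset.card_pos.1 (by omega : 0 < (A g.1 ∩ B g.2).card)
    exact ⟨t, Finset.mem_inter.1 ht⟩
  have hmono : ∀ g ∈ G, ∀ g' ∈ G, g.1 < g'.1 → g.2 < g'.2 := by
    intro g hg g' hg' hlt
    obtain ⟨s, hs, hs'⟩ := hcom g hg
    obtain ⟨t, ht, ht'⟩ := hcom g' hg'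
    obtain ⟨⟨a1, a2⟩, a3, a4⟩ := (hG g).1 hg
    obtain ⟨⟨b1, b2⟩, b3, b4⟩ := (hG g').1 hg'
    refine lt_of_le_of_ne (TWRows.le_of_times hAm hBm hlt b1 a2 hs hs' ht ht') (fun he => ?_)
    rw [he, Finset.inter_comm] at a4
    rw [Finset.inter_comm] at b4
    have := TWRows.unique_half hAm (B g'.2) (hB _ b2) a1 b1 a4 b4
    omega
  have hmono' : ∀ g ∈ G, ∀ g' ∈ G, g.2 < g'.2 → g.1 < g'.1 := by
    intro g hg g' hg' hlt
    obtain ⟨⟨a1, a2⟩, a3, a4⟩ := (hG g).1 hg
    obtain ⟨⟨b1, b2⟩, b3, b4⟩ := (hG g').1 hg'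
    rcases lt_trichotomy g.1 g'.1 with h | h | h
    · exact h
    · rw [← h] at b4
      have := TWRows.unique_half hBm (A g.1) (hA _ a1) a2 b2 a4 b4
      omega
    · have := hmono g' hg' g hg h
      omega
  refine ⟨G, fun g hg => ⟨((hG g).1 hg).1.1, ((hG g).1 hg).1.2, ((hG g).1 hg).2.1, hcom g hg⟩,
    hmono, hmono', ?_⟩
  obtain ⟨uA, huA⟩ : ∃ uA : ℕ → ℕ, ∀ P, uA P =
      ((A P).filter fun t => ¬ ∃ P' < T, t ∈ B P' ∧ c P' = c P).card := ⟨_, fun _ => rfl⟩
  obtain ⟨uB, huB⟩ : ∃ uB : ℕ → ℕ, ∀ P', uB P' =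
      ((B P').filter fun t => ¬ ∃ P < T, t ∈ A P ∧ c P = c P').card := ⟨_, fun _ => rfl⟩
  simp only [← huA, ← huB]
  -- rows of the second kind have two columns
  have key : ∀ P < T, (∀ C < T, c P = c C → (A P ∩ B C).card ≤ δ) → uA P < δ →
      ∃ C D s t, C < D ∧ D < T ∧ c C = c P ∧ c D = c P ∧ s ∈ A P ∧ s ∈ B C ∧ t ∈ A P ∧
        t ∈ B D := by
    intro P hP hbad hu
    have h1 : ((A P).filter fun t => ∃ P' < T, t ∈ B P' ∧ c P' = c P).card + uA P = 2 * δ := by
      rw [huA, Finset.card_filter_add_card_filter_not, hA P hP]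
    obtain ⟨s, hs⟩ := Finset.card_pos.1 (by omega :
      0 < ((A P).filter fun t => ∃ P' < T, t ∈ B P' ∧ c P' = c P).card)
    obtain ⟨hs1, C, hC, hs2, hs3⟩ := Finset.mem_filter.1 hs
    obtain ⟨t, ht, htC⟩ : ∃ t ∈ (A P).filter (fun t => ∃ P' < T, t ∈ B P' ∧ c P' = c P),
        t ∉ B C := by
      by_contra hcon
      push Not at hcon
      have h2 : ((A P).filter fun t => ∃ P' < T, t ∈ B P' ∧ c P' = c P).card ≤
          (A P ∩ B C).card := by
        refine Finset.card_le_card (fun t ht => Finset.mem_inter.2 ⟨?_, hcon t ht⟩)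
        exact (Finset.mem_filter.1 ht).1
      have h3 := hbad C hC hs3.symm
      omega
    obtain ⟨ht1, D, hD, ht2, ht3⟩ := Finset.mem_filter.1 ht
    have hne : C ≠ D := by
      rintro rfl
      exact htC ht2
    rcases Nat.lt_or_gt_of_ne hne with h | h
    · exact ⟨C, D, s, t, h, hD, hs3, ht3, hs1, hs2, ht1, ht2⟩
    · exact ⟨D, C, t, s, h, hC, ht3, hs3, ht1, ht2, hs1, hs2⟩
  have key' : ∀ P, ∃ C, (P < T ∧ (∀ C < T, c P = c C → (A P ∩ B C).card ≤ δ) ∧ uA P < δ) →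
      ∃ D s t, C < D ∧ D < T ∧ c C = c P ∧ c D = c P ∧ s ∈ A P ∧ s ∈ B C ∧ t ∈ A P ∧
        t ∈ B D := by
    intro P
    by_cases h : P < T ∧ (∀ C < T, c P = c C → (A P ∩ B C).card ≤ δ) ∧ uA P < δ
    · obtain ⟨C, D, s, t, h1⟩ := key P h.1 h.2.1 h.2.2
      exact ⟨C, fun _ => ⟨D, s, t, h1⟩⟩
    · exact ⟨0, fun h' => absurd h' h⟩
  choose f hf using key'
  set bad := (range T).filter (fun P => ∀ C < T, c P = c C → (A P ∩ B C).card ≤ δ) with hbad
  set F1 := bad.filter (fun P => ¬ uA P < δ) with hF1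
  set F2 := bad.filter (fun P => uA P < δ) with hF2
  have hF2' : ∀ P ∈ F2, P < T ∧ (∀ C < T, c P = c C → (A P ∩ B C).card ≤ δ) ∧ uA P < δ := by
    intro P hP
    rw [hF2, Finset.mem_filter, hbad, Finset.mem_filter, Finset.mem_range] at hP
    exact ⟨hP.1.1, hP.1.2, hP.2⟩
  -- the good rows
  have hgood : ((range T).filter
      (fun P => ¬ ∀ C < T, c P = c C → (A P ∩ B C).card ≤ δ)).card ≤ G.card := by
    refine le_trans (Finset.card_le_card (fun P hP => ?_)) (Finset.card_image_le (f := Prod.fst))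
    rw [Finset.mem_filter, Finset.mem_range] at hP
    obtain ⟨hP1, hP2⟩ := hP
    push Not at hP2
    obtain ⟨C, hC, hC1, hC2⟩ := hP2
    exact Finset.mem_image.2 ⟨(P, C), (hG _).2 ⟨⟨hP1, hC⟩, hC1, hC2⟩, rfl⟩
  have hT : bad.card + ((range T).filter
      (fun P => ¬ ∀ C < T, c P = c C → (A P ∩ B C).card ≤ δ)).card = T := by
    rw [hbad, Finset.card_filter_add_card_filter_not, Finset.card_range]
  have hFF : F2.card + F1.card = bad.card := by
    rw [hF1, hF2, Finset.card_filter_add_card_filter_not]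
  -- the first sum
  have hS1 : δ * F1.card ≤ ∑ P ∈ range T, uA P := by
    have h1 : F1.card • δ ≤ ∑ P ∈ F1, uA P := Finset.card_nsmul_le_sum _ _ _ (fun P hP => by
      rw [hF1, Finset.mem_filter] at hP
      exact not_lt.1 hP.2)
    have h2 : ∑ P ∈ F1, uA P ≤ ∑ P ∈ range T, uA P :=
      Finset.sum_le_sum_of_subset ((Finset.filter_subset _ _).trans (Finset.filter_subset _ _))
    rw [smul_eq_mul, mul_comm] at h1
    exact h1.trans h2
  -- the second sum
  have hinj : Set.InjOn (fun P => f P + 1) (F2 : Set ℕ) := by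
    have hlt : ∀ P ∈ F2, ∀ Q ∈ F2, P < Q → f P < f Q := by
      intro P hP Q hQ hPQ
      obtain ⟨D, s, t, h1, h2, h3, h4, h5, h6, h7, h8⟩ := hf P (hF2' P hP)
      obtain ⟨D', s', t', k1, k2, k3, k4, k5, k6, k7, k8⟩ := hf Q (hF2' Q hQ)
      have := TWRows.le_of_times hAm hBm hPQ (hF2' Q hQ).1 h2 h7 h8 k5 k6
      omega
    intro P hP Q hQ hPQ
    simp only [add_left_inj] at hPQ
    rcases lt_trichotomy P Q with h | h | h
    · have := hlt P hP Q hQ h
      omega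
    · exact h
    · have := hlt Q hQ P hP h
      omega
  have hval : ∀ P ∈ F2, f P + 1 < T ∧ δ ≤ uB (f P + 1) := by
    intro P hP
    obtain ⟨hPT, _, _⟩ := hF2' P hP
    obtain ⟨D, s, t, h1, h2, h3, h4, h5, h6, h7, h8⟩ := hf P (hF2' P hP)
    have p1 := hc _ _ h3
    have p2 := hc _ _ h4
    have hlt : f P + 1 < D := by omega
    refine ⟨by omega, ?_⟩
    have hall : (B (f P + 1)).filter (fun t => ¬ ∃ Q < T, t ∈ A Q ∧ c Q = c (f P + 1)) =
        B (f P + 1) := by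
      rw [Finset.filter_eq_self]
      rintro r hr ⟨Q, hQ, hrQ, hcQ⟩
      have e1 : s < r := hBm (f P) (f P + 1) (by omega) (by omega) s h6 r hr
      have e2 : r < t := hBm (f P + 1) D hlt h2 r hr t h8
      have hQP : Q = P := by
        rcases lt_trichotomy Q P with h | h | h
        · have := hAm Q P h hPT r hrQ s h5
          omega
        · exact h
        · have := hAm P Q h hQ t h7 r hrQ
          omega
      subst hQP
      have p3 := hc _ _ hcQ
      omega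
    rw [huB, hall, hB _ (by omega)]
    omega
  have hS2 : δ * F2.card ≤ ∑ P' ∈ range T, uB P' := by
    have h1 : F2.card • δ ≤ ∑ P ∈ F2, uB (f P + 1) :=
      Finset.card_nsmul_le_sum _ _ _ (fun P hP => (hval P hP).2)
    have h2 : ∑ P ∈ F2, uB (f P + 1) = ∑ C ∈ F2.image (fun P => f P + 1), uB C :=
      (Finset.sum_image hinj).symm
    have h3 : ∑ C ∈ F2.image (fun P => f P + 1), uB C ≤ ∑ P' ∈ range T, uB P' := by
      refine Finset.sum_le_sum_of_subset (fun C hC => ?_)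
      obtain ⟨P, hP, rfl⟩ := Finset.mem_image.1 hC
      exact Finset.mem_range.2 (hval P hP).1
    rw [smul_eq_mul, mul_comm] at h1
    rw [h2] at h1
    exact h1.trans h3
  calc δ * T = δ * (F2.card + F1.card + ((range T).filter
      (fun P => ¬ ∀ C < T, c P = c C → (A P ∩ B C).card ≤ δ)).card) := by rw [hFF, hT]
    _ ≤ δ * (F2.card + F1.card + G.card) := Nat.mul_le_mul_left _ (by omega)
    _ = δ * G.card + (δ * F1.card + δ * F2.card) := by ring
    _ ≤ _ := Nat.add_le_add_left (Nat.add_le_add hS1 hS2) _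

end Pool.Agent.H.JS
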