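import Pool.Agent.H.MP_aeb38e_lc.TW.Basic
import Pool.Agent.H.MP_aeb38e_lc.TW.Keys
import Pool.Agent.H.MP_aeb38e_lc.TW.Rows
import Pool.Agent.H.MP_aeb38e_lc.NoB

/-!
The matching of the rows of the clock with the rows of another job.
-/

namespace Pool.Agent.H.JS

open Finset Classical

/-- The run of the instance with two machines. -/
abbrev RunT (φ : CNF) (k d L R w κ X U : ℕ) (r : ℕ → ℕ → ℕ → Prop) : Prop :=
  RunK (2 * k) (R * L * uS k (cols φ k)) X U (repx φ k d L w (cols φ k) (fun i => κ ^ i))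
    (lenx φ k L w (cols φ k) (fun i => κ ^ i)) r

/-- The unmatched slots of a letter. -/
noncomputable abbrev unmX (φ : CNF) (k L w κ X : ℕ) (r : ℕ → ℕ → ℕ → Prop) (j x : ℕ) : Finset ℕ :=
  unmT (2 * k) X (lenx φ k L w (cols φ k) (fun i => κ ^ i)) r j x

namespace TWTrack

theorem key_div {S P j : ℕ} (hj : j < S) : (P * S + j) / S = P := by
  rw [mul_comm, Nat.mul_add_div (by omega), Nat.div_eq_of_lt hj, add_zero]

theorem key_mod {S P j : ℕ} (hj : j < S) : (P * S + j) % S = j := by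
  rw [mul_comm, Nat.mul_add_mod, Nat.mod_eq_of_lt hj]

theorem key_lt {S T P j : ℕ} (hj : j < S) (hP : P < T) : P * S + j < T * S := by
  calc P * S + j < P * S + S := by omega
    _ = (P + 1) * S := by ring
    _ ≤ T * S := Nat.mul_le_mul_right S hP

theorem unm_mem {φ : CNF} {k d L R w κ X U : ℕ} {r : ℕ → ℕ → ℕ → Prop} (hk : 0 < k) (hκ : 1 < κ)
    (h : RunT φ k d L R w κ X U r) {j i o : ℕ} (hj : j < 2 * k)
    (hio : ∀ j' ≤ 2 * k, j' ≠ i → (j' = j ∨ j' = 2 * k) → j' = o) {P t : ℕ} (ht : t < X)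
    (hr : r i (P * uS k (cols φ k) + j) t)
    (hno : ¬ ∃ P' < R * L, r o (P' * uS k (cols φ k) + j) t ∧
      2 * digit 11 w (P' % L) + P' % 2 = 2 * digit 11 w (P % L) + P % 2) :
    t ∈ unmX φ k L w κ X r i (P * uS k (cols φ k) + j) := by
  have hjS : j < uS k (cols φ k) := by unfold uS; omega
  rw [unmX, unmT, mem_filter, mem_range]
  refine ⟨ht, hr, ?_⟩
  rintro ⟨j', hj', hne, x', hr', hlen⟩
  apply hno
  obtain ⟨hx', -, hrep⟩ := h.lt j' hj' x' t hr'
  rw [lenx_eq_iff hκ] at hlen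
  unfold rankx at hlen
  rw [key_div hjS, key_mod hjS] at hlen
  have h1 := (rank_align (P := P) (P' := x' / uS k (cols φ k)) (s' := x' % uS k (cols φ k))
    hk hj).1 hlen.symm
  obtain ⟨h2, h3⟩ := h1
  have hx2 : x' / uS k (cols φ k) * uS k (cols φ k) + j = x' := by
    rw [← h2]
    exact Nat.div_add_mod' x' _
  have hm : 0 < mulx φ k d L (cols φ k) j' x' := by
    rcases Nat.eq_zero_or_pos (mulx φ k d L (cols φ k) j' x') with h0 | h0
    · unfold repx at hrep
      rw [h0, zero_mul] at hrep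
      exact absurd hrep (lt_irrefl 0)
    · exact h0
  unfold mulx at hm
  rw [h2, mul_align hj] at hm
  have hj2 : j' = j ∨ j' = 2 * k := by
    by_contra hcon
    rw [if_neg hcon] at hm
    exact absurd hm (lt_irrefl 0)
  have ho : j' = o := hio j' hj' hne hj2
  refine ⟨x' / uS k (cols φ k), ?_, ?_, h3.symm⟩
  · exact Nat.div_lt_of_lt_mul (by rw [mul_comm]; exact hx')
  · rw [hx2, ← ho]
    exact hr'

theorem card_eq {φ : CNF} {k d L R w κ X U : ℕ} {r : ℕ → ℕ → ℕ → Prop} (hk : 0 < k)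
    (h : RunT φ k d L R w κ X U r) {j i : ℕ} (hj : j < 2 * k) (hi : i = j ∨ i = 2 * k) {P : ℕ}
    (hP : P < R * L) :
    ((range X).filter fun t => r i (P * uS k (cols φ k) + j) t).card = 2 * κ ^ nty k := by
  have hjS : j < uS k (cols φ k) := by unfold uS; omega
  have h1 := h.card i (by omega) (P * uS k (cols φ k) + j) (key_lt hjS hP)
  rw [h1, mul_assoc, repx_mul_lenx hk]
  have h2 : mulx φ k d L (cols φ k) i (P * uS k (cols φ k) + j) = 1 := by
    unfold mulx
    rw [key_div hjS, key_mod hjS, mul_align hj, if_pos hi]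
  rw [h2, one_mul]

end TWTrack

open TWTrack in
theorem track {φ : CNF} {k d L R w κ X U : ℕ} {r : ℕ → ℕ → ℕ → Prop} (hk : 0 < k) (hκ : 1 < κ)
    (h : RunT φ k d L R w κ X U r) (j : ℕ) (hj : j < 2 * k) :
    ∃ (G : Finset (ℕ × ℕ)) (N : ℕ),
      (∀ g ∈ G, g.1 < R * L ∧ g.2 < R * L ∧
        w / 11 ^ (g.1 % L) % 11 = w / 11 ^ (g.2 % L) % 11 ∧
        ∃ t, r (2 * k) (g.1 * uS k (cols φ k) + j) t ∧ r j (g.2 * uS k (cols φ k) + j) t) ∧
      (∀ g ∈ G, ∀ g' ∈ G, g.1 < g'.1 → g.2 < g'.2) ∧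
      (∀ g ∈ G, ∀ g' ∈ G, g.2 < g'.2 → g.1 < g'.1) ∧
      R * L ≤ G.card + N ∧
      κ ^ nty k * N ≤
        ∑ P ∈ range (R * L), (unmX φ k L w κ X r (2 * k) (P * uS k (cols φ k) + j)).card +
        ∑ P ∈ range (R * L), (unmX φ k L w κ X r j (P * uS k (cols φ k) + j)).card := by
  have hjS : j < uS k (cols φ k) := by unfold uS; omega
  have hSpos : 0 < uS k (cols φ k) := by omega
  set A : ℕ → Finset ℕ := fun P => (range X).filter fun t =>
    r (2 * k) (P * uS k (cols φ k) + j) t with hA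
  set B : ℕ → Finset ℕ := fun P => (range X).filter fun t =>
    r j (P * uS k (cols φ k) + j) t with hB
  obtain ⟨G, hG, hm1, hm2, hcard⟩ := rows (R * L) (κ ^ nty k) (pow_pos (by omega) _)
    (fun P => 2 * digit 11 w (P % L) + P % 2) (fun P P' hPP => by
      omega) A B
    (fun P hP => card_eq hk h hj (Or.inr rfl) hP) (fun P hP => card_eq hk h hj (Or.inl rfl) hP)
    (fun P Q hPQ hQ s hs t ht => by
      rw [hA] at hs ht
      simp only [mem_filter, mem_range] at hs ht
      exact h.mono (2 * k) le_rfl _ _ s t hs.2 ht.2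
        (Nat.add_lt_add_right (Nat.mul_lt_mul_of_pos_right hPQ hSpos) j))
    (fun P Q hPQ hQ s hs t ht => by
      rw [hB] at hs ht
      simp only [mem_filter, mem_range] at hs ht
      exact h.mono j hj.le _ _ s t hs.2 ht.2
        (Nat.add_lt_add_right (Nat.mul_lt_mul_of_pos_right hPQ hSpos) j))
  refine ⟨G, R * L - G.card, ?_, hm1, hm2, by omega, ?_⟩
  · intro g hg
    obtain ⟨h1, h2, h3, t, h4, h5⟩ := hG g hg
    refine ⟨h1, h2, ?_, t, ?_, ?_⟩
    · rw [← digit_eqB, ← digit_eqB]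
      omega
    · rw [hA] at h4
      simp only [mem_filter] at h4
      exact h4.2
    · rw [hB] at h5
      simp only [mem_filter] at h5
      exact h5.2
  · have hsub1 : ∀ P ∈ range (R * L), ((A P).filter fun t => ¬ ∃ P' < R * L, t ∈ B P' ∧
        2 * digit 11 w (P' % L) + P' % 2 = 2 * digit 11 w (P % L) + P % 2).card ≤
        (unmX φ k L w κ X r (2 * k) (P * uS k (cols φ k) + j)).card := by
      intro P _
      apply card_le_card
      intro t ht
      rw [mem_filter, hA] at ht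
      simp only [mem_filter, mem_range] at ht
      refine unm_mem hk hκ h hj (o := j) ?_ ht.1.1 ht.1.2 ?_
      · intro j' _ hne hor
        exact hor.resolve_right hne
      · rintro ⟨P', hP', hr', hc'⟩
        refine ht.2 ⟨P', hP', ?_, hc'⟩
        rw [hB]
        simp only [mem_filter, mem_range]
        exact ⟨ht.1.1, hr'⟩
    have hsub2 : ∀ P ∈ range (R * L), ((B P).filter fun t => ¬ ∃ P' < R * L, t ∈ A P' ∧
        2 * digit 11 w (P' % L) + P' % 2 = 2 * digit 11 w (P % L) + P % 2).card ≤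
        (unmX φ k L w κ X r j (P * uS k (cols φ k) + j)).card := by
      intro P _
      apply card_le_card
      intro t ht
      rw [mem_filter, hB] at ht
      simp only [mem_filter, mem_range] at ht
      refine unm_mem hk hκ h hj (o := 2 * k) ?_ ht.1.1 ht.1.2 ?_
      · intro j' _ hne hor
        exact hor.resolve_left hne
      · rintro ⟨P', hP', hr', hc'⟩
        refine ht.2 ⟨P', hP', ?_, hc'⟩
        rw [hA]
        simp only [mem_filter, mem_range]
        exact ⟨ht.1.1, hr'⟩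
    have h1 := sum_le_sum hsub1
    have h2 := sum_le_sum hsub2
    rw [Nat.mul_sub]
    omega

end Pool.Agent.H.JS
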