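import Pool.Agent.H.MP_aeb38e_lc.TW.Basic
import Pool.Agent.H.MP_aeb38e_lc.TW.Lock

/-!
Completeness: the words of the jobs with offsets.
-/

namespace Pool.Agent.H.JS

open Finset

/-- The letter executed by the job `j` with offset `z` (in blocks) at the global key `g`: its
multiplicity. -/
def mulg (φ : CNF) (k d L R : ℕ) (z : ℕ → ℕ) (j g : ℕ) : ℕ :=
  if z j * L * uS k (cols φ k) ≤ g ∧ g < (R + z j) * L * uS k (cols φ k) then
    mulx φ k d L (cols φ k) j (g - z j * L * uS k (cols φ k)) else 0

/-- the ranks do not change when the key is shifted by blocks -/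
theorem rankx_shift {φ : CNF} {k L w g z : ℕ} (hk : 0 < k) (h2 : 2 ∣ L)
    (h : z * L * uS k (cols φ k) ≤ g) :
    rankx φ k L w (cols φ k) (g - z * L * uS k (cols φ k)) = rankx φ k L w (cols φ k) g := by
  have hS : 0 < uS k (cols φ k) := by
    unfold uS
    omega
  obtain ⟨x, rfl⟩ := Nat.exists_eq_add_of_le h
  rw [Nat.add_sub_cancel_left]
  unfold rankx
  have h1 : (z * L * uS k (cols φ k) + x) / uS k (cols φ k) = x / uS k (cols φ k) + z * L := by
    rw [add_comm, Nat.add_mul_div_right _ _ hS]
  have h3 : (z * L * uS k (cols φ k) + x) % uS k (cols φ k) = x % uS k (cols φ k) := by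
    rw [add_comm, Nat.add_mul_mod_self_right]
  rw [h1, h3]
  unfold rank
  have h4 : (x / uS k (cols φ k) + z * L) % L = x / uS k (cols φ k) % L :=
    Nat.add_mul_mod_self_right _ _ _
  have h5 : (x / uS k (cols φ k) + z * L) % 2 = x / uS k (cols φ k) % 2 := by
    obtain ⟨m, rfl⟩ := h2
    rw [show z * (2 * m) = 2 * (z * m) by ring, Nat.add_mul_mod_self_left]
  rw [h4, h5]

theorem YesA_piece_zero (l : ℕ) : piece l 0 = [] := rfl

theorem YesA_nil (l : List ℕ) (f : ℕ → List (ℕ × ℕ)) (h : ∀ x ∈ l, f x = []) :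
    l.flatMap f = [] := by
  rw [List.flatMap_eq_nil_iff]
  exact h

/-- the word of a job with an offset -/
theorem wordOps_shift {φ : CNF} {k d L R w Z κ : ℕ} {z : ℕ → ℕ} (hk : 0 < k) (h2 : 2 ∣ L)
    (hz : ∀ j, z j ≤ Z) (j : ℕ) :
    wordOps (R * L * uS k (cols φ k)) (repx φ k d L w (cols φ k) (fun i => κ ^ i) j)
      (lenx φ k L w (cols φ k) (fun i => κ ^ i)) =
    (List.range ((R + Z) * L * uS k (cols φ k))).flatMap fun g =>
      piece (κ ^ rankx φ k L w (cols φ k) g)
        (mulg φ k d L R z j g * κ ^ (nty k - rankx φ k L w (cols φ k) g)) := by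
  obtain ⟨t, ht⟩ := Nat.exists_eq_add_of_le (hz j)
  have hA : (R + Z) * L * uS k (cols φ k) = z j * L * uS k (cols φ k) +
      (R * L * uS k (cols φ k) + t * L * uS k (cols φ k)) := by
    rw [ht]
    ring
  have hB : (R + z j) * L * uS k (cols φ k) =
      z j * L * uS k (cols φ k) + R * L * uS k (cols φ k) := by ring
  rw [hA, List.range_add, List.flatMap_append, List.flatMap_map, List.range_add,
    List.flatMap_append, List.flatMap_map, YesA_nil, YesA_nil (List.range (t * _ * _)),
    List.nil_append, List.append_nil]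
  · unfold wordOps
    refine List.flatMap_congr fun x hx => ?_
    have hx' := List.mem_range.1 hx
    have h1 : mulg φ k d L R z j (z j * L * uS k (cols φ k) + x) =
        mulx φ k d L (cols φ k) j x := by
      unfold mulg
      rw [if_pos ⟨Nat.le_add_right _ _, by rw [hB]; exact Nat.add_lt_add_left hx' _⟩,
        Nat.add_sub_cancel_left]
    have h3 : rankx φ k L w (cols φ k) (z j * L * uS k (cols φ k) + x) =
        rankx φ k L w (cols φ k) x := by
      have h4 := rankx_shift (φ := φ) (k := k) (L := L) (w := w)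
        (g := z j * L * uS k (cols φ k) + x) (z := z j) hk h2 (Nat.le_add_right _ _)
      rw [Nat.add_sub_cancel_left] at h4
      exact h4.symm
    rw [h1, h3]
    rfl
  · intro x hx
    unfold mulg
    rw [if_neg (by rw [hB]; omega), zero_mul, YesA_piece_zero]
  · intro x hx
    have hx' := List.mem_range.1 hx
    unfold mulg
    rw [if_neg (by omega), zero_mul, YesA_piece_zero]

end Pool.Agent.H.JS
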