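import Pool.Agent.H.MP_aeb38e_lc.TW.YesA
import Pool.Agent.H.MP_aeb38e_lc.YesB

/-!
Completeness: the cost of a global key.
-/

namespace Pool.Agent.H.JS

open Finset

namespace TWYesC

theorem uS_pos {φ : CNF} {k : ℕ} (hk : 0 < k) : 0 < uS k (cols φ k) := by
  unfold uS
  omega

theorem divmod {g c S : ℕ} (hS : 0 < S) (h : c * S ≤ g) :
    (g - c * S) / S = g / S - c ∧ (g - c * S) % S = g % S ∧ c ≤ g / S := by
  have hc : c ≤ g / S := (Nat.le_div_iff_mul_le hS).2 h
  obtain ⟨e, he⟩ := Nat.exists_eq_add_of_le hc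
  have h1 : g = S * (g / S) + g % S := (Nat.div_add_mod g S).symm
  have hr : g % S < S := Nat.mod_lt _ hS
  have h2 : g - c * S = S * e + g % S := by
    rw [he, mul_add] at h1
    rw [mul_comm c S]
    omega
  refine ⟨?_, ?_, hc⟩
  · rw [h2, Nat.mul_add_div hS, Nat.div_eq_of_lt hr, he]
    omega
  · rw [h2, Nat.mul_add_mod, Nat.mod_mod]

/-- the multiplicity at an interior key -/
theorem mulg_eq {φ : CNF} {k d L R g : ℕ} {z : ℕ → ℕ} {j : ℕ} (hk : 0 < k)
    (h1 : z j * L * uS k (cols φ k) ≤ g) (h2 : g < R * L * uS k (cols φ k)) :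
    mulg φ k d L R z j g = mul φ k d L (cols φ k) j (g / uS k (cols φ k) - z j * L)
      (g % uS k (cols φ k)) ∧ z j * L ≤ g / uS k (cols φ k) := by
  have hS := uS_pos (φ := φ) hk
  have h3 : g < (R + z j) * L * uS k (cols φ k) :=
    h2.trans_le (Nat.mul_le_mul_right _ (Nat.mul_le_mul_right _ (Nat.le_add_right _ _)))
  obtain ⟨e1, e2, e3⟩ := divmod hS h1
  unfold mulg
  rw [if_pos ⟨h1, h3⟩]
  unfold mulx
  rw [e1, e2]
  exact ⟨rfl, e3⟩

/-- the position in the block of a shifted unit -/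
theorem shift {L P c : ℕ} (hL : 0 < L) (h3 : 3 ∣ L) (h : c * L ≤ P) :
    (P - c * L) % 3 = P % 3 ∧ (P - c * L) % L = P % L ∧ (P - c * L) / L = P / L - c ∧
      c ≤ P / L := by
  obtain ⟨e1, e2, e3⟩ := divmod hL h
  refine ⟨?_, e2, e1, e3⟩
  rw [← Nat.mod_mod_of_dvd (P - c * L) h3, e2, Nat.mod_mod_of_dvd P h3]

/-- the cost when all multiplicities are zero -/
theorem cost_nil {J κ nt r : ℕ} {n : ℕ → ℕ} (hn : ∀ j < J, n j = 0) :
    ∃ X, κ * X ≤ κ ^ nt * ((κ + 3) * ∑ j ∈ range J, n j) ∧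
      Fits ((List.range J).map fun j => piece (κ ^ r) (n j * κ ^ (nt - r))) X := by
  refine ⟨0, by simp, fits_nil J _ fun j hj => ?_⟩
  rw [hn j hj]
  simp [piece]

theorem sum_two {J a b c : ℕ} {n : ℕ → ℕ} (ha : a < J) (hb : b < J) (hab : a ≠ b)
    (hna : n a = c) (hnb : n b = c) (hn : ∀ j < J, j ≠ a → j ≠ b → n j = 0) :
    ∑ j ∈ range J, n j = 2 * c := by
  classical
  have h1 : ∑ j ∈ ({a, b} : Finset ℕ), n j = ∑ j ∈ range J, n j := by
    apply sum_subset
    · intro x hx
      simp only [mem_insert, mem_singleton] at hx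
      rw [mem_range]
      rcases hx with rfl | rfl <;> assumption
    · intro x hx hx'
      simp only [mem_insert, mem_singleton, not_or] at hx'
      exact hn x (mem_range.1 hx) hx'.1 hx'.2
  rw [← h1, sum_pair hab, hna, hnb]
  ring

theorem sum_three {J a b c m : ℕ} {n : ℕ → ℕ} (ha : a < J) (hb : b < J) (hc : c < J)
    (hab : a ≠ b) (hac : a ≠ c) (hbc : b ≠ c)
    (hna : n a = m) (hnb : n b = m) (hnc : n c = m)
    (hn : ∀ j < J, j ≠ a → j ≠ b → j ≠ c → n j = 0) :
    ∑ j ∈ range J, n j = 3 * m := by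
  classical
  have h1 : ∑ j ∈ ({a, b, c} : Finset ℕ), n j = ∑ j ∈ range J, n j := by
    apply sum_subset
    · intro x hx
      simp only [mem_insert, mem_singleton] at hx
      rw [mem_range]
      rcases hx with rfl | rfl | rfl <;> assumption
    · intro x hx hx'
      simp only [mem_insert, mem_singleton, not_or] at hx'
      exact hn x (mem_range.1 hx) hx'.1 hx'.2.1 hx'.2.2
  rw [← h1, sum_insert (by simp [hab, hac]), sum_pair hbc, hna, hnb, hnc]
  ring

/-- the cost when two jobs have the same positive multiplicity `c` -/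
theorem cost_lock {J κ nt r a b c : ℕ} {n : ℕ → ℕ} (hκ : 0 < κ) (hr : r < nt) (hc : 0 < c)
    (ha : a < J) (hb : b < J) (hab : a ≠ b)
    (hna : n a = c) (hnb : n b = c) (hn : ∀ j < J, j ≠ a → j ≠ b → n j = 0) :
    ∃ X, κ * X ≤ κ ^ nt * ((κ + 3) * ∑ j ∈ range J, n j) ∧
      Fits ((List.range J).map fun j => piece (κ ^ r) (n j * κ ^ (nt - r))) X := by
  have h1 := fits_lock J (κ ^ r) (c * κ ^ (nt - r)) a b (fun j => n j * κ ^ (nt - r)) ha hb hab
    (by simp only [hna]) (by simp only [hnb])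
    (fun j h1 h2 h3 => by simp only [hn j h1 h2 h3, zero_mul])
  refine ⟨_, ?_, h1⟩
  rw [sum_two ha hb hab hna hnb hn]
  have e1 : κ ^ r * κ ^ (nt - r) = κ ^ nt := by
    rw [← pow_add]
    congr 1
    omega
  have e2 : κ * κ ^ r ≤ κ ^ nt := by
    rw [← pow_succ']
    exact Nat.pow_le_pow_right hκ hr
  have e3 : κ * (2 * κ ^ r * (c * κ ^ (nt - r)) + κ ^ r) = 2 * c * κ * κ ^ nt + κ * κ ^ r := by
    rw [← e1]
    ring
  rw [e3]
  have e4 : κ ^ nt * ((κ + 3) * (2 * c)) = 2 * c * κ * κ ^ nt + 6 * c * κ ^ nt := by ring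
  rw [e4]
  have e5 : κ ^ nt ≤ 6 * c * κ ^ nt := Nat.le_mul_of_pos_left _ (by omega)
  omega

/-- the cost when three jobs have multiplicity `2` -/
theorem cost_lock3 {J κ nt r a b c : ℕ} {n : ℕ → ℕ} (hκ : 0 < κ) (hr : r < nt)
    (ha : a < J) (hb : b < J) (hc : c < J) (hab : a ≠ b) (hac : a ≠ c) (hbc : b ≠ c)
    (hna : n a = 2) (hnb : n b = 2) (hnc : n c = 2)
    (hn : ∀ j < J, j ≠ a → j ≠ b → j ≠ c → n j = 0) :
    ∃ X, κ * X ≤ κ ^ nt * ((κ + 3) * ∑ j ∈ range J, n j) ∧
      Fits ((List.range J).map fun j => piece (κ ^ r) (n j * κ ^ (nt - r))) X := by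
  have h1 := fits_lock3 J (κ ^ r) (κ ^ (nt - r)) a b c (fun j => n j * κ ^ (nt - r)) ha hb hc
    hab hac hbc (by simp only [hna]) (by simp only [hnb]) (by simp only [hnc])
    (fun j h1 h2 h3 h4 => by simp only [hn j h1 h2 h3 h4, zero_mul])
  refine ⟨_, ?_, h1⟩
  rw [sum_three ha hb hc hab hac hbc hna hnb hnc hn]
  have e1 : κ ^ r * κ ^ (nt - r) = κ ^ nt := by
    rw [← pow_add]
    congr 1
    omega
  have e2 : κ * κ ^ r ≤ κ ^ nt := by
    rw [← pow_succ']
    exact Nat.pow_le_pow_right hκ hr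
  have e3 : κ * (6 * κ ^ r * κ ^ (nt - r) + 3 * κ ^ r) = 6 * κ * κ ^ nt + 3 * (κ * κ ^ r) := by
    rw [← e1]
    ring
  rw [e3]
  have e4 : κ ^ nt * ((κ + 3) * (3 * 2)) = 6 * κ * κ ^ nt + 18 * κ ^ nt := by ring
  rw [e4]
  omega

end TWYesC

/-- the cost of a global key in the interior -/
theorem cost_int {φ : CNF} {k d L R w κ g Z : ℕ} {τ : ℕ → Bool} {u z : ℕ → ℕ} (hk : 0 < k)
    (hκ : 0 < κ) (h3 : 3 ∣ L) (hM : φ.2.length ≤ k * d) (hN : φ.1 ≤ k * d) (hv : Vars φ)
    (hu : ∀ c, u c ≤ 2)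
    (ht : ∀ c cl, φ.2[c]? = some cl → τ (litOf cl (u c)).1 = (litOf cl (u c)).2)
    (hz : ∀ j, z j = if j < 2 * k then YB.ofsB k d τ u j else 0) (hZ : ∀ j, z j ≤ Z)
    (h1 : Z * L * uS k (cols φ k) ≤ g) (h2 : g < R * L * uS k (cols φ k)) :
    ∃ X, κ * X ≤ κ ^ nty k * ((κ + 3) * ∑ j ∈ range (2 * k + 1), mulg φ k d L R z j g) ∧
      Fits ((List.range (2 * k + 1)).map fun j => piece (κ ^ rankx φ k L w (cols φ k) g)
        (mulg φ k d L R z j g * κ ^ (nty k - rankx φ k L w (cols φ k) g))) X := by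
  have hr : rankx φ k L w (cols φ k) g < nty k := rankx_lt hk
  have hL : 0 < L := by
    rcases Nat.eq_zero_or_pos L with rfl | h
    · simp at h2
    · exact h
  have hS := TWYesC.uS_pos (φ := φ) hk
  have hs : g % uS k (cols φ k) < uS k (cols φ k) := Nat.mod_lt _ hS
  have hz1 : ∀ j, z j * L * uS k (cols φ k) ≤ g := fun j =>
    (Nat.mul_le_mul_right _ (Nat.mul_le_mul_right _ (hZ j))).trans h1
  have hmg := fun j => (TWYesC.mulg_eq (φ := φ) (d := d) (z := z) (j := j) hk (hz1 j) h2).1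
  have hsh := fun j => TWYesC.shift hL h3
    (TWYesC.mulg_eq (φ := φ) (d := d) (z := z) (j := j) hk (hz1 j) h2).2
  generalize hrr : rankx φ k L w (cols φ k) g = r at *
  generalize g / uS k (cols φ k) = P at *
  generalize g % uS k (cols φ k) = s at *
  by_cases hs2 : s < 2 * k
  · -- an aligning letter
    refine TWYesC.cost_lock (a := s) (b := 2 * k) (c := 1) hκ hr one_pos (by omega) (by omega)
      (by omega) ?_ ?_ ?_
    · rw [hmg, mul_align hs2, if_pos (Or.inl rfl)]
    · rw [hmg, mul_align hs2, if_pos (Or.inr rfl)]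
    · intro j hj h4 h5
      rw [hmg, mul_align hs2, if_neg (by omega)]
  push Not at hs2
  by_cases hact : P % 3 = 2 ∧ (tst k (cols φ k) s).2 = P % L / 3 / 65536
  swap
  · -- an inactive letter
    refine TWYesC.cost_nil fun j hj => ?_
    rw [hmg]
    by_contra hne
    obtain ⟨h4, h5, -⟩ := mul_test_pos hs2 (Nat.pos_of_ne_zero hne)
    rw [(hsh j).1] at h4
    rw [(hsh j).2.1] at h5
    exact hact ⟨h4, h5⟩
  obtain ⟨hP3, hcol⟩ := hact
  -- an active letter
  have hmem := YB.fst_mem (tst_mem (φ := φ) hs2 hs)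
  obtain ⟨hx1, hx2, hAB⟩ := mem_tests.1 hmem
  obtain ⟨hA, hB⟩ := job_lt (φ := φ) hk (tst k (cols φ k) s).1
  have hval : ∀ j, j ≠ 2 * k → mulg φ k d L R z j g =
      if (j = jobA φ k (tst k (cols φ k) s).1 ∨ j = jobB φ k (tst k (cols φ k) s).1) ∧
        testMach φ k d (P % L / 3) j (P / L - z j) (tst k (cols φ k) s).1 = j then 2 else 0 := by
    intro j hj
    rw [hmg]
    unfold mul
    rw [if_neg (by omega), (hsh j).1, (hsh j).2.1, (hsh j).2.2.1, if_pos (by simp [hP3, hcol]),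
      if_neg hj]
    simp only [Bool.and_eq_true, Bool.or_eq_true, decide_eq_true_eq]
  have hclock : mulg φ k d L R z (2 * k) g = 2 := by
    rw [hmg]
    exact mul_test_clock hs2 (by rw [(hsh _).1]; exact hP3) (by rw [(hsh _).2.1]; exact hcol)
  generalize (tst k (cols φ k) s).1 = x at *
  have hother : ∀ j < 2 * k + 1, j ≠ jobA φ k x → j ≠ jobB φ k x → j ≠ 2 * k →
      mulg φ k d L R z j g = 0 := by
    intro j _ h4 h5 h6
    rw [hval j h6, if_neg]
    rintro ⟨h7 | h7, -⟩
    · exact h4 h7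
    · exact h5 h7
  have hvA := hval (jobA φ k x) (by omega)
  have hvB := hval (jobB φ k x) (by omega)
  by_cases hsA : testMach φ k d (P % L / 3) (jobA φ k x) (P / L - z (jobA φ k x)) x =
      jobA φ k x
  · rw [if_pos ⟨Or.inl rfl, hsA⟩] at hvA
    by_cases hsB : testMach φ k d (P % L / 3) (jobB φ k x) (P / L - z (jobB φ k x)) x =
        jobB φ k x
    · rw [if_pos ⟨Or.inr rfl, hsB⟩] at hvB
      exact TWYesC.cost_lock3 hκ hr (by omega) (by omega) (by omega) hAB (by omega) (by omega)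
        hvA hvB hclock hother
    · rw [if_neg (fun h => hsB h.2)] at hvB
      refine TWYesC.cost_lock (a := jobA φ k x) (b := 2 * k) (c := 2) hκ hr two_pos (by omega)
        (by omega) (by omega) hvA hclock fun j hj h4 h5 => ?_
      by_cases h6 : j = jobB φ k x
      · rw [h6]; exact hvB
      · exact hother j hj h4 h6 h5
  · rw [if_neg (fun h => hsA h.2)] at hvA
    by_cases hsB : testMach φ k d (P % L / 3) (jobB φ k x) (P / L - z (jobB φ k x)) x =
        jobB φ k x
    · rw [if_pos ⟨Or.inr rfl, hsB⟩] at hvB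
      refine TWYesC.cost_lock (a := jobB φ k x) (b := 2 * k) (c := 2) hκ hr two_pos (by omega)
        (by omega) (by omega) hvB hclock fun j hj h4 h5 => ?_
      by_cases h6 : j = jobA φ k x
      · rw [h6]; exact hvA
      · exact hother j hj h6 h4 h5
    · -- both jobs see the special digits
      exfalso
      have hzA : P / L - z (jobA φ k x) + YB.ofsB k d τ u (jobA φ k x) = P / L := by
        have e1 := (hsh (jobA φ k x)).2.2.2
        have e2 := hz (jobA φ k x)
        rw [if_pos hA] at e2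
        omega
      have hzB : P / L - z (jobB φ k x) + YB.ofsB k d τ u (jobB φ k x) = P / L := by
        have e1 := (hsh (jobB φ k x)).2.2.2
        have e2 := hz (jobB φ k x)
        rw [if_pos hB] at e2
        omega
      have hal := YB.allow_of φ k d τ u hk hM hN hv hu ht x hx1 hx2 _ _ (hzA.trans hzB.symm)
      unfold testMach at hsA hsB
      split_ifs at hsA with hcA
      · split_ifs at hsB with hcB
        · simp only [Bool.and_eq_true, Bool.or_eq_true, decide_eq_true_eq, Bool.not_eq_true']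
            at hcA hcB
          obtain ⟨hna, hcA⟩ := hcA
          obtain ⟨-, hcB⟩ := hcB
          have fA : digit 16 (P / L - z (jobA φ k x)) (x.2 / 3 / k) = P % L / 3 / 4096 % 16 ∧
              digit 16 (P / L - z (jobA φ k x)) (d + (litAt φ x.2).1 / k) =
                P % L / 3 / 256 % 16 := by
            rcases hcA with h | h
            · exact h.2
            · exact absurd h.1 hAB
          have fB : digit 16 (P / L - z (jobB φ k x)) (x.2 / 3 / k) = P % L / 3 / 16 % 16 ∧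
              digit 16 (P / L - z (jobB φ k x)) (d + (litAt φ x.2).1 / k) =
                P % L / 3 % 16 := by
            rcases hcB with h | h
            · exact absurd h.1.symm hAB
            · exact h.2
          rw [fA.1, fA.2, fB.1, fB.2, hna] at hal
          exact absurd hal (by simp)
        · exact hsB rfl
      · exact hsA rfl

/-- the cost of a global key at the boundary -/
theorem cost_bd {φ : CNF} {k d L R w κ g : ℕ} {z : ℕ → ℕ} (hk : 0 < k) :
    Fits ((List.range (2 * k + 1)).map fun j => piece (κ ^ rankx φ k L w (cols φ k) g)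
      (mulg φ k d L R z j g * κ ^ (nty k - rankx φ k L w (cols φ k) g)))
      (κ ^ nty k * (2 * ∑ j ∈ range (2 * k + 1), mulg φ k d L R z j g)) := by
  have hr : rankx φ k L w (cols φ k) g < nty k := rankx_lt hk
  have h1 := fits_seq (2 * k + 1) (κ ^ rankx φ k L w (cols φ k) g)
    (fun j => mulg φ k d L R z j g * κ ^ (nty k - rankx φ k L w (cols φ k) g))
  refine h1.mono (le_of_eq ?_)
  rw [← sum_mul]
  have e1 : κ ^ rankx φ k L w (cols φ k) g * κ ^ (nty k - rankx φ k L w (cols φ k) g) =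
      κ ^ nty k := by
    rw [← pow_add]
    congr 1
    omega
  rw [← e1]
  ring

end Pool.Agent.H.JS
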